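import Pool.Agent.H97.FB.Defs2
import Pool.Agent.H4.AR.Def

/-!
# MP_821da1_nt, Families for all degrees `n ≥ 3` (helper97, idea helper87): definitions

`vM θ p v = θ v (p v)`: the vector of labels of a `k`-tuple of fibres.
`DiagM an θ`: to every conjugate of the anchor a set of at most `n` index tuples is attached, Galois
equivariant; for `i0` it contains the diagonal.
`SpcM A0 c0 x`: the `k`-tuple of integers `x` is special.
`mv P μ`: the value of the monomial `μ` at the integer points. `bxs D E`: the monomials with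
`a_v ≤ D_v`, `b_v < E`.
`Fre w ρ B`: the integers `w μ`, `μ ∈ B`, satisfy no linear relation with integer coefficients at most
`exp ρ`. `Dep w ρ B μ`: a multiple of `w μ` is a combination of the `w ν`, `ν ∈ B`.
`LabM θ P l`: the near branches of the points `P v` have the labels `θ v l`; the Galois group is
transitive on the vectors of labels.
-/

namespace Pool.Agent.H97.FC

open Finset Polynomial Pool.Agent.H72.ES Pool.Agent.H87.SA Pool.Agent.H87.SA2 Pool.Agent.H87.AX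
  Pool.Agent.H8.AW Pool.Agent.H52.AC Pool.Agent.H97.NW Pool.Agent.H8.RZ Pool.Agent.H97.FB

/-- the vector of labels -/
def vM {k n : ℕ} (θ : Fin k → Fin n → ℂ) (p : Fin k → Fin n) (v : Fin k) : ℂ := θ v (p v)

/-- the index tuples attached to the conjugates of the anchor of a `k`-tuple of fibres -/
structure DiagM {Dn Dl κ e M : ℕ} {X0 R : ℝ} (an : AnchX Dn Dl κ e M X0 R) {k n : ℕ}
    (θ : Fin k → Fin n → ℂ) where
  cardI : Fintype.card an.I ≤ Dn
  Rt : an.I → Finset (Fin k → Fin n)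
  card : ∀ i, (Rt i).card ≤ n
  diag : ∀ l : Fin n, (fun _ => l) ∈ Rt an.i0
  gal : ∀ σ : AA →+* ℂ, ∃ π1 : an.I → an.I,
    (∀ (i : an.I) (j : ℕ) (a : AA),
      (a : ℂ) = (((1 / X0 : ℝ)) : ℂ) ^ j * PowerSeries.coeff j (an.zs i) →
      σ a = (((1 / X0 : ℝ)) : ℂ) ^ j * PowerSeries.coeff j (an.zs (π1 i))) ∧
    ∀ (i : an.I) (p p' : Fin k → Fin n), p ∈ Rt i → (∀ v, Cj σ (θ v (p v)) (θ v (p' v))) →
      p' ∈ Rt (π1 i)

/-- a special tuple -/
def SpcM {k : ℕ} (A0 c0 : ℕ) (x : Fin k → ℤ) : Prop :=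
  ∃ g : MvPolynomial (Fin k) ℤ, g ≠ 0 ∧ (∀ v, g.degreeOf v ≤ A0) ∧
    (∀ v, (H4AR.l1 g) ^ c0 ≤ |(x v : ℝ)|) ∧ MvPolynomial.eval x g = 0

/-- the value of a monomial at the integer points -/
def mv {k ν : ℕ} (P : Fin k → Ptd ν) (μ : Fin k → ℕ × ℕ) : ℤ :=
  ∏ v, ((P v).x ^ (μ v).1 * (P v).y ^ (μ v).2)

/-- the monomials with `a_v ≤ D_v`, `b_v < E` -/
def bxs {k : ℕ} (D : Fin k → ℕ) (E : ℕ) : Finset (Fin k → ℕ × ℕ) :=
  Fintype.piFinset fun v => range (D v + 1) ×ˢ range E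

/-- no relation with small integer coefficients -/
def Fre {ι : Type} (w : ι → ℤ) (ρ : ℝ) (B : Finset ι) : Prop :=
  ∀ c : ι → ℤ, (∀ μ ∈ B, |((c μ : ℤ) : ℝ)| ≤ Real.exp ρ) → ∑ μ ∈ B, c μ * w μ = 0 → ∀ μ ∈ B, c μ = 0

/-- a multiple of `w μ` is a combination of the `w ν` -/
def Dep {ι : Type} (w : ι → ℤ) (ρ : ℝ) (B : Finset ι) (μ : ι) : Prop :=
  ∃ (a : ℤ) (c : ι → ℤ), a ≠ 0 ∧ |(a : ℝ)| ≤ Real.exp ρ ∧
    (∀ ν ∈ B, |((c ν : ℤ) : ℝ)| ≤ Real.exp ρ) ∧ a * w μ = ∑ ν ∈ B, c ν * w ν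

/-- the labels of the points of a cluster -/
structure LabM {ν n k : ℕ} (θ : Fin k → Fin n → ℂ) (P : Fin k → Ptd ν) (l : Fin n) where
  L : ∀ v, LbG (P v) (v1 (θ v)) l
  g : Fin k → ℤ[X]
  monic : ∀ v, (g v).Monic
  rts : ∀ v, Rts (g v) (θ v)
  tr : TrG (vM θ)

end Pool.Agent.H97.FC
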