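import Pool.Agent.H97.FB.THA

/-! # [H97 FC THB] A bound for the roots of a fibre

`Rts (fa f a) (thA Fm.pd m a)` for `B^CT ≤ a` (`thA_rts`). So `z = thA .. i` is a root of the monic polynomial `fa f a` of degree `n` whose coefficients are at most `(m n + 1) B a^(m n)` (`fa f a = f.map (evalRingHom a)`, coefficient `i` is `(f.coeff i).eval a`, degree `≤ m (n - i)`, `Fm.cdeg`, `Fm.le`). A root of a monic polynomial of degree `n` with
coefficients at most `A ≥ 1` has `‖z‖ ≤ n A + 1` (if `1 < ‖z‖`: `‖z‖^n ≤ ∑_(i<n) A ‖z‖^i ≤ n A ‖z‖^(n-1)`; `Polynomial.IsRoot.norm_lt_cauchyBound` of Mathlib may also be used). So `‖z‖ ≤ n (m n + 1) B a^(m n) + 1 ≤ a^C` for `C = m n + 3` or larger, if `B^C ≤ a` with `C` large (`n (m n + 1) + 1 ≤ 2^(n (m n + 1) + 1) ≤ B^..`;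
choose `C = CT + 2 n (m n + 1) + m n + 4`; `2 ≤ B ≤ a`). -/

namespace Pool.Agent.H97.FC

open Finset Polynomial Pool.Agent.H97.FB

theorem thA_norm (n m : ℕ) : ∃ C : ℕ, ∀ (B : ℕ) (f : ℤ[X][X]) (Fm : FamB n m B f) (a : ℕ),
    B ^ C ≤ a → ∀ i, ‖thA Fm.pd m a i‖ ≤ (a : ℝ) ^ C := by
  obtain ⟨CT, hCT⟩ := thA_rts n m
  refine ⟨CT + (m * n + 4), fun B f Fm a ha i => ?_⟩
  have hB2 := Fm.B2
  obtain ⟨hsplit, -⟩ := hCT B f Fm a ((Nat.pow_le_pow_right (by omega) (by omega)).trans ha)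
  have hBa : B ≤ a := by
    refine le_trans ?_ ha
    calc B = B ^ 1 := (pow_one B).symm
      _ ≤ _ := Nat.pow_le_pow_right (by omega) (by omega)
  have hBa' : (B : ℝ) ≤ a := by exact_mod_cast hBa
  have ha2 : (2 : ℝ) ≤ a := by
    have : 2 ≤ a := hB2.trans hBa
    exact_mod_cast this
  have ha1 : (1 : ℝ) ≤ a := by linarith
  have ha0 : (0 : ℝ) ≤ a := by linarith
  have hmn : ((m * n + 1 : ℕ) : ℝ) ≤ a := by
    have h1 : m * n + 1 ≤ 2 ^ (m * n) := Nat.lt_two_pow_self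
    have h2 : 2 ^ (m * n) ≤ B ^ (m * n) := Nat.pow_le_pow_left hB2 _
    have h3 : B ^ (m * n) ≤ B ^ (CT + (m * n + 4)) := Nat.pow_le_pow_right (by omega) (by omega)
    have h4 : m * n + 1 ≤ a := by omega
    exact_mod_cast h4
  have hmon : ((fa f a).map (Int.castRingHom ℂ)).Monic := by
    rw [hsplit]
    exact monic_prod_of_monic _ _ fun i _ => monic_X_sub_C _
  have hcoef : ∀ j, ‖((fa f a).map (Int.castRingHom ℂ)).coeff j‖ ≤ (a : ℝ) ^ (m * n + 2) := by
    intro j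
    have e1 : ((fa f a).map (Int.castRingHom ℂ)).coeff j = (((f.coeff j).eval (a : ℤ) : ℤ) : ℂ) := by
      unfold fa
      rw [coeff_map, coeff_map, coe_evalRingHom]
      rfl
    have hnd : (f.coeff j).natDegree < m * n + 1 := by
      have := (Fm.cdeg j).trans (Nat.mul_le_mul_left m (Nat.sub_le n j))
      omega
    have e2 : |(((f.coeff j).eval (a : ℤ) : ℤ) : ℝ)| ≤ ((m * n + 1 : ℕ) : ℝ) * ((B : ℝ) * (a : ℝ) ^ (m * n)) := by
      rw [eval_eq_sum_range' hnd]
      push_cast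
      refine (Finset.abs_sum_le_sum_abs _ _).trans ?_
      have h5 : ∀ k ∈ Finset.range (m * n + 1),
          |(((f.coeff j).coeff k : ℤ) : ℝ) * (a : ℝ) ^ k| ≤ (B : ℝ) * (a : ℝ) ^ (m * n) := by
        intro k hk
        rw [Finset.mem_range] at hk
        rw [abs_mul, abs_of_nonneg (pow_nonneg ha0 k)]
        refine mul_le_mul ?_ (pow_le_pow_right₀ ha1 (by omega)) (pow_nonneg ha0 k) (Nat.cast_nonneg B)
        have := Fm.le j k
        exact_mod_cast this
      refine (Finset.sum_le_sum h5).trans ?_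
      rw [Finset.sum_const, Finset.card_range, nsmul_eq_mul]
      push_cast
      exact le_rfl
    rw [e1, Complex.norm_intCast]
    refine e2.trans ?_
    calc ((m * n + 1 : ℕ) : ℝ) * ((B : ℝ) * (a : ℝ) ^ (m * n)) ≤ (a : ℝ) * ((a : ℝ) * (a : ℝ) ^ (m * n)) := by
          refine mul_le_mul hmn (mul_le_mul_of_nonneg_right hBa' (by positivity)) (by positivity) ha0
      _ = (a : ℝ) ^ (m * n + 2) := by ring
  have hz : ((fa f a).map (Int.castRingHom ℂ)).IsRoot (thA Fm.pd m a i) := by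
    rw [hsplit, IsRoot.def, eval_prod]
    exact Finset.prod_eq_zero (Finset.mem_univ i) (by rw [eval_sub, eval_X, eval_C, sub_self])
  have hcb := hz.norm_lt_cauchyBound hmon.ne_zero
  have hcb2 : (cauchyBound ((fa f a).map (Int.castRingHom ℂ)) : ℝ) ≤ (a : ℝ) ^ (m * n + 2) + 1 := by
    unfold cauchyBound
    rw [hmon.leadingCoeff, nnnorm_one, div_one, NNReal.coe_add, NNReal.coe_one]
    refine add_le_add ?_ le_rfl
    have h6 : ((Finset.range ((fa f a).map (Int.castRingHom ℂ)).natDegree).sup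
        fun x => ‖((fa f a).map (Int.castRingHom ℂ)).coeff x‖₊) ≤
        (⟨(a : ℝ) ^ (m * n + 2), by positivity⟩ : NNReal) := by
      refine Finset.sup_le fun j _ => ?_
      rw [← NNReal.coe_le_coe]
      exact hcoef j
    exact_mod_cast (NNReal.coe_le_coe.2 h6)
  have h7 : ‖thA Fm.pd m a i‖ < (cauchyBound ((fa f a).map (Int.castRingHom ℂ)) : ℝ) := by
    exact_mod_cast hcb
  refine (h7.le.trans hcb2).trans ?_
  calc (a : ℝ) ^ (m * n + 2) + 1 ≤ (a : ℝ) ^ (m * n + 2) * a := by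
        have h8 : (1 : ℝ) ≤ (a : ℝ) ^ (m * n + 2) := one_le_pow₀ ha1
        nlinarith
    _ = (a : ℝ) ^ (m * n + 3) := by ring
    _ ≤ (a : ℝ) ^ (CT + (m * n + 4)) := pow_le_pow_right₀ ha1 (by omega)

end Pool.Agent.H97.FC
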