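import Pool.Agent.H97.FB.THA
import Pool.Agent.H97.FB.ANWb
import Pool.Agent.H97.FB.AN0
import Pool.Agent.H97.FB.ANY
import Pool.Agent.H97.FB.ANA
import Pool.Agent.H21.AG.GN
import Pool.Agent.H21.AG.GL
import Pool.Agent.H21.AG.GX
import Pool.Agent.H21.AG.G1
import Pool.Agent.H21.AG.GZ

/-! # [H97 FC ANM] The anchor of a tuple of fibres

Interface of chapter D (helper21); assembly of the modules `Pool/Agent/H21/AG/*`, as in
`Pool/Agent/H97/FB/ANP.lean`. -/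

namespace Pool.Agent.H97.FC

open Finset Polynomial Pool.Agent.H72.ES Pool.Agent.H87.SA Pool.Agent.H87.SA2 Pool.Agent.H87.AX
  Pool.Agent.H97.GA Pool.Agent.H97.FB Pool.Agent.H21.AG

/-- the parameter bound, with `d` the degree and `M` the degree of the coefficients of the composite
polynomial -/
def Q0M (n d M : ℕ) : ℕ := n.factorial * d.factorial +
  10 * d ^ 2 * (n.factorial * (M + 1)) + n.factorial + d + M + 3

/-- the constant which `X0` has to exceed -/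
def KM (n d M : ℕ) : ℕ := (d * d.factorial + 1) +
  (n.factorial * (2 * d * M) * d.factorial + n.factorial * (2 * d * M) + 1) + d

theorem anm_RB {n m g B Δ : ℕ} {h : ℤ[X][X]} (pd : PData h n) (he : pd.e ≤ n.factorial)
    (hq : pd.q ≤ B) (hR : pd.R ≤ B) {lam : Fin g → ℕ} (hlam : ∑ u, lam u ≤ LamG n g) :
    (1 + ∑ u, (lam u : ℝ)) * RB pd m Δ ≤ (R1G n m g B Δ : ℝ) := by
  have hR2 := pd.R_ge
  have h1 : ((pd.q * pd.e ^ 2 : ℕ) : ℝ) ≤ ((B * n.factorial ^ 2 : ℕ) : ℝ) := by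
    exact_mod_cast Nat.mul_le_mul hq (Nat.pow_le_pow_left he 2)
  have h2 : (1 + ∑ u, (lam u : ℝ)) ≤ ((1 + LamG n g : ℕ) : ℝ) := by
    have : 1 + ∑ u, lam u ≤ 1 + LamG n g := by omega
    exact_mod_cast this
  have h0 : (0 : ℝ) ≤ ∑ u, (lam u : ℝ) := sum_nonneg fun u _ => Nat.cast_nonneg _
  have h3 : (1 + ∑ u, (lam u : ℝ)) * RB pd m Δ ≤
      ((1 + LamG n g : ℕ) : ℝ) * (2 ^ (m + 3) * Δ * ((B * n.factorial ^ 2 : ℕ) : ℝ) * B) := by
    unfold RB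
    gcongr
  refine h3.trans ?_
  unfold R1G
  push_cast
  have h4 : (0 : ℝ) ≤ ((n ^ g).factorial : ℝ) * (1 + (LamG n g : ℝ) * ((m * n + 1) *
      ((m * n + 1) * B * (1 + Δ) ^ (m * n)))) ^ (n ^ g) := by positivity
  linarith

theorem exists_anchM (k n m : ℕ) (hk : 1 ≤ k) : ∃ Q0 : ℕ, ∀ c : ℕ, ∃ C : ℕ, ∀ (B : ℕ)
    (f : ℤ[X][X]) (Fm : FamB n m B f) (a : ℕ) (δ : Fin k → ℕ), (∀ v, 1 ≤ δ v) →
    (∀ v, (δ v * B) ^ C ≤ a) →
    ∃ (Dn Dl κ e M : ℕ) (X0 R : ℝ) (an : AnchX Dn Dl κ e M X0 R),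
      Bnd Q0 Dn Dl κ e M X0 R ∧ (2 * R) ^ c ≤ X0 ∧ X0 ≤ (a : ℝ) ^ Q0 ∧ Nonempty (AlgA an Q0) ∧
      Nonempty (DiagM an fun v => thA Fm.pd m (a + δ v)) := by
  classical
  refine ⟨Q0M n (n ^ k) (n ^ k * (m * n)), fun c => ?_⟩
  obtain ⟨C1, hC1⟩ := thA_rts n m
  obtain ⟨C, hC⟩ := ang_num n m k c (KM n (n ^ k) (n ^ k * (m * n))) C1
  refine ⟨C, fun B f Fm a δ hδ hBa => ?_⟩
  obtain ⟨v0, -, hv0⟩ := exists_max_image univ δ ⟨⟨0, hk⟩, mem_univ _⟩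
  obtain ⟨Δ, hΔd⟩ : ∃ Δ, Δ = δ v0 := ⟨_, rfl⟩
  have hΔ : ∀ u, δ u ≤ Δ := fun u => hΔd ▸ hv0 u (mem_univ _)
  have hΔ1 : 1 ≤ Δ := hΔd ▸ hδ v0
  have hBa0 := hBa v0
  rw [← hΔd] at hBa0
  have hn2 := Fm.n2
  have hm1 := Fm.m1
  have hB2 := Fm.B2
  obtain ⟨pd, hpd⟩ : ∃ pd, pd = Fm.pd := ⟨_, rfl⟩
  have he := Fm.e_le
  have hq := Fm.q_le
  have hR := Fm.R_le
  rw [← hpd] at he hq hR
  obtain ⟨ha1, hBC1, hnum⟩ := hC B Δ a hB2 hΔ1 hBa0
  obtain ⟨g1, g2, g3, g4, g5⟩ := hnum pd.e pd.q pd.e_pos he pd.q_pos hq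
  have hXB : XB pd a = (pd.q * pd.e ^ 2 : ℕ) * (a : ℝ) ^ ((1 : ℝ) / pd.e) := rfl
  rw [← hXB] at g1 g2 g3 g4 g5
  have hr : ∀ u, Rts (fa f (a + δ u)) (thA Fm.pd m (a + δ u)) := fun u =>
    hC1 B f Fm (a + δ u) (hBC1.trans (Nat.le_add_right _ _))
  rw [← hpd] at hr ⊢
  obtain ⟨lam, -, hlam, hinj'⟩ := exists_lamG n k (fun u => thA pd m (a + δ u)) fun u => (hr u).2
  have hlamS : ∑ u, lam u ≤ LamG n k := by
    refine (sum_le_card_nsmul univ lam _ fun u _ => hlam u).trans ?_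
    rw [card_univ, Fintype.card_fin, smul_eq_mul]
    exact le_rfl
  have hS' : ∀ u, Nonempty (WdP pd.e pd.q (δ u)) := fun u => exists_wdP pd.e pd.q (δ u) pd.e_pos
  let S : ∀ u, WdP pd.e pd.q (δ u) := fun u => (hS' u).some
  have hn1 : 1 ≤ n := by omega
  have hRB : (1 + ∑ u, (lam u : ℝ)) * RB pd m Δ ≤ (R1G n m k B Δ : ℝ) := anm_RB pd he hq hR hlamS
  have hR2 := pd.R_ge
  have hlam0 : (0 : ℝ) ≤ ∑ u, (lam u : ℝ) := sum_nonneg fun u _ => Nat.cast_nonneg _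
  have hΔR : (1 : ℝ) ≤ Δ := by exact_mod_cast hΔ1
  have hq1 : (1 : ℝ) ≤ ((pd.q * pd.e ^ 2 : ℕ) : ℝ) := by
    have h1 := pd.e_pos
    have h2 := pd.q_pos
    exact_mod_cast Nat.one_le_iff_ne_zero.2 (by positivity)
  have hRB1 : Δ * ((pd.q * pd.e ^ 2 : ℕ) : ℝ) * pd.R ≤ RB pd m Δ := by
    unfold RB
    have h8 : (1 : ℝ) ≤ 2 ^ (m + 3) := one_le_pow₀ (by norm_num)
    calc Δ * ((pd.q * pd.e ^ 2 : ℕ) : ℝ) * pd.R
        = 1 * (Δ * ((pd.q * pd.e ^ 2 : ℕ) : ℝ) * pd.R) := (one_mul _).symm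
      _ ≤ 2 ^ (m + 3) * (Δ * ((pd.q * pd.e ^ 2 : ℕ) : ℝ) * pd.R) :=
          mul_le_mul_of_nonneg_right h8 (by positivity)
      _ = _ := by ring
  have hRB0 : 0 ≤ RB pd m Δ := le_trans (by positivity) hRB1
  have hRB2 : RB pd m Δ ≤ (R1G n m k B Δ : ℝ) := by nlinarith
  have hyp : ∀ u, 4 * δ u * ((pd.q * pd.e ^ 2 : ℕ) : ℝ) * pd.R ≤ XB pd a := by
    intro u
    have hu : (δ u : ℝ) ≤ Δ := by exact_mod_cast hΔ u
    calc 4 * δ u * ((pd.q * pd.e ^ 2 : ℕ) : ℝ) * pd.R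
        ≤ 4 * Δ * ((pd.q * pd.e ^ 2 : ℕ) : ℝ) * pd.R := by gcongr
      _ = 4 * (Δ * ((pd.q * pd.e ^ 2 : ℕ) : ℝ) * pd.R) := by ring
      _ ≤ 4 * (R1G n m k B Δ : ℝ) := mul_le_mul_of_nonneg_left (hRB1.trans hRB2) (by norm_num)
      _ ≤ _ := g2
  have hval := fun p => evC_yG (m := m) pd S lam hδ ha1 hyp p
  have haC : (a : ℂ) ≠ 0 := by exact_mod_cast (by omega : a ≠ 0)
  have hinj : Function.Injective (yG pd S lam) := by
    intro p p' hpp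
    apply hinj'
    simp only
    rw [← hval p, ← hval p', hpp]
  have hsep := sepG hn1 Fm.monic Fm.deg Fm.cdeg lam ha1 hr hinj'
  have H := rhypG pd S lam (R1G n m k B Δ : ℝ) hn1 Fm.monic Fm.deg Fm.cdeg hδ hΔ hΔ1 hRB hinj ha1 g2
    hsep
  obtain ⟨pd1, hpd1⟩ : ∃ pd1, pd1 = pdG pd S lam (R1G n m k B Δ : ℝ) hn1 Fm.monic Fm.deg Fm.cdeg
    hδ hΔ hΔ1 hRB hinj := ⟨_, rfl⟩
  have he1 : pd1.e = pd.e := by rw [hpd1]; rfl
  have hq1' : pd1.q = pd.q * pd.e ^ 2 := by rw [hpd1]; rfl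
  have hR1' : pd1.R = (R1G n m k B Δ : ℝ) := by rw [hpd1]; rfl
  have hx1 : ∀ p, pd1.x (finFunctionFinEquiv p) = yG pd S lam p := by
    intro p
    rw [hpd1]
    exact congrArg (yG pd S lam) (finFunctionFinEquiv.symm_apply_apply p)
  have hst := diag_stabG pd S lam (R1G n m k B Δ : ℝ) hn1 Fm.monic Fm.deg Fm.cdeg hδ hΔ hΔ1 hRB
    hinj (by linarith : 0 < XB pd a) (XB_pow pd a)
  rw [← hpd1] at H hst
  -- the number of coefficients
  have hFe : pd1.e * (2 * n ^ k * (n ^ k * (m * n))) ≤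
      n.factorial * (2 * n ^ k * (n ^ k * (m * n))) := by
    rw [he1]
    exact Nat.mul_le_mul_right _ he
  have hs0 := fun i j => s0_pd pd1 H.monic H.deg H.d1 H.mdeg i j
  have hK : ∀ x : ℕ, x ≤ KM n (n ^ k) (n ^ k * (m * n)) → (x : ℝ) ≤ XB pd a := fun x hx =>
    le_trans (by exact_mod_cast hx) g3
  obtain ⟨kf, ik, ink, w, la, T, Dl, an, q, hD1, hD2, hD3, hw, hsepT, hqq, hi0⟩ :=
    exists_anchX' H hs0
      (hK _ (by unfold KM; omega))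
      (hK _ (by
        have h9 := Nat.mul_le_mul_right (n ^ k).factorial hFe
        unfold KM
        omega))
  -- the polynomial of the diagonal
  obtain ⟨R', hR'⟩ : ∃ R' : Finset (Fin (n ^ k)), R' = univ.image fun l : Fin n =>
    (finFunctionFinEquiv (fun _ => l) : Fin (n ^ k)) := ⟨_, rfl⟩
  have hR'c : R'.card ≤ n := by
    rw [hR']
    refine card_image_le.trans ?_
    rw [card_univ, Fintype.card_fin]
  obtain ⟨p, hp1, hp2, hp3⟩ := stab_poly H T hsepT R' (by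
    intro σ π hπ j hj
    rw [hR', mem_image] at hj ⊢
    obtain ⟨l, -, rfl⟩ := hj
    obtain ⟨l', hl'⟩ := hst σ π hπ l
    exact ⟨l', mem_univ _, hl'.symm⟩)
  have hmm : m ≤ n ^ k * (m * n) := by
    have : 1 ≤ n ^ k * n := Nat.one_le_iff_ne_zero.2 (by positivity)
    nlinarith
  have hyR : ∀ p, yR pd1 (n ^ k * (m * n)) a (XB pd a) (finFunctionFinEquiv p) =
      ((a ^ (n ^ k * (m * n) - m) : ℕ) : ℂ) *
        ∑ u, (lam u : ℂ) * thA pd m (a + δ u) (p u) := by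
    intro p
    unfold yR
    rw [hx1, ← hval p]
    have h1 : (a : ℂ) ^ (n ^ k * (m * n)) =
        ((a ^ (n ^ k * (m * n) - m) : ℕ) : ℂ) * (a : ℂ) ^ m := by
      rw [Nat.cast_pow, ← pow_add, Nat.sub_add_cancel hmm]
    rw [h1, mul_assoc]
  -- the values are algebraic
  have halg : ∀ (b : ℕ), Rts (fa f b) (thA pd m b) → ∀ l, thA pd m b l ∈ AA := by
    intro b hb l
    have hmon : (fa f b).Monic := Fm.monic.map _
    rw [mem_algebraicClosure_iff]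
    have h1 : IsIntegral ℤ (thA pd m b l) := by
      refine ⟨fa f b, hmon, ?_⟩
      have h2 := congrArg (Polynomial.eval (thA pd m b l)) hb.1
      rw [eval_map, eval_prod, Finset.prod_eq_zero (mem_univ l) (by simp)] at h2
      exact h2
    exact (h1.tower_top (A := ℚ)).isAlgebraic
  have hdiag := exists_diagG (Θ := fun u => thA pd m (a + δ u)) (lam := lam)
    (A := a ^ (n ^ k * (m * n) - m)) H.X1 T an q hqq hi0
    (by
      have : a ≠ 0 := by omega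
      positivity) (fun u => halg (a + δ u) (hr u)) hinj' p hp1 (by rw [hp2]; exact hR'c) (by
      intro l
      rw [hp3, eval_prod]
      refine Finset.prod_eq_zero (i := finFunctionFinEquiv (fun _ => l)) ?_ ?_
      · rw [hR']
        exact mem_image_of_mem _ (mem_univ l)
      · rw [hyR, eval_sub, eval_X, eval_C, sub_self])
  -- the coefficients of the composite polynomial
  have hle : ∀ i j, |((((FG n m f δ lam).coeff i).coeff j : ℤ) : ℝ)| ≤ pd1.R := by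
    intro i j
    rw [hR1']
    obtain ⟨A, hA⟩ : ∃ A : ℕ, A = (m * n + 1) * ((m * n + 1) * B * (1 + Δ) ^ (m * n)) := ⟨_, rfl⟩
    have hA1 : 1 ≤ A := by
      rw [hA]
      exact Nat.one_le_iff_ne_zero.2 (by positivity)
    have e2 : ∀ u i, L1 ((rv n m (shF (δ u) f)).coeff i) ≤ (A : ℝ) := by
      intro u i
      have h6 := rv_L1 (A := (m * n + 1) * B * (1 + δ u) ^ (m * n)) (shF_cdeg (δ u) Fm.cdeg)
        (shF_le (δ u) Fm.cdeg Fm.le) i
      refine h6.trans ?_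
      have h7 : (m * n + 1) * ((m * n + 1) * B * (1 + δ u) ^ (m * n)) ≤ A := by
        rw [hA]
        exact Nat.mul_le_mul_left _ (Nat.mul_le_mul_left _
          (Nat.pow_le_pow_left (Nat.add_le_add_left (hΔ u) 1) _))
      exact_mod_cast h7
    refine (cpG_le (lam := lam) (n := n) (by exact_mod_cast hA1 : (1 : ℝ) ≤ A) e2 i j).trans ?_
    have h2 : (∑ u, (lam u : ℝ)) ≤ (LamG n k : ℝ) := by exact_mod_cast hlamS
    calc ((n ^ k).factorial : ℝ) * (1 + (∑ u, (lam u : ℝ)) * (A : ℝ)) ^ (n ^ k)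
        ≤ ((n ^ k).factorial : ℝ) * (1 + (LamG n k : ℝ) * (A : ℝ)) ^ (n ^ k) := by gcongr
      _ ≤ (R1G n m k B Δ : ℝ) := by
          unfold R1G
          rw [← hA]
          push_cast
          have h4 : (0 : ℝ) ≤ (1 + (LamG n k : ℝ)) *
            (2 ^ (m + 3) * Δ * (B * (n.factorial : ℝ) ^ 2) * B) := by positivity
          linarith
  have hqR : (pd1.q : ℝ) ≤ pd1.R := by
    rw [hR1', hq1']
    refine le_trans ?_ hRB2
    refine le_trans ?_ hRB1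
    have h7 : (1 : ℝ) ≤ Δ * pd.R := by nlinarith
    calc ((pd.q * pd.e ^ 2 : ℕ) : ℝ) = ((pd.q * pd.e ^ 2 : ℕ) : ℝ) * 1 := (mul_one _).symm
      _ ≤ ((pd.q * pd.e ^ 2 : ℕ) : ℝ) * (Δ * pd.R) := mul_le_mul_of_nonneg_left h7 (by positivity)
      _ = _ := by ring
  have hκ : kapR (n ^ k) (n ^ k * (m * n)) pd1.e ≤ Q0M n (n ^ k) (n ^ k * (m * n)) := by
    unfold kapR Q0M
    rw [he1]
    have := Nat.mul_le_mul_left (10 * (n ^ k) ^ 2)
      (Nat.mul_le_mul_right (n ^ k * (m * n) + 1) he)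
    omega
  have hDl : Dl ≤ Q0M n (n ^ k) (n ^ k * (m * n)) := by
    refine hD3.trans ?_
    rw [he1]
    have := Nat.mul_le_mul_right (n ^ k).factorial he
    unfold Q0M
    omega
  have hdQ : n ^ k ≤ Q0M n (n ^ k) (n ^ k * (m * n)) := by unfold Q0M; omega
  have hmQ : n ^ k * (m * n) ≤ Q0M n (n ^ k) (n ^ k * (m * n)) := by unfold Q0M; omega
  have halgA := exists_algA H hw (hK _ (by unfold KM; omega)) T an q hqq hi0 hdQ hmQ hκ hqR hle
  refine ⟨Module.finrank ℚ kf, Dl, kapR (n ^ k) (n ^ k * (m * n)) pd1.e, pd1.e, MR pd1 a, XB pd a,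
    pd1.R, an, ?_, ?_, ?_, halgA, hdiag⟩
  · refine ⟨hD1, hD2, hDl, ?_, hκ, pd1.e_pos, ?_, pd1.R_ge, H.pow⟩
    · unfold kapR
      have h1 := pd1.e_pos
      have h2 : 0 < n ^ k := H.d1
      exact Nat.one_le_iff_ne_zero.2 (by positivity)
    · rw [he1]
      unfold Q0M
      omega
  · rw [hR1']
    exact g1
  · refine g5.trans (pow_le_pow_right₀ (by exact_mod_cast ha1) ?_)
    unfold Q0M
    omega

end Pool.Agent.H97.FC
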