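import Pool.Agent.H97.FB.LZX
import Pool.Agent.H97.FB.DTX
import Pool.Agent.H97.FC.Defs

/-! # [H97 FC BKM] Comparable points are special (helper87)

As `Pool/Agent/H97/FB/BK2.lean`, for `k` points. `K1` from `lin_zero k ν Q0` with the given `R1`;
`ν^k (K1 R1 + ν^2) ≤ A0`. Given `c0`: `δ' = 1 / (4 ν^k K1 R1 (c0 + 1))`, `c` large. `g` from `det_poly`. -/

namespace Pool.Agent.H97.FC

open Finset Polynomial Pool.Agent.H72.ES Pool.Agent.H87.SA Pool.Agent.H87.SA2 Pool.Agent.H87.AX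
  Pool.Agent.H8.AW Pool.Agent.H52.AC Pool.Agent.H97.NW Pool.Agent.H8.RZ Pool.Agent.H97.FB H4AR

private theorem bkm_pow {a x : ℝ} (ha : 1 ≤ a) (hx : 0 < x) (c0 : ℕ) (h : c0 * Real.log a ≤ Real.log x) :
    a ^ c0 ≤ x := by
  have ha0 : 0 < a := by linarith
  rw [← Real.log_pow] at h
  exact (Real.log_le_log_iff (pow_pos ha0 _) hx).1 h

private theorem bkm_abs {x : ℤ} (h : 0 < Real.log |(x : ℝ)|) : 0 < |(x : ℝ)| := by
  rw [abs_pos]
  intro h0
  rw [h0, abs_zero, Real.log_zero] at h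
  exact lt_irrefl _ h

/-- the logarithm of the norm -/
private theorem bkm_log {k : ℕ} {F B0 t u : ℝ} {b : Fin k → ℝ} (ν s : ℕ) (hF : 1 ≤ F) (hB : 1 ≤ B0)
    (hb : ∀ v, 1 ≤ b v) (hu : 1 ≤ u) :
    Real.log (F * (B0 * (Real.exp t * ∏ v, (u * b v) ^ ν)) ^ s) =
      Real.log F + s * (Real.log B0 + t + ν * (k * Real.log u + ∑ v, Real.log (b v))) := by
  have e1 : 0 < F := by linarith
  have e2 : 0 < B0 := by linarith
  have e5 : 0 < u := by linarith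
  have e6 := Real.exp_pos t
  have e3 : ∀ v, 0 < b v := fun v => by linarith [hb v]
  have e7 : 0 < ∏ v, (u * b v) ^ ν := prod_pos fun v _ => pow_pos (mul_pos e5 (e3 v)) _
  have e8 : Real.log (∏ v, (u * b v) ^ ν) = ν * (k * Real.log u + ∑ v, Real.log (b v)) := by
    rw [Real.log_prod (fun v _ => (pow_pos (mul_pos e5 (e3 v)) _).ne')]
    have : ∀ v ∈ (univ : Finset (Fin k)), Real.log ((u * b v) ^ ν) =
        ν * Real.log u + ν * Real.log (b v) := by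
      intro v _
      rw [Real.log_pow, Real.log_mul e5.ne' (e3 v).ne']
      ring
    rw [sum_congr rfl this, sum_add_distrib, sum_const, card_univ, Fintype.card_fin, ← mul_sum,
      nsmul_eq_mul]
    ring
  rw [Real.log_mul e1.ne' (by positivity), Real.log_pow, Real.log_mul e2.ne' (by positivity),
    Real.log_mul e6.ne' e7.ne', Real.log_exp, e8]
  ring

private theorem bkm_N {k ν : ℕ} (P : Fin k → Ptd ν) {Y K : ℝ} (v : Fin k) (hY0 : 0 ≤ Y)
    (hpos : 0 < (P v).ell) (h : Y ≤ K * (P v).ell) : (Nf P Y v : ℝ) ≤ K := by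
  have h1 : Nf P Y v ≤ Df P Y v := by
    have := (P v).C.d1
    unfold Nf
    omega
  have h2 : (Df P Y v : ℝ) ≤ Y / (P v).ell := Nat.floor_le (by positivity)
  have h3 : Y / (P v).ell ≤ K := by rwa [div_le_iff₀ hpos]
  have h4 : (Nf P Y v : ℝ) ≤ (Df P Y v : ℝ) := by exact_mod_cast h1
  linarith only [h2, h3, h4]

private theorem bkm_scl {k ν : ℕ} {X0 R : ℝ} (P : Fin k → Ptd ν) {c c' : ℕ} (hc : c ≤ c') (hR : 2 ≤ R)
    (h : Scl c' X0 R P) : Scl c X0 R P := by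
  have h1 : (1 : ℝ) ≤ 2 * R := by linarith
  have h2 : (2 * R) ^ c ≤ X0 := (pow_le_pow_right₀ h1 hc).trans h.RX
  have h3 : 1 ≤ X0 := (one_le_pow₀ h1).trans h.RX
  refine ⟨h2, fun v => Ptd.thr_mono _ hc (h.thr v), fun v => le_trans ?_ (h.low v)⟩
  have h4 : (c : ℝ) ≤ c' := by exact_mod_cast hc
  exact mul_le_mul_of_nonneg_right h4 (Real.log_nonneg h3)

theorem blkM (k ν Q0 : ℕ) (hk : 1 ≤ k) (hν : 4 ≤ ν) (γ : ℝ) (hγ : 0 < γ) (R1 : ℝ) (hR1 : 1 ≤ R1) :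
    ∃ A0 : ℕ, ∀ c0 : ℕ, ∃ c : ℕ,
    ∀ {Dn Dl κ e M : ℕ} {X0 R : ℝ} (an : AnchX Dn Dl κ e M X0 R) (P : Fin k → Ptd ν)
      (tu : TupX an P), Bnd Q0 Dn Dl κ e M X0 R → Scl c X0 R P →
      (1 + γ) * (((k : ℝ) + 1) ^ (k + 1) * (tu.PP.card : ℝ)) ≤
        ((k + 1).factorial : ℝ) * ((Dn : ℝ) * ∏ v, ((P v).d : ℝ)) →
      (∀ v w, (P v).ell ≤ R1 * (P w).ell) → SpcM A0 c0 fun v => (P v).x := by
  obtain ⟨K1, hK1, hlin⟩ := lin_zero k ν Q0 hk hν γ hγ R1 hR1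
  obtain ⟨A0, hA0⟩ : ∃ A0 : ℕ, (ν : ℝ) ^ k * (K1 * R1 + ν * ν) ≤ A0 := exists_nat_ge _
  refine ⟨A0, fun c0 => ?_⟩
  have hνR : (4 : ℝ) ≤ ν := by exact_mod_cast hν
  have hν1 : (1 : ℝ) ≤ ν := by linarith only [hνR]
  have hν0 : (0 : ℝ) < ν := by linarith only [hνR]
  have hK0 : 0 < K1 := by linarith only [hK1]
  have hR0 : 0 < R1 := by linarith only [hR1]
  have hc00 : (0 : ℝ) ≤ c0 := Nat.cast_nonneg _
  have hKR : 0 < K1 * R1 := mul_pos hK0 hR0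
  have hKR1 : 1 ≤ K1 * R1 := one_le_mul_of_one_le_of_one_le hK1 hR1
  obtain ⟨W, hW⟩ : ∃ W : ℝ, W = (ν : ℝ) ^ k := ⟨_, rfl⟩
  have hW0 : 0 < W := by rw [hW]; positivity
  obtain ⟨δ', hδ'⟩ : ∃ δ' : ℝ, δ' = 1 / (4 * W * (K1 * R1) * (c0 + 1)) := ⟨_, rfl⟩
  have hδ0 : 0 < δ' := by rw [hδ']; positivity
  have hδ1 : δ' * (4 * W * (K1 * R1) * (c0 + 1)) = 1 := by
    rw [hδ']
    field_simp
  obtain ⟨c1, hc1, hl⟩ := hlin δ' hδ0
  have hl20 : 0 < Real.log 2 := Real.log_pos (by norm_num)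
  -- the constants
  obtain ⟨F, hF⟩ : ∃ F : ℝ, F = ((ν ^ k).factorial : ℝ) := ⟨_, rfl⟩
  have hF1 : 1 ≤ F := by
    rw [hF]
    exact_mod_cast Nat.factorial_pos _
  obtain ⟨B0, hB0⟩ : ∃ B0 : ℝ, B0 = (K1 * R1 * ν) ^ k := ⟨_, rfl⟩
  have hKν : 1 ≤ K1 * R1 * ν := one_le_mul_of_one_le_of_one_le hKR1 hν1
  have hB01 : 1 ≤ B0 := by
    rw [hB0]
    exact one_le_pow₀ hKν
  obtain ⟨u, hu⟩ : ∃ u : ℝ, u = (((ν + 1) ^ 2 : ℕ) : ℝ) := ⟨_, rfl⟩
  have hu1 : 1 ≤ u := by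
    rw [hu]
    exact_mod_cast Nat.one_le_pow _ _ (by omega)
  obtain ⟨C1, hC1⟩ : ∃ C1 : ℝ, C1 = c0 * (Real.log F + W * (Real.log B0 +
    ν * (k * Real.log u))) := ⟨_, rfl⟩
  have hC10 : 0 ≤ C1 := by
    have h1 := Real.log_nonneg hF1
    have h2 := Real.log_nonneg hB01
    have h3 := Real.log_nonneg hu1
    rw [hC1]
    positivity
  obtain ⟨c2, hc2⟩ := exists_nat_ge (4 * C1 / Real.log 2 + 4 * (c0 * (W * ν) * (k * R1)))
  have q1 : 0 ≤ 4 * C1 / Real.log 2 := by positivity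
  have q2 : 0 ≤ 4 * (c0 * (W * ν) * (k * R1)) := by positivity
  refine ⟨c1 + c2 + 1, ?_⟩
  intro Dn Dl κ e M X0 R an P tu hBnd hScl hcard hrat
  have hT : ∀ v, (P v).Thr (c1 + c2 + 1) := hScl.thr
  have hTA : ∀ v, (P v).Thr (cA ν) := fun v => Ptd.thr_mono _ (by omega) (hT v)
  obtain ⟨c, hc⟩ : ∃ c : ℝ, c = ((c1 + c2 + 1 : ℕ) : ℝ) := ⟨_, rfl⟩
  have hcc2 : (c2 : ℝ) ≤ c := by
    rw [hc]
    exact_mod_cast (by omega : c2 ≤ c1 + c2 + 1)
  have hc1' : (1 : ℝ) ≤ c := by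
    rw [hc]
    exact_mod_cast (by omega : 1 ≤ c1 + c2 + 1)
  have hellb : ∀ v, c * Real.log (P v).b ≤ (P v).ell := fun v => by
    rw [hc]
    exact (Ptd.ell_ge _ (hT v)).1
  have hell : ∀ v, c * Real.log 2 ≤ (P v).ell := fun v => by
    rw [hc]
    exact (Ptd.ell_ge _ (hT v)).2
  have hcl0 : 0 < c * Real.log 2 := by positivity
  have hpos : ∀ v, 0 < (P v).ell := fun v => lt_of_lt_of_le hcl0 (hell v)
  obtain ⟨Y, f, hY, hf0, hfA, hfz⟩ := hl an P tu hBnd (bkm_scl P (by omega) hBnd.R2 hScl)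
    hcard hrat
  have v0 : Fin k := ⟨0, by omega⟩
  have hY0 : 0 < Y := lt_of_lt_of_le (mul_pos hK0 (hpos v0)) (hY v0).1
  have hZ1 : 1 ≤ Real.exp (δ' * Y) := Real.one_le_exp (mul_nonneg hδ0.le hY0.le)
  obtain ⟨g, hg, hgd, hge, hgl⟩ := det_poly hk hν P hTA (Nf P Y) f hf0 hfz hZ1 hfA
  have hN : ∀ v, (Nf P Y v : ℝ) ≤ K1 * R1 := fun v => bkm_N P v hY0.le (hpos v) (hY v).2
  have hg1 : 1 ≤ l1 g := one_le_l1 hg
  -- the bound for the logarithm of the norm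
  have hb1 : ∀ v, (1 : ℝ) ≤ (P v).b := fun v => by
    have := (P v).C.b2
    exact_mod_cast (by omega : 1 ≤ (P v).b)
  have hl1 : l1 g ≤ F * (B0 * (Real.exp (δ' * Y) * ∏ v, (u * (P v).b) ^ ν)) ^ (ν ^ k) := by
    refine hgl.trans ?_
    rw [← hF]
    have e1 : ((∏ v, (Nf P Y v * ν) : ℕ) : ℝ) ≤ B0 := by
      rw [hB0]
      push_cast
      calc ∏ v, ((Nf P Y v : ℝ) * ν) ≤ ∏ _v : Fin k, (K1 * R1 * ν) := by
            refine prod_le_prod (fun v _ => by positivity) fun v _ => ?_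
            exact mul_le_mul_of_nonneg_right (hN v) hν0.le
        _ = (K1 * R1 * ν) ^ k := by rw [prod_const, card_univ, Fintype.card_fin]
    have e2 : ∏ v, (((ν + 1) ^ 2 * (P v).b : ℕ) : ℝ) ^ ν = ∏ v, (u * (P v).b) ^ ν := by
      refine prod_congr rfl fun v _ => ?_
      rw [hu]
      push_cast
      ring
    rw [e2]
    have e5 : 0 ≤ ∏ v, (u * ((P v).b : ℝ)) ^ ν :=
      prod_nonneg fun v _ => pow_nonneg (mul_nonneg (by linarith) (by linarith [hb1 v])) _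
    have e6 : (0 : ℝ) ≤ ((∏ v, (Nf P Y v * ν) : ℕ) : ℝ) := Nat.cast_nonneg _
    gcongr
  have hlog : Real.log (l1 g) ≤ Real.log F + W * (Real.log B0 + δ' * Y +
      ν * (k * Real.log u + ∑ w, Real.log (P w).b)) := by
    have h1 := Real.log_le_log (by linarith only [hg1]) hl1
    rw [bkm_log ν (ν ^ k) hF1 hB01 hb1 hu1] at h1
    push_cast at h1
    rw [hW]
    exact h1
  have key : ∀ v, l1 g ^ c0 ≤ |(((P v).x : ℤ) : ℝ)| := by
    intro v
    have hp : 0 < Real.log |(((P v).x : ℤ) : ℝ)| := hpos v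
    refine bkm_pow hg1 (bkm_abs hp) c0 ?_
    have s0 : (P v).ell = Real.log |(((P v).x : ℤ) : ℝ)| := rfl
    rw [← s0]
    have s1 := mul_le_mul_of_nonneg_left hlog hc00
    -- the constant
    have s2 : C1 ≤ (P v).ell / 4 := by
      have t1 : 4 * C1 / Real.log 2 ≤ c := by linarith only [hc2, q1, q2, hcc2]
      rw [div_le_iff₀ hl20] at t1
      have t2 := hell v
      linarith only [t1, t2]
    -- the coefficients
    have s3 : c0 * (W * (δ' * Y)) ≤ (P v).ell / 4 := by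
      have t1 := (hY v).2
      have t2 : c0 * (W * (δ' * Y)) ≤ (c0 + 1) * (W * (δ' * (K1 * R1 * (P v).ell))) := by
        have := hpos v
        gcongr
        linarith only [hc00]
      have t3 : (c0 + 1) * (W * (δ' * (K1 * R1 * (P v).ell))) =
          (δ' * (4 * W * (K1 * R1) * (c0 + 1))) * ((P v).ell / 4) := by ring
      rw [t3, hδ1, one_mul] at t2
      exact t2
    -- the constants of the curves
    have s4 : c0 * (W * (ν * ∑ w, Real.log (P w).b)) ≤ (P v).ell / 4 := by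
      have t1 : ∀ w, c * Real.log (P w).b ≤ R1 * (P v).ell := fun w => (hellb w).trans (hrat w v)
      have t2 : c * (∑ w, Real.log (P w).b) ≤ k * (R1 * (P v).ell) := by
        rw [mul_sum]
        refine (sum_le_sum fun w _ => t1 w).trans (le_of_eq ?_)
        rw [sum_const, card_univ, Fintype.card_fin, nsmul_eq_mul]
      have t3 : c * (c0 * (W * (ν * ∑ w, Real.log (P w).b))) ≤ c * ((P v).ell / 4) := by
        have a1 : (0 : ℝ) ≤ c0 * (W * ν) := by positivity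
        have a2 := mul_le_mul_of_nonneg_left t2 a1
        have a3 : 4 * (c0 * (W * ν) * (k * R1)) ≤ c := by linarith only [hc2, q1, q2, hcc2]
        have a4 := mul_le_mul_of_nonneg_right a3 (hpos v).le
        have a5 : c * (c0 * (W * (ν * ∑ w, Real.log (P w).b))) =
          c0 * (W * ν) * (c * (∑ w, Real.log (P w).b)) := by ring
        rw [a5]
        linarith only [a2, a4]
      exact le_of_mul_le_mul_left t3 (by linarith only [hc1'])
    have s5 : c0 * (Real.log F + W * (Real.log B0 + δ' * Y +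
      ν * (k * Real.log u + ∑ w, Real.log (P w).b))) = C1 +
        c0 * (W * (δ' * Y)) + c0 * (W * (ν * ∑ w, Real.log (P w).b)) := by
      rw [hC1]
      ring
    have s6 := hpos v
    linarith only [s1, s2, s3, s4, s5, s6]
  refine ⟨g, hg, fun v => ?_, key, hge⟩
  have h1 : (g.degreeOf v : ℝ) ≤ (ν : ℝ) ^ k * ((Nf P Y v : ℝ) + ν * ν) := by
    exact_mod_cast hgd v
  have h2 : (ν : ℝ) ^ k * ((Nf P Y v : ℝ) + ν * ν) ≤ (ν : ℝ) ^ k * (K1 * R1 + ν * ν) := by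
    have := hN v
    gcongr
  exact_mod_cast (h1.trans h2).trans hA0

end Pool.Agent.H97.FC
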