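import Pool.Agent.H5.CQ.Fin

/-! # [H97 FC CLM] Cliques over fields of any bounded degree (helper5)

The proof is in the folder `Pool/Agent/H5/CQ` (`H5CQ.clqD`). -/

namespace Pool.Agent.H97.FC

open Finset Polynomial Pool.Agent.H72.ES Pool.Agent.H87.SA Pool.Agent.H87.SA2 Pool.Agent.H97.FB

theorem cliquesM (n m D : ℕ) : ∃ J0 C : ℕ, ∀ (B : ℕ) (f : ℤ[X][X]) (_ : FamB n m B f) (X0 : ℕ),
    B ^ C ≤ X0 → ∀ (k : Type) [Field k] [NumberField k], Module.finrank ℚ k ≤ D →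
    ∀ S : Finset ℕ, (∀ a ∈ S, X0 ≤ a ∧ (a - X0) ^ C ≤ X0) →
      (∀ a ∈ S, ¬ Irreducible ((fa f a).map (algebraMap ℤ k))) → S.card ≤ J0 :=
  H5CQ.clqD n m D

end Pool.Agent.H97.FC
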