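import Mathlib

/-! # [H97 FC CMB] Far points or a cluster

Induction on `r` (generalize `S`). `r = 0`: `s` is the empty function. Step `r + 1`: `S` is not empty (`1 ≤ M ≤ (r+1) M ≤ card S`), `a0 ∈ S` with `ℓ a0` minimal (`Finset.exists_min_image`). `T0 = S.filter fun b => b = a0 ∨ ℓ b < R1 * ℓ a0`. If `M ≤ T0.card`: `T ⊆ T0` with `card = M` (`Finset.exists_subset_card_eq`); for `a, b ∈ T`: `ℓ a ≤ R1 ℓ a0 ≤ R1 ℓ b`
(`a = a0`: `ℓ a0 ≤ R1 ℓ a0` as `1 ≤ R1`, `0 < ℓ`). Otherwise `S \ T0` has at least `r M` elements; the induction hypothesis for it: the cluster case is done (`S \ T0 ⊆ S`); the far case gives `s`; take `Fin.cons a0 s`: `R1 ℓ a0 ≤ ℓ (s j)` since `s j ∉ T0`; injective since `a0 ∈ T0`, `s j ∉ T0` (`Fin.cons_injective_iff`). -/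

namespace Pool.Agent.H97.FC

open Finset

theorem far_or_cluster {α : Type} [DecidableEq α] (ℓ : α → ℝ) (R1 : ℝ) (hR1 : 1 ≤ R1) (M : ℕ)
    (hM : 1 ≤ M) (r : ℕ) (S : Finset α) (hpos : ∀ a ∈ S, 0 < ℓ a) (hS : r * M ≤ S.card) :
    (∃ s : Fin r → α, Function.Injective s ∧ (∀ i, s i ∈ S) ∧
      ∀ i j, i < j → R1 * ℓ (s i) ≤ ℓ (s j)) ∨
    ∃ T ⊆ S, T.card = M ∧ ∀ a ∈ T, ∀ b ∈ T, ℓ a ≤ R1 * ℓ b := by
  classical
  induction r generalizing S with
  | zero =>
    left
    exact ⟨fun i => i.elim0, fun a => a.elim0, fun i => i.elim0, fun i => i.elim0⟩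
  | succ r ih =>
    have h1 : (r + 1) * M = r * M + M := by ring
    have hne : S.Nonempty := by
      rw [← Finset.card_pos]
      have h2 : 0 ≤ r * M := Nat.zero_le _
      omega
    obtain ⟨a0, ha0, hmin⟩ := S.exists_min_image ℓ hne
    obtain ⟨T0, hT0⟩ : ∃ T0 : Finset α, T0 = S.filter fun b => b = a0 ∨ ℓ b < R1 * ℓ a0 :=
      ⟨_, rfl⟩
    have hT0S : T0 ⊆ S := by
      rw [hT0]
      exact Finset.filter_subset _ _
    have ha0T : a0 ∈ T0 := by
      rw [hT0, Finset.mem_filter]
      exact ⟨ha0, Or.inl rfl⟩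
    have hpos0 := hpos a0 ha0
    by_cases hM0 : M ≤ T0.card
    · right
      obtain ⟨T, hT, hTc⟩ := Finset.exists_subset_card_eq hM0
      refine ⟨T, hT.trans hT0S, hTc, ?_⟩
      intro a ha b hb
      have ha' := hT ha
      rw [hT0, Finset.mem_filter] at ha'
      have hb' := hmin b (hT0S (hT hb))
      have h3 : ℓ a ≤ R1 * ℓ a0 := by
        rcases ha'.2 with h | h
        · rw [h]
          nlinarith
        · exact h.le
      exact h3.trans (mul_le_mul_of_nonneg_left hb' (by linarith))
    · have hM1 : T0.card < M := not_le.1 hM0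
      have hcard : r * M ≤ (S \ T0).card := by
        have h2 := Finset.card_sdiff_add_card_eq_card hT0S
        omega
      rcases ih (S \ T0) (fun a ha => hpos a (Finset.mem_sdiff.1 ha).1) hcard with
        ⟨s, hs1, hs2, hs3⟩ | ⟨T, hT1, hT2, hT3⟩
      · left
        refine ⟨Fin.cons a0 s, ?_, ?_, ?_⟩
        · rw [Fin.cons_injective_iff]
          refine ⟨?_, hs1⟩
          rintro ⟨i, hi⟩
          have h2 := (Finset.mem_sdiff.1 (hs2 i)).2
          rw [hi] at h2
          exact h2 ha0T
        · intro i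
          refine Fin.cases ?_ (fun j => ?_) i
          · rw [Fin.cons_zero]
            exact ha0
          · rw [Fin.cons_succ]
            exact (Finset.mem_sdiff.1 (hs2 j)).1
        · intro i j
          refine Fin.cases ?_ (fun j => ?_) j
          · intro h
            exact absurd h (Fin.not_lt_zero i)
          · refine Fin.cases ?_ (fun i => ?_) i
            · intro _
              rw [Fin.cons_zero, Fin.cons_succ]
              have h2 := Finset.mem_sdiff.1 (hs2 j)
              by_contra h3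
              apply h2.2
              rw [hT0, Finset.mem_filter]
              exact ⟨h2.1, Or.inr (not_le.1 h3)⟩
            · intro h
              rw [Fin.cons_succ, Fin.cons_succ]
              exact hs3 i j (Fin.succ_lt_succ_iff.1 h)
      · right
        exact ⟨T, hT1.trans Finset.sdiff_subset, hT2, hT3⟩

end Pool.Agent.H97.FC
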