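import Pool.Agent.H98.FK.FCK
import Pool.Agent.H98.FF.INT

/-!
# [H97 FC FRM] `k` points of lacunary heights are impossible (helper98)
-/

namespace Pool.Agent.H97.FC

open Finset Polynomial Pool.Agent.H72.ES Pool.Agent.H87.SA Pool.Agent.H87.SA2 Pool.Agent.H87.AX
  Pool.Agent.H8.AW Pool.Agent.H52.AC Pool.Agent.H97.NW Pool.Agent.H8.RZ Pool.Agent.H97.FB
  Pool.Agent.H98.FF Pool.Agent.H98.FK

theorem scl_monok {k c c' : ℕ} (hc : c' ≤ c) {X0 R : ℝ} {n : ℕ} {P : Fin k → Ptd n} (hR : 2 ≤ R)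
    (hX : 1 ≤ X0) (h : Scl c X0 R P) : Scl c' X0 R P where
  RX := (pow_le_pow_right₀ (by linarith) hc).trans h.RX
  thr := fun v => (P v).thr_mono hc (h.thr v)
  low := fun v => by
    refine le_trans (mul_le_mul_of_nonneg_right ?_ (Real.log_nonneg hX)) (h.low v)
    exact_mod_cast hc

theorem farM (k ν Q0 : ℕ) (hk : 1 ≤ k) (hν : 4 ≤ ν) (γ : ℝ) (hγ : 0 < γ) :
    ∃ (R1 : ℝ) (c : ℕ), 1 ≤ R1 ∧
    ∀ {Dn Dl κ e M : ℕ} {X0 R : ℝ} (an : AnchX Dn Dl κ e M X0 R) (_ : AlgA an Q0)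
      (P : Fin k → Ptd ν) (tu : TupX an P), Bnd Q0 Dn Dl κ e M X0 R → Scl c X0 R P →
      (1 + γ) * (((k : ℝ) + 1) ^ (k + 1) * (tu.PP.card : ℝ)) ≤
        ((k + 1).factorial : ℝ) * ((Dn : ℝ) * ∏ v, ((P v).d : ℝ)) →
      (∀ i j : Fin k, i < j → R1 * (P i).ell ≤ (P j).ell) → False := by
  obtain ⟨τ, K0, hτ, hK0, hz⟩ := zeroX k ν Q0 hk hν γ hγ
  have hB : 1 ≤ BQ Q0 := by
    unfold BQ
    exact Nat.one_le_pow _ _ (by omega)
  obtain ⟨R1, K1, δ, c1, hR1, hK01, hK11, hδ, hc1A, hfar⟩ :=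
    far_corek k ν Q0 (BQ Q0) (1 + BQ Q0 * (Q0 * Q0 + 1)) hk hν hB τ K0 hτ
  obtain ⟨c2, hc2A, hz2⟩ := hz δ hδ
  refine ⟨R1, max (max c1 c2) (max (CQ Q0) 3), hR1, ?_⟩
  intro Dn Dl κ e M X0 R an al P tu hb hscl hcount hsep
  have hR2 := hb.R2
  set c : ℕ := max (max c1 c2) (max (CQ Q0) 3) with hc
  have hX1 : 1 ≤ X0 := le_trans (one_le_pow₀ (by linarith)) hscl.RX
  have h1 : c1 ≤ c := (le_max_left _ _).trans (le_max_left _ _)
  have h2 : c2 ≤ c := (le_max_right _ _).trans (le_max_left _ _)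
  have h3 : CQ Q0 ≤ c := (le_max_left _ _).trans (le_max_right _ _)
  have hscl1 := scl_monok h1 hR2 hX1 hscl
  have hscl2 := scl_monok h2 hR2 hX1 hscl
  obtain ⟨ia⟩ := exists_intA Q0 an al hb ((pow_le_pow_right₀ (by linarith) h3).trans hscl.RX)
  have hell0 : ∀ v, 0 < (P v).ell := by
    intro v
    have h4 := ((P v).ell_ge (hscl2.thr v)).2
    have h5 : 1 ≤ c2 := by
      refine le_trans ?_ hc2A
      unfold cA
      exact Nat.one_le_iff_ne_zero.2 (by positivity)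
    have h6 : (1 : ℝ) ≤ c2 := by exact_mod_cast h5
    have h7 : 0 < Real.log 2 := Real.log_pos (by norm_num)
    exact lt_of_lt_of_le (by positivity) h4
  obtain ⟨i0, hi0⟩ : ∃ i0 : Fin k, ∀ v : Fin k, v ≠ i0 → v < i0 := by
    refine ⟨⟨k - 1, by omega⟩, fun v hv => ?_⟩
    rw [Fin.lt_def]
    have h1 : (v : ℕ) ≠ k - 1 := fun h => hv (Fin.ext h)
    have h2 := v.2
    show (v : ℕ) < k - 1
    omega
  have hmax : ∀ v, (P v).ell ≤ (P i0).ell := by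
    intro v
    rcases eq_or_ne v i0 with h | h
    · rw [h]
    · exact (le_mul_of_one_le_left (hell0 v).le hR1).trans (hsep v i0 (hi0 v h))
  obtain ⟨A, hNZ, hA, hvan⟩ := hz2 an P tu hb hscl2 hcount
    (K1 * (P i0).ell) (fun v => mul_le_mul hK01 (hmax v) (hell0 v).le (by linarith))
  exact hfar an ia P hb hscl1 al.qR hsep i0 hmax _ rfl A hNZ hA hvan

end Pool.Agent.H97.FC
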