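import Pool.Agent.H97.FC.RDM
import Pool.Agent.H97.FB.WIN

/-! # [H97 FC GDF] Good polynomials

`Gd d c C g`: `g` is monic and irreducible over `ℚ`, of degree `≥ 3`, and no pointed curve above the
threshold `c` whose near branch carries a root of `g` has `ell ≥ C log G`, `G` a bound for `g`.
`exists_rts`: `g` irreducible over `ℚ`, so separable over `ℂ` (`Irreducible.separable`, `Separable.map`), it splits over `ℂ` (`IsAlgClosed.splits`), `g.map = ∏` over the roots (`Polynomial.Splits.eq_prod_roots..`, `Monic`), the roots are distinct (`nodup_roots`), enumerate them: `Multiset` / `Finset` of the roots of cardinality `natDegree`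
(`Finset.equivFin` / `Fintype`); see `thA_rts` or any similar lemma in `Pool/Agent`.
`lbG_perm`: both lists are the roots of `g`: for `i` there is `j` with `θ' j = θ i` (`θ i` is a root of the product); `choose π`. `L' = ⟨L.S, π ∘ L.th, L.mem, rfl, ..⟩` with `l' = π (L.th P.i)`; `gal`: `v1 θ' (π (th i)) u = θ (th i)`, rewrite; `rot`: `congrArg π`.
`good_eff`: `C = max (cR d * c * (2 d + 3)) ((2 d + 3) * C1)`. Suppose `(G H)^C < max`. `H ^ (cR d * c * (2d+3)) ≤ (G H)^C`, so `redM` (`G := {g | ..}`, `2 ≤ natDegree`) gives `P, g`; `exists_rts`, the label `l0`, `Gd`: `P.ell < C1 log G` (for the bound `G` itself). `max ≤ |P.x|^(2d+3)`, so `log max ≤ (2d+3) ell < (2d+3) C1 log G ≤ C log (G H)`: contradiction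
(`ell = log |P.x|`; `0 < max`). Model: `wn3_data` in `FC/WN3.lean` / the last part of `FC/WNM.lean`. -/

namespace Pool.Agent.H97.FC

open Finset Polynomial Pool.Agent.H72.ES Pool.Agent.H87.SA Pool.Agent.H87.SA2 Pool.Agent.H87.AX
  Pool.Agent.H8.AW Pool.Agent.H52.AC Pool.Agent.H97.NW Pool.Agent.H34.AC Pool.Agent.H97.FB

/-- a good polynomial -/
def Gd (d c C : ℕ) (g : ℤ[X]) : Prop :=
  g.Monic ∧ Irreducible (g.map (Int.castRingHom ℚ)) ∧ 3 ≤ g.natDegree ∧
    ∀ G : ℕ, 2 ≤ G → (∀ i, |g.coeff i| ≤ (G : ℤ)) → ∀ (n : ℕ) (θ : Fin n → ℂ), Rts g θ →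
      ∀ (P : Ptd (d * (d + 1))) (l : Fin n), Nonempty (LbG P (v1 θ) l) → P.Thr c →
        P.ell < C * Real.log G

theorem exists_rts {g : ℤ[X]} (hm : g.Monic) (hirr : Irreducible (g.map (Int.castRingHom ℚ))) :
    ∃ θ : Fin g.natDegree → ℂ, Rts g θ := by
  classical
  have hc : g.map (Int.castRingHom ℂ) = (g.map (Int.castRingHom ℚ)).map (algebraMap ℚ ℂ) := by
    rw [Polynomial.map_map]
    congr 1
  have hm' : (g.map (Int.castRingHom ℂ)).Monic := hm.map _
  have hsep : (g.map (Int.castRingHom ℂ)).Separable := by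
    rw [hc]
    exact hirr.separable.map
  have hnd : (g.map (Int.castRingHom ℂ)).roots.Nodup := nodup_roots hsep
  have hsp : (g.map (Int.castRingHom ℂ)).Splits := IsAlgClosed.splits _
  have hprod := hsp.eq_prod_roots_of_monic hm'
  have hcard : (g.map (Int.castRingHom ℂ)).roots.card = g.natDegree := by
    rw [← hsp.natDegree_eq_card_roots, hm.natDegree_map]
  have hL : ∃ L : List ℂ, (L : Multiset ℂ) = (g.map (Int.castRingHom ℂ)).roots :=
    Quot.exists_rep _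
  obtain ⟨L, hL⟩ := hL
  have hlen : L.length = g.natDegree := by
    rw [← hcard, ← hL]
    rfl
  refine ⟨fun i => L.get (Fin.cast hlen.symm i), ?_, ?_⟩
  · rw [hprod, ← hL, Multiset.map_coe, Multiset.prod_coe]
    have h1 := Fintype.prod_equiv (finCongr hlen.symm)
      (fun i => X - C (L.get (Fin.cast hlen.symm i)))
      (fun i => X - C (L.get i)) (fun i => rfl)
    rw [h1]
    exact (Fin.prod_univ_fun_getElem L fun a => X - C a).symm
  · intro i j h
    have h2 : L.Nodup := by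
      rw [← Multiset.coe_nodup, hL]
      exact hnd
    have h3 := (List.Nodup.get_inj_iff h2).1 h
    exact Fin.cast_injective _ h3

theorem lbG_perm {ν n n' : ℕ} {g : ℤ[X]} {θ : Fin n → ℂ} {θ' : Fin n' → ℂ} (h : Rts g θ)
    (h' : Rts g θ') (P : Ptd ν) (l : Fin n) (L : LbG P (v1 θ) l) :
    ∃ l' : Fin n', Nonempty (LbG P (v1 θ') l') := by
  have hj : ∀ i : Fin n, ∃ j : Fin n', θ' j = θ i := by
    intro i
    have h1 : (∏ j, (X - C (θ' j))).eval (θ i) = 0 := by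
      rw [← h'.1, h.1, eval_prod]
      exact Finset.prod_eq_zero (Finset.mem_univ i) (by simp)
    rw [eval_prod, Finset.prod_eq_zero_iff] at h1
    obtain ⟨j, -, hj⟩ := h1
    refine ⟨j, ?_⟩
    rw [eval_sub, eval_X, eval_C, sub_eq_zero] at hj
    exact hj.symm
  choose π hπ using hj
  refine ⟨π l, ⟨⟨L.S, fun i => π (L.th i), L.mem, ?_, ?_, ?_⟩⟩⟩
  · show π (L.th P.i) = π l
    rw [L.near]
  · intro σ i hi j hc
    obtain ⟨h1, h2⟩ := L.gal σ i hi j hc
    refine ⟨h1, fun u => ?_⟩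
    have h3 := h2 u
    unfold v1 at h3 ⊢
    rw [hπ, hπ]
    exact h3
  · intro ζ hζ i hi j hc
    obtain ⟨h1, h2⟩ := L.rot ζ hζ i hi j hc
    exact ⟨h1, congrArg π h2⟩

theorem good_eff (d c C1 : ℕ) (hd : 3 ≤ d) (hc : cA (d * (d + 1)) ≤ c) : ∃ C : ℕ, 1 ≤ C ∧
    ∀ F : MvPolynomial (Fin 2) ℤ, Irreducible (MvPolynomial.map (Int.castRingHom ℚ) F) →
    F.totalDegree ≤ d → ∀ G : ℕ, 2 ≤ G → INs {g | Gd d c C1 g ∧ ∀ i, |g.coeff i| ≤ (G : ℤ)} F →
    ∀ H : ℕ, 2 ≤ H → (∀ e, |F.coeff e| ≤ (H : ℤ)) →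
    ∀ x y : ℤ, vl F x y = 0 → max x.natAbs y.natAbs ≤ (G * H) ^ C := by
  obtain ⟨C, hCd⟩ : ∃ C, C = cR d * c * (2 * d + 3) + (2 * d + 3) * C1 + 1 := ⟨_, rfl⟩
  have hCa : cR d * c * (2 * d + 3) ≤ C := by rw [hCd]; omega
  have hCb : (2 * d + 3) * C1 ≤ C := by rw [hCd]; omega
  have hCc : 1 ≤ C := by rw [hCd]; omega
  clear hCd
  refine ⟨C, hCc, fun F hF hdeg G hG hinf H hH2 hH x y h0 => ?_⟩
  by_contra hbig
  rw [not_le] at hbig
  have haH : 1 ≤ G * H := Nat.mul_pos (by omega) (by omega)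
  have h1 : H ^ (cR d * c * (2 * d + 3)) ≤ (G * H) ^ C :=
    (Nat.pow_le_pow_left (Nat.le_mul_of_pos_left H (by omega)) _).trans
      (Nat.pow_le_pow_right haH hCa)
  obtain ⟨P, g, hg, hT, hx, hL⟩ := redM d hd c hc {g | Gd d c C1 g ∧ ∀ i, |g.coeff i| ≤ (G : ℤ)}
    (fun g hg => ⟨hg.1.1, hg.1.2.1, by have := hg.1.2.2.1; omega⟩) F hF hdeg hinf H hH2 hH x y h0
    (h1.trans_lt hbig)
  obtain ⟨⟨hgm, hgi, hg3, hgd⟩, hgc⟩ := hg
  obtain ⟨θ, hθ⟩ := exists_rts hgm hgi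
  obtain ⟨l0, hl0⟩ := hL _ θ hθ
  have hell := hgd G hG hgc _ θ hθ P l0 hl0 hT
  have har : (1 : ℝ) ≤ G := by exact_mod_cast (by omega : 1 ≤ G)
  have hHr : (1 : ℝ) ≤ H := by exact_mod_cast (by omega : 1 ≤ H)
  have hla : 0 ≤ Real.log G := Real.log_nonneg har
  have h2 : ((G : ℝ) * H) ^ C < |(P.x : ℝ)| ^ (2 * d + 3) := by
    refine lt_of_lt_of_le ?_ hx
    exact_mod_cast hbig
  have h3 : (0 : ℝ) < (G : ℝ) * H := by positivity
  have h4 := Real.log_le_log (pow_pos h3 C) h2.le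
  rw [Real.log_pow, Real.log_pow, Real.log_mul (by positivity) (by positivity)] at h4
  have h5 : 0 ≤ Real.log H := Real.log_nonneg hHr
  have h6 : (((2 * d + 3) * C1 : ℕ) : ℝ) * Real.log G ≤ (C : ℝ) * Real.log G :=
    mul_le_mul_of_nonneg_right (by exact_mod_cast hCb) hla
  have h7 : (0 : ℝ) ≤ (C : ℝ) * Real.log H := by positivity
  have h8 : (((2 * d + 3 : ℕ) : ℝ)) * (C1 * Real.log G) ≤ ((2 * d + 3 : ℕ) : ℝ) * P.ell := by
    unfold Ptd.ell
    push_cast at h6 h4 ⊢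
    nlinarith
  have h9 := le_of_mul_le_mul_left h8 (by positivity)
  exact absurd hell (not_lt.2 h9)

end Pool.Agent.H97.FC
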