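import Pool.Agent.H97.FC.GDW
import Pool.Agent.H97.FB.MON
import Pool.Agent.H97.FB.FMB

/-! # [H97 FC GDG] Good polynomials which need not be monic; the windows of arbitrary families

`Gg N d c C g`: `g` has degree between `3` and `N` and its monic form `g1`, `g1 (l Z) = l^(n-1) g(Z)`, `l` the leading coefficient of `g`, is good.
`gg_eff`: `C` from `good_eff`, times `N + 1`. Let `F` carry members of `{g | Gg N d c C1 g ∧ |g.coeff i| ≤ G}`. Then `F` carries members of `{g1 | Gd d c C1 g1 ∧ |g1.coeff i| ≤ G^N}`: if `θ ∈ K` is a root of `g`, `l θ` is a root of `g1` (as in `mo_ing`, `FB/MON.lean`: apply `aeval θ` to the relation). Coefficients: compare the coefficient of `Z^i` in `g1.comp (C l * X) = C (l^(n-1)) * g`: `g1_i l^i = l^(n-1) g_i`, `l ≠ 0`: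
for `i ≤ n - 1` `g1_i = l^(n-1-i) g_i`, `|g1_i| ≤ G^(n-1-i) G ≤ G^n ≤ G^N` (`|l| ≤ G`, `1 ≤ G`); `i ≥ n`: `g1` is monic of degree `n` (degree of the composition: `g1.natDegree = g.natDegree` from `natDegree_comp`, `l ≠ 0`), so `g1_i ∈ {0, 1}`. `good_eff` with `G^N` (`2 ≤ G^N`): `(G^N H)^C ≤ (G H)^((N+1) C)`.
`window_gg`: model `Pool/Agent/H97/FC/WG3.lean` (the same with `windowM`/`window3` replaced by `window_good`). `mo n f` (`FB/MON.lean`) has the hypotheses of `exists_famB n m` with `B1 = ((m+1) B)^n`, `FamB n m B' (mo n f)`, `B' ≤ B1^c1`; for `a` in the window `l(a) = (f.coeff n).eval a ≠ 0` (`mo_nz`), `(fa (mo n f) a).comp (C l * X) = C (l^(n-1)) * fa f a` (`fa_rel` is private in `FB/MON.lean`: copy its proof, it is 3 lines),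
`(fa f a).leadingCoeff = l(a)`, `natDegree = n` (`f.natDegree = n`, `l(a) ≠ 0`): so `¬ Gg N d c C' (fa f a)` implies `¬ Gd d c C' (fa (mo n f) a)` (`n ≤ N`). -/

/-! # [H97 FC GDG] Good polynomials which need not be monic; the windows of arbitrary families

`Gg N d c C g`: `g` has degree between `3` and `N` and its monic form `g1`, `g1 (l Z) = l^(n-1) g(Z)`, `l` the leading coefficient of `g`, is good.
`gg_eff`: `C` from `good_eff`, times `N + 1`. Let `F` carry members of `{g | Gg N d c C1 g ∧ |g.coeff i| ≤ G}`. Then `F` carries members of `{g1 | Gd d c C1 g1 ∧ |g1.coeff i| ≤ G^N}`: if `θ ∈ K` is a root of `g`, `l θ` is a root of `g1` (as in `mo_ing`, `FB/MON.lean`: apply `aeval θ` to the relation). Coefficients: compare the coefficient of `Z^i` in `g1.comp (C l * X) = C (l^(n-1)) * g`: `g1_i l^i = l^(n-1) g_i`, `l ≠ 0`: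
for `i ≤ n - 1` `g1_i = l^(n-1-i) g_i`, `|g1_i| ≤ G^(n-1-i) G ≤ G^n ≤ G^N` (`|l| ≤ G`, `1 ≤ G`); `i ≥ n`: `g1` is monic of degree `n` (degree of the composition: `g1.natDegree = g.natDegree` from `natDegree_comp`, `l ≠ 0`), so `g1_i ∈ {0, 1}`. `good_eff` with `G^N` (`2 ≤ G^N`): `(G^N H)^C ≤ (G H)^((N+1) C)`.
`window_gg`: model `Pool/Agent/H97/FC/WG3.lean` (the same with `windowM`/`window3` replaced by `window_good`). `mo n f` (`FB/MON.lean`) has the hypotheses of `exists_famB n m` with `B1 = ((m+1) B)^n`, `FamB n m B' (mo n f)`, `B' ≤ B1^c1`; for `a` in the window `l(a) = (f.coeff n).eval a ≠ 0` (`mo_nz`), `(fa (mo n f) a).comp (C l * X) = C (l^(n-1)) * fa f a` (`fa_rel` is private in `FB/MON.lean`: copy its proof, it is 3 lines),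
`(fa f a).leadingCoeff = l(a)`, `natDegree = n` (`f.natDegree = n`, `l(a) ≠ 0`): so `¬ Gg N d c C' (fa f a)` implies `¬ Gd d c C' (fa (mo n f) a)` (`n ≤ N`). -/

namespace Pool.Agent.H97.FC

open Finset Polynomial Pool.Agent.H72.ES Pool.Agent.H87.SA Pool.Agent.H87.SA2 Pool.Agent.H87.AX
  Pool.Agent.H8.AW Pool.Agent.H52.AC Pool.Agent.H97.NW Pool.Agent.H34.AC Pool.Agent.H97.FB

/-- a good polynomial, not necessarily monic -/
def Gg (N d c C : ℕ) (g : ℤ[X]) : Prop :=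
  3 ≤ g.natDegree ∧ g.natDegree ≤ N ∧ ∃ g1 : ℤ[X], Gd d c C g1 ∧
    g1.comp (Polynomial.C g.leadingCoeff * X) =
      Polynomial.C (g.leadingCoeff ^ (g.natDegree - 1)) * g

private theorem gg_bd {N G : ℕ} (hG : 1 ≤ G) {g g1 : ℤ[X]} (h1 : 1 ≤ g.natDegree)
    (hN : g.natDegree ≤ N)
    (hrel : g1.comp (Polynomial.C g.leadingCoeff * X) =
      Polynomial.C (g.leadingCoeff ^ (g.natDegree - 1)) * g)
    (hgc : ∀ i, |g.coeff i| ≤ (G : ℤ)) (i : ℕ) :
    |g1.coeff i| ≤ ((G ^ (N + 1) : ℕ) : ℤ) := by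
  obtain ⟨n, hn⟩ : ∃ n : ℕ, n = g.natDegree := ⟨_, rfl⟩
  obtain ⟨l, hl⟩ : ∃ l : ℤ, l = g.leadingCoeff := ⟨_, rfl⟩
  rw [← hn, ← hl] at hrel
  rw [← hn] at h1 hN
  have hl0 : l ≠ 0 := by
    rw [hl, leadingCoeff_ne_zero]
    rintro rfl
    simp at hn
    omega
  have hcn : g.coeff n = l := by rw [hn, hl]; rfl
  have hlG : |l| ≤ (G : ℤ) := by rw [← hcn]; exact hgc n
  have hG1 : (1 : ℤ) ≤ (G : ℤ) := by exact_mod_cast hG
  have hP : (1 : ℤ) ≤ (G : ℤ) ^ (N + 1) := one_le_pow₀ hG1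
  have hc : g1.coeff i * l ^ i = l ^ (n - 1) * g.coeff i := by
    have h2 := congrArg (fun p => p.coeff i) hrel
    simp only [comp_C_mul_X_coeff, coeff_C_mul] at h2
    exact h2
  push_cast
  rcases lt_trichotomy i n with hi | hi | hi
  · have h3 : g1.coeff i = l ^ (n - 1 - i) * g.coeff i := by
      have h4 : l ^ (n - 1) = l ^ (n - 1 - i) * l ^ i := by
        rw [← pow_add]
        congr 1
        omega
      rw [h4] at hc
      refine mul_right_cancel₀ (pow_ne_zero i hl0) ?_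
      rw [hc]
      ring
    rw [h3, abs_mul, abs_pow]
    calc |l| ^ (n - 1 - i) * |g.coeff i| ≤ (G : ℤ) ^ (n - 1 - i) * (G : ℤ) :=
          mul_le_mul (pow_le_pow_left₀ (abs_nonneg _) hlG _) (hgc i) (abs_nonneg _) (by positivity)
      _ = (G : ℤ) ^ (n - 1 - i + 1) := by rw [pow_succ]
      _ ≤ (G : ℤ) ^ (N + 1) := pow_le_pow_right₀ hG1 (by omega)
  · have h3 : g1.coeff i = 1 := by
      refine mul_right_cancel₀ (pow_ne_zero i hl0) ?_
      rw [hc, hi, hcn, one_mul, ← pow_succ]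
      congr 1
      omega
    rw [h3, abs_one]
    exact hP
  · have h3 : g.coeff i = 0 := coeff_eq_zero_of_natDegree_lt (by rw [← hn]; exact hi)
    rw [h3, mul_zero] at hc
    have h4 : g1.coeff i = 0 := by
      rcases mul_eq_zero.1 hc with h | h
      · exact h
      · exact absurd h (pow_ne_zero i hl0)
    rw [h4, abs_zero]
    exact zero_le_one.trans hP

theorem gg_eff (N d c C1 : ℕ) (hd : 3 ≤ d) (hc : cA (d * (d + 1)) ≤ c) : ∃ C : ℕ, 1 ≤ C ∧
    ∀ F : MvPolynomial (Fin 2) ℤ, Irreducible (MvPolynomial.map (Int.castRingHom ℚ) F) →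
    F.totalDegree ≤ d → ∀ G : ℕ, 2 ≤ G → INs {g | Gg N d c C1 g ∧ ∀ i, |g.coeff i| ≤ (G : ℤ)} F →
    ∀ H : ℕ, 2 ≤ H → (∀ e, |F.coeff e| ≤ (H : ℤ)) →
    ∀ x y : ℤ, vl F x y = 0 → max x.natAbs y.natAbs ≤ (G * H) ^ C := by
  obtain ⟨C2, hC21, hC2⟩ := good_eff d c C1 hd hc
  refine ⟨(N + 1) * C2, Nat.mul_pos (Nat.succ_pos _) hC21, ?_⟩
  intro F hF hFd G hG hIN H hH hHF x y hxy
  have hG2 : 2 ≤ G ^ (N + 1) := hG.trans (Nat.le_self_pow (Nat.succ_ne_zero _) _)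
  have hIN' : INs {g | Gd d c C1 g ∧ ∀ i, |g.coeff i| ≤ ((G ^ (N + 1) : ℕ) : ℤ)} F := by
    intro K _ _ hR X' Y' hXY
    rcases hIN K hR X' Y' hXY with h1 | ⟨g, ⟨⟨h3, hN, g1, hg1, hrel⟩, hgc⟩, θ, hθ⟩
    · exact Or.inl h1
    · refine Or.inr ⟨g1, ⟨hg1, gg_bd (by omega) (by omega) hN hrel hgc⟩,
        algebraMap ℤ K g.leadingCoeff * θ, ?_⟩
      have h2 := congrArg (fun p => aeval θ p) hrel
      simp only [aeval_comp, map_mul, aeval_C, aeval_X, hθ, mul_zero] at h2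
      exact h2
  refine (hC2 F hF hFd (G ^ (N + 1)) hG2 hIN' H hH hHF x y hxy).trans ?_
  rw [pow_mul]
  refine Nat.pow_le_pow_left ?_ _
  rw [mul_pow]
  exact Nat.mul_le_mul_left _ (Nat.le_self_pow (Nat.succ_ne_zero _) _)

private theorem gg_relM {n : ℕ} (hn : 1 ≤ n) {f : ℤ[X][X]} (hd : f.natDegree = n) :
    (mo n f).comp (C (f.coeff n) * X) = C (f.coeff n ^ (n - 1)) * f := by
  have h1 : f = ∑ i ∈ range (n + 1), C (f.coeff i) * X ^ i := by
    conv_lhs => rw [f.as_sum_range_C_mul_X_pow, hd]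
  unfold mo
  rw [add_comp, X_pow_comp, Polynomial.sum_comp, mul_pow]
  have hR : C (f.coeff n ^ (n - 1)) * f =
      C (f.coeff n ^ (n - 1)) * (∑ i ∈ range (n + 1), C (f.coeff i) * X ^ i) :=
    congrArg (fun p => C (f.coeff n ^ (n - 1)) * p) h1
  rw [hR, mul_sum, sum_range_succ, add_comm (∑ i ∈ range n, _)]
  congr 1
  · have h2 : n = (n - 1) + 1 := by omega
    have h3 : (C (f.coeff n) : ℤ[X][X]) ^ n = C (f.coeff n ^ (n - 1)) * C (f.coeff n) := by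
      conv_lhs => rw [h2, pow_succ, ← C_pow]
      rw [← h2]
    rw [h3, mul_assoc]
  · refine sum_congr rfl fun i hi => ?_
    have hi' := mem_range.1 hi
    rw [mul_comp, C_comp, X_pow_comp, mul_pow, ← mul_assoc, ← mul_assoc, ← C_pow, ← C_mul, ← C_mul]
    congr 2
    have h3 : n - 1 = (n - 1 - i) + i := by omega
    conv_rhs => rw [h3, pow_add]
    ring

private theorem gg_rel {n : ℕ} (hn : 1 ≤ n) {f : ℤ[X][X]} (hd : f.natDegree = n) (a : ℕ) :
    (fa (mo n f) a).comp (C ((f.coeff n).eval (a : ℤ)) * X) =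
      C ((f.coeff n).eval (a : ℤ) ^ (n - 1)) * fa f a := by
  have h2 := congrArg (fun p => p.map (evalRingHom (a : ℤ))) (gg_relM hn hd)
  simp only [Polynomial.map_mul, map_comp, Polynomial.map_C, map_X, map_pow, coe_evalRingHom] at h2
  simpa [fa] using h2

theorem window_gg (n N m d : ℕ) (hn : 3 ≤ n) (hnN : n ≤ N) (hm : 1 ≤ m) (hd : 3 ≤ d) :
    ∃ c0 C0 : ℕ, cA (d * (d + 1)) ≤ c0 ∧ ∀ c C' : ℕ, c0 ≤ c → C0 ≤ C' → ∃ C : ℕ, 1 ≤ C ∧
    ∀ (f : ℤ[X][X]) (B X0 : ℕ), f.natDegree = n → (∀ i, (f.coeff i).natDegree ≤ m) →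
      (∀ i j, |(f.coeff i).coeff j| ≤ (B : ℤ)) →
      Irreducible (f.map (mapRingHom (Int.castRingHom ℂ))) → 2 ≤ B → B ^ C ≤ X0 →
      ∀ S : Finset ℕ, (∀ a ∈ S, ¬ Gg N d c C' (fa f a) ∧ X0 ≤ a ∧ (a - X0) ^ C ≤ X0) →
        S.card ≤ C := by
  obtain ⟨c0, C0, hc0, hw⟩ := window_good n m d hn hd
  refine ⟨c0, C0, hc0, fun c C' hc hC' => ?_⟩
  obtain ⟨C1, hC11, hC1⟩ := hw c C' hc hC'
  obtain ⟨c2, hc2⟩ := exists_famB n m (by omega) hm
  refine ⟨C1 + (m + 2) * n * c2 * C1 + 2, by omega, ?_⟩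
  intro f B X0 hdeg hcd hle hirr hB hX0 S hS
  obtain ⟨K, hK⟩ : ∃ K : ℕ, K = C1 + (m + 2) * n * c2 * C1 + 2 := ⟨_, rfl⟩
  rw [← hK] at hX0 hS ⊢
  have hKC1 : C1 ≤ K := by
    rw [hK]
    exact (Nat.le_add_right _ _).trans (Nat.le_add_right _ _)
  have hKc : (m + 2) * n * c2 * C1 ≤ K := by
    rw [hK]
    exact (Nat.le_add_left _ _).trans (Nat.le_add_right _ _)
  have hK2 : 2 ≤ K := by
    rw [hK]
    exact Nat.le_add_left _ _
  have hn1 : 1 ≤ n := by omega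
  have hB1 : 1 ≤ B := by omega
  obtain ⟨hmon, hmdeg⟩ := mo_monic hn1 f
  have hmle := mo_le hn1 hB1 hcd hle
  have hbase : 2 ≤ (m + 1) * B := le_trans hB (Nat.le_mul_of_pos_left B (Nat.succ_pos m))
  have hB12 : 2 ≤ ((m + 1) * B) ^ n :=
    hbase.trans (Nat.le_self_pow (by omega) _)
  obtain ⟨B', hB', ⟨Fm⟩⟩ := hc2 (mo n f) (((m + 1) * B) ^ n) hB12 hmon hmdeg (mo_deg hn1 hcd) hmle
    (mo_irr hn1 hdeg hirr)
  have h0 : ((m + 1) * B) ^ n ≤ B ^ ((m + 2) * n) := by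
    have e1 : m + 1 ≤ B ^ (m + 1) :=
      (Nat.lt_two_pow_self (n := m + 1)).le.trans (Nat.pow_le_pow_left hB _)
    have e2 : (m + 1) * B ≤ B ^ (m + 2) := by
      calc (m + 1) * B ≤ B ^ (m + 1) * B := Nat.mul_le_mul_right B e1
        _ = B ^ (m + 2) := by rw [← pow_succ]
    calc ((m + 1) * B) ^ n ≤ (B ^ (m + 2)) ^ n := Nat.pow_le_pow_left e2 n
      _ = B ^ ((m + 2) * n) := by rw [← pow_mul]
  have h1 : B' ^ C1 ≤ X0 := by
    calc B' ^ C1 ≤ ((((m + 1) * B) ^ n) ^ c2) ^ C1 := Nat.pow_le_pow_left hB' _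
      _ ≤ ((B ^ ((m + 2) * n)) ^ c2) ^ C1 := Nat.pow_le_pow_left (Nat.pow_le_pow_left h0 _) _
      _ = B ^ ((m + 2) * n * c2 * C1) := by simp only [← pow_mul, mul_assoc]
      _ ≤ B ^ K := Nat.pow_le_pow_right hB1 hKc
      _ ≤ X0 := hX0
  have hX1 : 1 ≤ X0 := (Nat.one_le_pow _ _ hB1).trans hX0
  have hBX : B + 1 ≤ X0 := by
    calc B + 1 ≤ B ^ 2 := by nlinarith
      _ ≤ B ^ K := Nat.pow_le_pow_right hB1 hK2
      _ ≤ X0 := hX0
  have hf0 : f.coeff n ≠ 0 := by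
    have h2 : f ≠ 0 := by
      rintro rfl
      rw [natDegree_zero] at hdeg
      omega
    rw [← hdeg]
    exact leadingCoeff_ne_zero.2 h2
  refine (hC1 B' (mo n f) Fm X0 h1 S fun a haS => ?_).trans hKC1
  obtain ⟨hng, ha, haC⟩ := hS a haS
  have haC1 : (a - X0) ^ C1 ≤ X0 := by
    rcases Nat.eq_zero_or_pos (a - X0) with h | h
    · rw [h, zero_pow (by omega)]
      exact Nat.zero_le _
    · exact (Nat.pow_le_pow_right h hKC1).trans haC
  have hnz : (f.coeff n).eval (a : ℤ) ≠ 0 := mo_nz hf0 (hle n) (hBX.trans ha)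
  refine ⟨fun hgd => hng ?_, ha, haC1⟩
  have hlc : (evalRingHom (a : ℤ)) f.leadingCoeff ≠ 0 := by
    rw [leadingCoeff, hdeg, coe_evalRingHom]
    exact hnz
  have hnd : (fa f a).natDegree = n := by
    unfold fa
    rw [natDegree_map_of_leadingCoeff_ne_zero _ hlc, hdeg]
  have hlead : (fa f a).leadingCoeff = (f.coeff n).eval (a : ℤ) := by
    rw [leadingCoeff, hnd]
    unfold fa
    rw [coeff_map, coe_evalRingHom]
  refine ⟨by omega, by omega, fa (mo n f) a, hgd, ?_⟩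
  rw [hlead, hnd]
  exact gg_rel hn1 hdeg a

end Pool.Agent.H97.FC
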