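import Pool.Agent.H97.FC.GDG

/-! # [H97 FC GDI] Good polynomials are irreducible over `ℚ` -/

namespace Pool.Agent.H97.FC

open Polynomial

theorem gg_irr {N d c C : ℕ} {g : ℤ[X]} (h : Gg N d c C g) :
    Irreducible (g.map (Int.castRingHom ℚ)) := by
  obtain ⟨h3, -, g1, hg1, hr⟩ := h
  have hl : ((g.leadingCoeff : ℤ) : ℚ) ≠ 0 := by
    have : g.leadingCoeff ≠ 0 := by
      rw [Ne, leadingCoeff_eq_zero]
      rintro rfl
      simp at h3
    exact_mod_cast this
  have hirr := hg1.2.1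
  have h1 : (g1.map (Int.castRingHom ℚ)).comp (Polynomial.C ((g.leadingCoeff : ℤ) : ℚ) * X) =
      Polynomial.C (((g.leadingCoeff : ℤ) : ℚ) ^ (g.natDegree - 1)) *
        g.map (Int.castRingHom ℚ) := by
    have h2 := congrArg (Polynomial.map (Int.castRingHom ℚ)) hr
    simpa [Polynomial.map_comp] using h2
  let _ : Invertible ((g.leadingCoeff : ℤ) : ℚ) := invertibleOfNonzero hl
  have h2 : Irreducible ((g1.map (Int.castRingHom ℚ)).comp
      (Polynomial.C ((g.leadingCoeff : ℤ) : ℚ) * X)) := by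
    have h4 := (MulEquiv.irreducible_iff
      (algEquivCMulXAddC ((g.leadingCoeff : ℤ) : ℚ) (0 : ℚ)).toMulEquiv
      (x := g1.map (Int.castRingHom ℚ))).2 hirr
    have h5 : (algEquivCMulXAddC ((g.leadingCoeff : ℤ) : ℚ) (0 : ℚ)).toMulEquiv
        (g1.map (Int.castRingHom ℚ)) = (g1.map (Int.castRingHom ℚ)).comp
        (Polynomial.C ((g.leadingCoeff : ℤ) : ℚ) * X) := by
      show (algEquivCMulXAddC ((g.leadingCoeff : ℤ) : ℚ) (0 : ℚ))
        (g1.map (Int.castRingHom ℚ)) = _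
      rw [algEquivCMulXAddC_apply, map_zero, add_zero, comp_eq_aeval]
    rwa [h5] at h4
  rw [h1] at h2
  exact (irreducible_isUnit_mul (isUnit_C.2 (isUnit_iff_ne_zero.2 (pow_ne_zero _ hl)))).1 h2

end Pool.Agent.H97.FC
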