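import Pool.Agent.H97.FB.Defs2

/-! # [H97 FC GDL] The fibre at `a` has height at least `a^(1/2)`

Some coefficient `p = f.coeff i` is not constant: otherwise `f.map (mapRingHom (Int.castRingHom ℂ))` is the image of a polynomial `h ∈ ℂ[X]` of degree `n ≥ 2` under `Polynomial.map C`, which has a root `z` in `ℂ`, so it is divisible by `X - C (C z)`; irreducible of degree `n ≥ 2` is a contradiction (`Fm.irr`, `Fm.deg`, `Fm.monic`; both factors are monic of positive degree).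
Let `s = p.natDegree ≥ 1`, leading coefficient `c ≠ 0`, `|c| ≥ 1`, all coefficients `≤ B`. `|p(a)| ≥ a^s - ∑_(j<s) B a^j ≥ a^s - B a^(s-1) * 2 ≥ a^(s-1) (a - 2 B) ≥ a - 2 B` for `a ≥ 2` (`∑_(j<s) a^j ≤ 2 a^(s-1)`; as in `mo_nz` of `FB/MON.lean`). If `B^4 ≤ a`: `2 B ≤ B^2 ≤ a^(1/2)`, so `a ≤ G + 2 B`, `G ≥ a - B^2`, and `G^2 ≥ a`
(`a ≥ B^4 ≥ 16`, `a - a^(1/2) ≥ a^(1/2)`). `(fa f a).coeff i = (f.coeff i).eval a`. -/

namespace Pool.Agent.H97.FC

open Finset Polynomial Pool.Agent.H97.FB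

private theorem gdl_nonconst {n m B : ℕ} {f : ℤ[X][X]} (Fm : FamB n m B f) :
    ∃ i, 1 ≤ (f.coeff i).natDegree := by
  by_contra hcon
  have hz : ∀ i, (f.coeff i).natDegree = 0 := by
    intro i
    by_contra h
    exact hcon ⟨i, Nat.one_le_iff_ne_zero.2 h⟩
  obtain ⟨h, hh⟩ : ∃ h : ℂ[X], h.map (C : ℂ →+* ℂ[X]) =
      f.map (mapRingHom (Int.castRingHom ℂ)) := by
    refine (mem_lifts _).1 ((lifts_iff_coeff_lifts _).2 fun i => ?_)
    refine ⟨Int.castRingHom ℂ ((f.coeff i).coeff 0), ?_⟩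
    rw [coeff_map, coe_mapRingHom]
    have h1 := eq_C_of_natDegree_eq_zero (hz i)
    rw [h1, map_C, coeff_C_zero]
  have hmon : (h.map (C : ℂ →+* ℂ[X])).Monic := by
    rw [hh]
    exact Fm.monic.map _
  have hm : h.Monic := monic_of_injective C_injective hmon
  have hirr : Irreducible (h.map (C : ℂ →+* ℂ[X])) := by
    rw [hh]
    exact Fm.irr
  have hi : Irreducible h := hm.irreducible_of_irreducible_map _ _ hirr
  have hd := IsAlgClosed.degree_eq_one_of_irreducible ℂ hi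
  have hn : h.natDegree = n := by
    rw [← natDegree_map_eq_of_injective C_injective h, hh, Fm.monic.natDegree_map, Fm.deg]
  have h1 : h.natDegree = 1 := natDegree_eq_of_degree_eq_some hd
  have h2 := Fm.n2
  omega

private theorem gdl_eval {p : ℤ[X]} {B a G : ℕ} (hs : 1 ≤ p.natDegree)
    (hB : ∀ j, |p.coeff j| ≤ (B : ℤ)) (ha2 : 2 ≤ a) (haB : 2 * B ≤ a)
    (hG : |p.eval (a : ℤ)| ≤ (G : ℤ)) : a ≤ G + 2 * B := by
  obtain ⟨s, hs'⟩ : ∃ s, p.natDegree = s + 1 := ⟨p.natDegree - 1, by omega⟩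
  have ha2' : (2 : ℤ) ≤ (a : ℤ) := by exact_mod_cast ha2
  have haB' : (2 : ℤ) * B ≤ (a : ℤ) := by exact_mod_cast haB
  have hpow : ∀ k : ℕ, (1 : ℤ) ≤ (a : ℤ) ^ k := fun k => one_le_pow₀ (by linarith)
  have hgeo : ∀ k : ℕ, (∑ j ∈ range (k + 1), (a : ℤ) ^ j) ≤ 2 * (a : ℤ) ^ k := by
    intro k
    induction k with
    | zero => simp
    | succ k ih =>
      rw [sum_range_succ]
      have h1 : (a : ℤ) ^ (k + 1) = a * (a : ℤ) ^ k := by ring
      have h2 : 2 * (a : ℤ) ^ k ≤ a * (a : ℤ) ^ k :=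
        mul_le_mul_of_nonneg_right ha2' (by linarith [hpow k])
      linarith
  have hne : p ≠ 0 := by
    intro h0
    rw [h0, natDegree_zero] at hs
    omega
  have hlead : (1 : ℤ) ≤ |p.coeff (s + 1)| := by
    rw [← hs']
    exact Int.one_le_abs (leadingCoeff_ne_zero.2 hne)
  have hev : p.eval (a : ℤ) =
      (∑ j ∈ range (s + 1), p.coeff j * (a : ℤ) ^ j) + p.coeff (s + 1) * (a : ℤ) ^ (s + 1) := by
    rw [eval_eq_sum_range, hs', sum_range_succ]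
  have hsum : |∑ j ∈ range (s + 1), p.coeff j * (a : ℤ) ^ j| ≤ B * (2 * (a : ℤ) ^ s) := by
    calc |∑ j ∈ range (s + 1), p.coeff j * (a : ℤ) ^ j|
        ≤ ∑ j ∈ range (s + 1), |p.coeff j * (a : ℤ) ^ j| := abs_sum_le_sum_abs _ _
      _ ≤ ∑ j ∈ range (s + 1), (B : ℤ) * (a : ℤ) ^ j := by
          refine sum_le_sum fun j _ => ?_
          rw [abs_mul, abs_of_nonneg (by linarith [hpow j] : (0 : ℤ) ≤ (a : ℤ) ^ j)]
          exact mul_le_mul_of_nonneg_right (hB j) (by linarith [hpow j])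
      _ = B * ∑ j ∈ range (s + 1), (a : ℤ) ^ j := by rw [mul_sum]
      _ ≤ B * (2 * (a : ℤ) ^ s) := mul_le_mul_of_nonneg_left (hgeo s) (Int.natCast_nonneg B)
  have h1 : (a : ℤ) ^ (s + 1) ≤ |p.coeff (s + 1) * (a : ℤ) ^ (s + 1)| := by
    rw [abs_mul, abs_of_nonneg (by linarith [hpow (s + 1)] : (0 : ℤ) ≤ (a : ℤ) ^ (s + 1))]
    exact le_mul_of_one_le_left (by linarith [hpow (s + 1)]) hlead
  have h2 : p.coeff (s + 1) * (a : ℤ) ^ (s + 1) =
      p.eval (a : ℤ) - ∑ j ∈ range (s + 1), p.coeff j * (a : ℤ) ^ j := by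
    rw [hev]
    ring
  have h3 : |p.coeff (s + 1) * (a : ℤ) ^ (s + 1)| ≤ (G : ℤ) + B * (2 * (a : ℤ) ^ s) := by
    rw [h2]
    exact (abs_sub _ _).trans (add_le_add hG hsum)
  have h4 : (a : ℤ) ^ s * ((a : ℤ) - 2 * B) ≤ G := by
    have h5 : (a : ℤ) ^ (s + 1) = (a : ℤ) ^ s * a := pow_succ _ _
    have h6 := h1.trans h3
    rw [h5] at h6
    linarith
  have h7 : (a : ℤ) - 2 * B ≤ (a : ℤ) ^ s * ((a : ℤ) - 2 * B) :=
    le_mul_of_one_le_left (by linarith) (hpow s)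
  have h8 : (a : ℤ) ≤ G + 2 * B := by linarith
  exact_mod_cast h8

theorem fa_low {n m B : ℕ} {f : ℤ[X][X]} (Fm : FamB n m B f) {a : ℕ} (ha : B ^ 4 ≤ a) {G : ℕ}
    (hG : ∀ i, |(fa f a).coeff i| ≤ (G : ℤ)) : a ≤ G ^ 2 := by
  obtain ⟨i, hi⟩ := gdl_nonconst Fm
  have hB2 := Fm.B2
  have h1 : (fa f a).coeff i = (f.coeff i).eval (a : ℤ) := by
    unfold fa
    rw [coeff_map]
    rfl
  have hp := hG i
  rw [h1] at hp
  obtain ⟨b, hb⟩ : ∃ b, b = B ^ 2 := ⟨_, rfl⟩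
  have hb4 : 4 ≤ b := by
    rw [hb]
    nlinarith
  have hbB : 2 * B ≤ b := by
    rw [hb]
    nlinarith
  have hba : b * b ≤ a := by
    rw [hb, ← pow_add]
    exact ha
  have h4b : 4 * b ≤ a := (Nat.mul_le_mul_right b hb4).trans hba
  have h2 := gdl_eval hi (Fm.le i) (by omega) (by omega) hp
  have h3 : a ≤ G + b := by omega
  nlinarith

end Pool.Agent.H97.FC
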