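import Pool.Agent.H97.FC.CLM
import Pool.Agent.H97.FC.Defs
import Pool.Agent.H97.FB.THA

/-! # [H97 FC JNT] Jointly independent fibres (helper5)

Greedy choice of the members `a 0, .., a (j - 1)`; together with them a number field `k` of degree at
most `n ^ j` and elements `r v` of `k` such that for every choice `p` of indices there is an embedding
`φ : k →+* ℂ` with `φ (r v) = θ_v (p v)`. The next member is one with `fa f a` irreducible over `k`
(`cliquesM`), the next field is `AdjoinRoot`. Two embeddings of a number field differ by some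
`σ : AA →+* ℂ`. -/

namespace Pool.Agent.H97.FC

open Finset Polynomial Pool.Agent.H72.ES Pool.Agent.H87.SA Pool.Agent.H87.SA2 Pool.Agent.H97.FB

private lemma jnt_lift {k : Type} [Field k] [NumberField k] (φ ψ : k →+* ℂ) :
    ∃ (φ0 : k →+* AA) (σ : AA →+* ℂ), (∀ z, ((φ0 z : AA) : ℂ) = φ z) ∧ ∀ z, σ (φ0 z) = ψ z := by
  let φ0 : k →+* AA := φ.codRestrict AA.toSubring (fun z => by
    have : Algebra.IsAlgebraic ℚ k := Algebra.IsAlgebraic.of_finite ℚ k
    have h1 : IsAlgebraic ℚ z := Algebra.IsAlgebraic.isAlgebraic z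
    show φ z ∈ algebraicClosure ℚ ℂ
    rw [mem_algebraicClosure_iff]
    exact h1.algHom φ.toRatAlgHom)
  let _i : Algebra k AA := φ0.toAlgebra
  let _i : Algebra k ℂ := ψ.toAlgebra
  have : IsScalarTower ℚ k AA := IsScalarTower.of_algebraMap_eq' (Subsingleton.elim _ _)
  have : Algebra.IsAlgebraic ℚ AA := algebraicClosure.isAlgebraic ℚ ℂ
  have : Algebra.IsAlgebraic k AA := Algebra.IsAlgebraic.tower_top (K := ℚ) k
  let σ : AA →ₐ[k] ℂ := IsAlgClosed.lift
  refine ⟨φ0, σ.toRingHom, fun z => rfl, fun z => ?_⟩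
  exact σ.commutes z

/-- values of the elements of a number field under two embeddings -/
private lemma jnt_cj {k : Type} [Field k] [NumberField k] (φ ψ : k →+* ℂ) :
    ∃ σ : AA →+* ℂ, ∀ z, Cj σ (φ z) (ψ z) := by
  obtain ⟨φ0, σ, h0, h1⟩ := jnt_lift φ ψ
  refine ⟨σ, fun z a ha => ?_⟩
  have h2 : a = φ0 z := Subtype.ext (ha.trans (h0 z).symm)
  rw [h2, h1]

private lemma jnt_root {n : ℕ} {g : ℤ[X]} {θ : Fin n → ℂ} (h : Rts g θ) (l : Fin n) :
    eval₂ (Int.castRingHom ℂ) (θ l) g = 0 := by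
  rw [← eval_map, h.1, eval_prod]
  apply Finset.prod_eq_zero (Finset.mem_univ l)
  rw [eval_sub, eval_X, eval_C, sub_self]

/-- one more root -/
private lemma jnt_step {n j D : ℕ} {k : Type} [Field k] [NumberField k] (hk : Module.finrank ℚ k ≤ D)
    {g : ℤ[X]} (hg : g.Monic) (hgd : g.natDegree = n) (hirr : Irreducible (g.map (algebraMap ℤ k)))
    {θ : Fin j → Fin n → ℂ} {θ' : Fin n → ℂ} (h' : Rts g θ') (r : Fin j → k)
    (hr : ∀ p : Fin j → Fin n, ∃ φ : k →+* ℂ, ∀ v, φ (r v) = θ v (p v)) :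
    ∃ (k' : Type) (_ : Field k') (_ : NumberField k'), Module.finrank ℚ k' ≤ D * n ∧
      ∃ r' : Fin (j + 1) → k', ∀ p : Fin (j + 1) → Fin n, ∃ φ : k' →+* ℂ,
        (∀ v : Fin j, φ (r' v.castSucc) = θ v (p v.castSucc)) ∧
          φ (r' (Fin.last j)) = θ' (p (Fin.last j)) := by
  obtain ⟨q, hq⟩ : ∃ q : k[X], q = g.map (algebraMap ℤ k) := ⟨_, rfl⟩
  rw [← hq] at hirr
  have : Fact (Irreducible q) := ⟨hirr⟩
  have hqd : q.natDegree = n := by
    rw [hq, hg.natDegree_map, hgd]
  have hf1 : Module.Finite k (AdjoinRoot q) := (AdjoinRoot.powerBasis hirr.ne_zero).finite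
  have hf2 : Module.Finite ℚ (AdjoinRoot q) := Module.Finite.trans k (AdjoinRoot q)
  have hc : CharZero (AdjoinRoot q) :=
    charZero_of_injective_algebraMap (algebraMap ℚ (AdjoinRoot q)).injective
  have hnf : NumberField (AdjoinRoot q) := NumberField.mk
  refine ⟨AdjoinRoot q, inferInstance, hnf, ?_, Fin.snoc (fun v => AdjoinRoot.of q (r v))
    (AdjoinRoot.root q), ?_⟩
  · rw [← Module.finrank_mul_finrank ℚ k (AdjoinRoot q), (AdjoinRoot.powerBasis hirr.ne_zero).finrank,
      AdjoinRoot.powerBasis_dim, hqd]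
    exact Nat.mul_le_mul_right n hk
  · intro p
    obtain ⟨φ, hφ⟩ := hr fun v => p v.castSucc
    have hev : eval₂ φ (θ' (p (Fin.last j))) q = 0 := by
      rw [hq, eval₂_map]
      have e1 : φ.comp (algebraMap ℤ k) = Int.castRingHom ℂ := Subsingleton.elim _ _
      rw [e1]
      exact jnt_root h' _
    refine ⟨AdjoinRoot.lift φ (θ' (p (Fin.last j))) hev, fun v => ?_, ?_⟩
    · rw [Fin.snoc_castSucc, AdjoinRoot.lift_of]
      exact hφ v
    · rw [Fin.snoc_last, AdjoinRoot.lift_root]

theorem exists_joint (n m K : ℕ) : ∃ J0 C : ℕ, ∀ (B : ℕ) (f : ℤ[X][X]) (Fm : FamB n m B f) (X0 : ℕ),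
    B ^ C ≤ X0 → ∀ S : Finset ℕ, (∀ a ∈ S, X0 ≤ a ∧ (a - X0) ^ C ≤ X0) →
      (∀ a ∈ S, Irreducible ((fa f a).map (Int.castRingHom ℚ))) → J0 ≤ S.card →
      ∃ T ⊆ S, T.card = K ∧ ∀ (k : ℕ) (s : Fin k → ℕ), Function.Injective s → (∀ v, s v ∈ T) →
        TrG (vM fun v => thA Fm.pd m (s v)) := by
  classical
  obtain ⟨J1, C1, hcl⟩ := cliquesM n m (n ^ K)
  obtain ⟨C2, hthA⟩ := thA_rts n m
  refine ⟨J1 + K + 1, max C1 C2 + 1, ?_⟩
  intro B f Fm X0 hX0 S hS _ hcard
  have hB : 1 ≤ B := by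
    have := Fm.B2
    omega
  have hX1 : B ^ C1 ≤ X0 := (Nat.pow_le_pow_right hB (by omega)).trans hX0
  have hX2 : B ^ C2 ≤ X0 := (Nat.pow_le_pow_right hB (by omega)).trans hX0
  have hn2 := Fm.n2
  have hX00 : 1 ≤ X0 := (Nat.one_le_pow _ _ hB).trans hX0
  have hS1 : ∀ a ∈ S, X0 ≤ a ∧ (a - X0) ^ C1 ≤ X0 := by
    intro a ha
    refine ⟨(hS a ha).1, ?_⟩
    rcases Nat.eq_zero_or_pos (a - X0) with h0 | h0
    · rw [h0]
      rcases Nat.eq_zero_or_pos C1 with h1 | h1
      · rw [h1, pow_zero]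
        exact hX00
      · rw [zero_pow (by omega)]
        exact Nat.zero_le _
    · exact (Nat.pow_le_pow_right h0 (by omega)).trans (hS a ha).2
  have hfm : ∀ a, (fa f a).Monic := fun a => Fm.monic.map _
  have hfd : ∀ a, (fa f a).natDegree = n := by
    intro a
    unfold fa
    rw [Fm.monic.natDegree_map, Fm.deg]
  have hR : ∀ a ∈ S, Rts (fa f a) (thA Fm.pd m a) := fun a ha => hthA B f Fm a (hX2.trans (hS a ha).1)
  -- the greedy choice
  have hgr : ∀ j : ℕ, j ≤ K → ∃ a : Fin j → ℕ, Function.Injective a ∧ (∀ v, a v ∈ S) ∧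
      ∃ (k : Type) (_ : Field k) (_ : NumberField k), Module.finrank ℚ k ≤ n ^ j ∧
        ∃ r : Fin j → k, ∀ p : Fin j → Fin n, ∃ φ : k →+* ℂ, ∀ v,
          φ (r v) = thA Fm.pd m (a v) (p v) := by
    intro j
    induction j with
    | zero =>
      intro _
      refine ⟨Fin.elim0, fun v => v.elim0, fun v => v.elim0, ℚ, inferInstance, inferInstance, ?_,
        Fin.elim0, fun _ => ⟨algebraMap ℚ ℂ, fun v => v.elim0⟩⟩
      rw [Module.finrank_self, pow_zero]
    | succ j ih =>
      intro hj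
      obtain ⟨a, hinj, haS, k, hk1, hk2, hdeg, r, hr⟩ := ih (by omega)
      -- the reducible ones
      have h1 : (S.filter fun b => ¬ Irreducible ((fa f b).map (algebraMap ℤ k))).card ≤ J1 := by
        refine hcl B f Fm X0 hX1 k (hdeg.trans (Nat.pow_le_pow_right (by omega) (by omega))) _ ?_ ?_
        · intro b hb
          exact hS1 b (Finset.mem_filter.1 hb).1
        · intro b hb
          exact (Finset.mem_filter.1 hb).2
      have h2 : ((univ : Finset (Fin j)).image a).card ≤ K := by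
        refine Finset.card_image_le.trans ?_
        rw [Finset.card_univ, Fintype.card_fin]
        omega
      obtain ⟨b, hbS, hb⟩ : ∃ b ∈ S, b ∉ (S.filter fun b => ¬ Irreducible ((fa f b).map (algebraMap ℤ k))) ∪
          (univ : Finset (Fin j)).image a := by
        by_contra hcon
        push Not at hcon
        have h3 : S.card ≤ ((S.filter fun b => ¬ Irreducible ((fa f b).map (algebraMap ℤ k))) ∪
          (univ : Finset (Fin j)).image a).card := Finset.card_le_card hcon
        have h4 := Finset.card_union_le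
          (S.filter fun b => ¬ Irreducible ((fa f b).map (algebraMap ℤ k)))
          ((univ : Finset (Fin j)).image a)
        omega
      rw [Finset.mem_union, not_or, Finset.mem_filter, not_and, not_not] at hb
      have hbirr := hb.1 hbS
      have hbne : ∀ v, a v ≠ b := by
        intro v hv
        apply hb.2
        rw [Finset.mem_image]
        exact ⟨v, Finset.mem_univ v, hv⟩
      obtain ⟨k', i1, i2, hd', r', hr'⟩ := jnt_step (θ := fun v => thA Fm.pd m (a v)) hdeg (hfm b)
        (hfd b) hbirr (hR b hbS) r hr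
      refine ⟨Fin.snoc a b, ?_, ?_, k', i1, i2, ?_, r', ?_⟩
      · rw [Fin.snoc_injective_iff]
        refine ⟨hinj, ?_⟩
        rintro ⟨v, hv⟩
        exact hbne v hv
      · intro v
        refine Fin.lastCases ?_ (fun w => ?_) v
        · rw [Fin.snoc_last]
          exact hbS
        · rw [Fin.snoc_castSucc]
          exact haS w
      · rw [pow_succ]
        exact hd'
      · intro p
        obtain ⟨φ, hφ1, hφ2⟩ := hr' p
        refine ⟨φ, fun v => ?_⟩
        refine Fin.lastCases ?_ (fun w => ?_) v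
        · rw [Fin.snoc_last]
          exact hφ2
        · rw [Fin.snoc_castSucc]
          exact hφ1 w
  obtain ⟨a, hinj, haS, k, hk1, hk2, _, r, hr⟩ := hgr K le_rfl
  refine ⟨(univ : Finset (Fin K)).image a, ?_, ?_, ?_⟩
  · intro b hb
    obtain ⟨v, _, rfl⟩ := Finset.mem_image.1 hb
    exact haS v
  · rw [Finset.card_image_of_injective _ hinj, Finset.card_univ, Fintype.card_fin]
  · intro κ s hs hsT
    have he : ∀ v : Fin κ, ∃ w : Fin K, a w = s v := by
      intro v
      obtain ⟨w, _, hw⟩ := Finset.mem_image.1 (hsT v)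
      exact ⟨w, hw⟩
    choose e he using he
    have hei : Function.Injective e := by
      intro v w hvw
      apply hs
      rw [← he v, ← he w, hvw]
    intro l l'
    obtain ⟨φ, hφ⟩ := hr (Function.extend e l fun _ => ⟨0, by omega⟩)
    obtain ⟨ψ, hψ⟩ := hr (Function.extend e l' fun _ => ⟨0, by omega⟩)
    obtain ⟨σ, hσ⟩ := jnt_cj φ ψ
    refine ⟨σ, fun u => ?_⟩
    have h1 := hσ (r (e u))
    rw [hφ, hψ, hei.extend_apply, hei.extend_apply, he] at h1
    exact h1

end Pool.Agent.H97.FC
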