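import Pool.Agent.H97.FC.GRD

/-! # [H97 FC GR2] The relations which come from a polynomial vanishing at the `x_v`

`mo = MonomialOrder.degLex` (`σ = Fin k`). `c := kx μ - mo.degree g` (`Finsupp` subtraction); `mo.degree g ≤ kx μ` (pointwise: `mo.degree g ∈ g.support` (`mo.degree_mem_support`), so `(mo.degree g) v ≤ g.degreeOf v ≤ (μ v).1`, `MvPolynomial.monomial_le_degreeOf` or `le_degreeOf`), so `c + mo.degree g = kx μ`.
`r ν' := if ∀ v, (ν' v).2 = (μ v).2 then MvPolynomial.coeff (kx ν') (MvPolynomial.monomial c 1 * g) else 0`. `MvPolynomial.coeff_monomial_mul'`: the coefficient is `if c ≤ kx ν' then coeff (kx ν' - c) g else 0`.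
`r μ = coeff (mo.degree g) g = mo.leadingCoeff g ≠ 0` (`MonomialOrder.leadingCoeff_ne_zero_iff`).
If `r ν' ≠ 0`: `d := kx ν' - c ∈ g.support`, `kx ν' = c + d`, `mo.toSyn d ≤ mo.toSyn (mo.degree g)` (`MonomialOrder.le_degree`), so `mo.toSyn (kx ν') = toSyn c + toSyn d ≤ toSyn c + toSyn (degree g) = toSyn (kx μ)` (`map_add`, `add_le_add_left`): `ky ν' ≤ ky μ`; if equal then `kx ν' = kx μ` (injective), with the equal `y`-parts `ν' = μ` (funext, Prod.ext);
total degree: `MonomialOrder.degLex_le_iff` and `DegLex` (the order compares `Finsupp.degree` first): `(kx ν').degree ≤ (kx μ).degree`, `Finsupp.degree` is `∑ v, ..` (`Finsupp.degree_eq_sum`).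
SIZE: `|coeff| ≤ l1 g` (`H4AR.l1` is the sum of the absolute values over the support; `0 ≤ l1`).
SUM: `∑_(ν' ∈ V) r ν' mv P ν' = ∑` over the `ν'` with `r ν' ≠ 0` `= (∏_v y_v^((μ v).2)) * ∑_(d ∈ (monomial c 1 * g).support) coeff d * ∏_v x_v^(d v)` (bijection `ν' ↦ kx ν'` from the `ν'` with the same `y`-part as `μ`; inverse `d ↦ fun v => (d v, (μ v).2)`; `Finset.sum_bij_ne_zero` or `sum_nbij'` after `sum_filter_ne_zero`-like steps)
`= (∏ y^..) * eval x (monomial c 1 * g) = 0` (`MvPolynomial.eval_eq'`, `map_mul`, `h0`). -/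

namespace Pool.Agent.H97.FC

open Finset Pool.Agent.H97.NW

theorem rel_tri {k ν : ℕ} (P : Fin k → Ptd ν) (g : MvPolynomial (Fin k) ℤ) (hg : g ≠ 0)
    (h0 : MvPolynomial.eval (fun v => (P v).x) g = 0) (μ : Fin k → ℕ × ℕ)
    (hμ : ∀ v, g.degreeOf v ≤ (μ v).1) :
    ∃ r : (Fin k → ℕ × ℕ) → ℤ, r μ ≠ 0 ∧
      (∀ ν', r ν' ≠ 0 → (∀ v, (ν' v).2 = (μ v).2) ∧ ∑ v, (ν' v).1 ≤ ∑ v, (μ v).1 ∧
        (ν' = μ ∨ ky ν' < ky μ)) ∧
      (∀ ν', |((r ν' : ℤ) : ℝ)| ≤ H4AR.l1 g) ∧
      ∀ V : Finset (Fin k → ℕ × ℕ), (∀ ν', r ν' ≠ 0 → ν' ∈ V) → ∑ ν' ∈ V, r ν' * mv P ν' = 0 := by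
  classical
  have hlc : (MonomialOrder.degLex (σ := Fin k)).leadingCoeff g ≠ 0 :=
    MonomialOrder.leadingCoeff_ne_zero_iff.2 hg
  have hdm : (MonomialOrder.degLex (σ := Fin k)).degree g ∈ g.support :=
    MonomialOrder.degree_mem_support hg
  have hle : (MonomialOrder.degLex (σ := Fin k)).degree g ≤ kx μ := fun v =>
    (MvPolynomial.monomial_le_degreeOf v hdm).trans (hμ v)
  obtain ⟨c, hc⟩ : ∃ c, c + (MonomialOrder.degLex (σ := Fin k)).degree g = kx μ :=
    ⟨kx μ - (MonomialOrder.degLex (σ := Fin k)).degree g, tsub_add_cancel_of_le hle⟩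
  have hcf : ∀ e, MvPolynomial.coeff e (MvPolynomial.monomial c (1 : ℤ) * g) =
      if c ≤ e then MvPolynomial.coeff (e - c) g else 0 := by
    intro e
    rw [MvPolynomial.coeff_monomial_mul', one_mul]
  have hkx : ∀ (ν' : Fin k → ℕ × ℕ) v, kx ν' v = (ν' v).1 := fun _ _ => rfl
  have hksum : ∀ ν' : Fin k → ℕ × ℕ, (kx ν').degree = ∑ v, (ν' v).1 := by
    intro ν'
    rw [Finsupp.degree_eq_sum]
    rfl
  refine ⟨fun ν' => if ∀ v, (ν' v).2 = (μ v).2 then
    MvPolynomial.coeff (kx ν') (MvPolynomial.monomial c (1 : ℤ) * g) else 0, ?_, ?_, ?_, ?_⟩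
  · show (if ∀ v, (μ v).2 = (μ v).2 then
      MvPolynomial.coeff (kx μ) (MvPolynomial.monomial c (1 : ℤ) * g) else 0) ≠ 0
    rw [if_pos fun _ => rfl, hcf, ← hc, if_pos (le_add_of_nonneg_right zero_le),
      add_tsub_cancel_left]
    exact hlc
  · intro ν' hν
    have hν2 : (if ∀ v, (ν' v).2 = (μ v).2 then
      MvPolynomial.coeff (kx ν') (MvPolynomial.monomial c (1 : ℤ) * g) else 0) ≠ 0 := hν
    by_cases hy : ∀ v, (ν' v).2 = (μ v).2
    · rw [if_pos hy, hcf] at hν2
      by_cases hcl : c ≤ kx ν'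
      · rw [if_pos hcl] at hν2
        have h1 : c + (kx ν' - c) = kx ν' := add_tsub_cancel_of_le hcl
        have h2 := (MonomialOrder.degLex (σ := Fin k)).le_degree (MvPolynomial.mem_support_iff.2 hν2)
        have h3 : ky ν' ≤ ky μ := by
          unfold ky
          rw [← h1, ← hc, map_add, map_add]
          exact add_le_add_right h2 _
        refine ⟨hy, ?_, ?_⟩
        · have h4 := Finsupp.DegLex.monotone_degree h3
          rw [← hksum, ← hksum]
          exact h4
        · rcases eq_or_lt_of_le h3 with h4 | h4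
          · left
            have h5 : kx ν' = kx μ := (MonomialOrder.degLex (σ := Fin k)).toSyn.injective h4
            funext v
            refine Prod.ext ?_ (hy v)
            rw [← hkx, ← hkx, h5]
          · exact Or.inr h4
      · rw [if_neg hcl] at hν2
        exact absurd rfl hν2
    · rw [if_neg hy] at hν2
      exact absurd rfl hν2
  · intro ν'
    have hl0 : 0 ≤ H4AR.l1 g := by
      unfold H4AR.l1
      exact sum_nonneg fun _ _ => abs_nonneg _
    have hall : ∀ e, |((MvPolynomial.coeff e g : ℤ) : ℝ)| ≤ H4AR.l1 g := by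
      intro e
      by_cases he : e ∈ g.support
      · unfold H4AR.l1
        exact single_le_sum (f := fun e => |((MvPolynomial.coeff e g : ℤ) : ℝ)|)
          (fun _ _ => abs_nonneg _) he
      · rw [MvPolynomial.notMem_support_iff.1 he, Int.cast_zero, abs_zero]
        exact hl0
    show |(((if ∀ v, (ν' v).2 = (μ v).2 then
      MvPolynomial.coeff (kx ν') (MvPolynomial.monomial c (1 : ℤ) * g) else 0 : ℤ)) : ℝ)| ≤ _
    split_ifs with hy
    · rw [hcf]
      split_ifs with hcl
      · exact hall _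
      · rw [Int.cast_zero, abs_zero]
        exact hl0
    · rw [Int.cast_zero, abs_zero]
      exact hl0
  · intro V hV
    have hinj : Function.Injective
        (fun (d : Fin k →₀ ℕ) (v : Fin k) => ((d v, (μ v).2) : ℕ × ℕ)) := by
      intro d d' hdd
      ext v
      exact congrArg Prod.fst (congrFun hdd v)
    have hkd : ∀ d : Fin k →₀ ℕ, kx (fun v => ((d v, (μ v).2) : ℕ × ℕ)) = d := by
      intro d
      ext v
      rfl
    have hsub : (MvPolynomial.monomial c (1 : ℤ) * g).support.image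
        (fun (d : Fin k →₀ ℕ) (v : Fin k) => ((d v, (μ v).2) : ℕ × ℕ)) ⊆ V := by
      intro ν' hν
      obtain ⟨d, hd, rfl⟩ := mem_image.1 hν
      refine hV _ ?_
      show (if ∀ v, (μ v).2 = (μ v).2 then MvPolynomial.coeff (kx fun v => ((d v, (μ v).2) : ℕ × ℕ))
        (MvPolynomial.monomial c (1 : ℤ) * g) else 0) ≠ 0
      rw [if_pos fun _ => rfl, hkd]
      exact MvPolynomial.mem_support_iff.1 hd
    rw [← sum_subset hsub, sum_image fun a _ b _ hab => hinj hab]
    · have h1 : ∀ d ∈ (MvPolynomial.monomial c (1 : ℤ) * g).support,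
          (if ∀ v, (μ v).2 = (μ v).2 then
            MvPolynomial.coeff (kx fun v => ((d v, (μ v).2) : ℕ × ℕ))
              (MvPolynomial.monomial c (1 : ℤ) * g) else 0) *
            mv P (fun v => ((d v, (μ v).2) : ℕ × ℕ)) =
          (∏ v, (P v).y ^ (μ v).2) *
            (MvPolynomial.coeff d (MvPolynomial.monomial c (1 : ℤ) * g) * ∏ v, (P v).x ^ d v) := by
        intro d _
        rw [if_pos fun _ => rfl, hkd, mv, prod_mul_distrib]
        ring
      refine (sum_congr rfl h1).trans ?_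
      rw [← mul_sum, ← MvPolynomial.eval_eq', map_mul, h0, mul_zero, mul_zero]
    · intro ν' _ hν
      by_contra hne
      apply hν
      have hr : (if ∀ v, (ν' v).2 = (μ v).2 then
          MvPolynomial.coeff (kx ν') (MvPolynomial.monomial c (1 : ℤ) * g) else 0) ≠ 0 := by
        intro h0'
        apply hne
        show (if ∀ v, (ν' v).2 = (μ v).2 then
          MvPolynomial.coeff (kx ν') (MvPolynomial.monomial c (1 : ℤ) * g) else 0) * mv P ν' = 0
        rw [h0', zero_mul]
      by_cases hy : ∀ v, (ν' v).2 = (μ v).2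
      · rw [if_pos hy] at hr
        refine mem_image.2 ⟨kx ν', MvPolynomial.mem_support_iff.2 hr, ?_⟩
        funext v
        exact Prod.ext rfl (hy v).symm
      · rw [if_neg hy] at hr
        exact absurd rfl hr

end Pool.Agent.H97.FC
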