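import Pool.Agent.H97.FC.GRD

/-! # [H97 FC GR3] The number of standard monomials

`St_card`: `St k Dt E A0 ⊆ ⋃_(S ∈ univ.powerset, S.card ≤ 3) W S`, `W S = Fintype.piFinset fun v => (if v ∈ S then range (Dt + 1) else range A0) ×ˢ range E` (take `S = univ.filter fun v => A0 ≤ (μ v).1`; `(μ v).1 ≤ Dt` from `bxs`). `card (W S) = ∏_v (if v ∈ S then Dt + 1 else A0) * E ≤ (Dt+1)^3 * A0^k * E^k`
(`Finset.prod_ite`/`prod_mul_distrib`; `(Dt+1)^(S.card) ≤ (Dt+1)^3`, `A0^(card of the complement) ≤ A0^k` as `1 ≤ A0`). There are at most `2^k` sets `S` (`card_biUnion_le_card_mul`, `Finset.card_powerset`, `card_filter_le`).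
`Vt_card`: `Vt ⊆ bxs (fun _ => Dt) E`, `Fintype.card_piFinset`, `card_product`, `card_range`. -/

namespace Pool.Agent.H97.FC

open Finset

theorem St_card (k Dt E A0 : ℕ) (hA : 1 ≤ A0) :
    (St k Dt E A0).card ≤ 2 ^ k * (Dt + 1) ^ 3 * A0 ^ k * E ^ k := by
  classical
  have hsub : St k Dt E A0 ⊆
      ((univ : Finset (Finset (Fin k))).filter fun S => S.card ≤ 3).biUnion fun S =>
        Fintype.piFinset fun v => (if v ∈ S then range (Dt + 1) else range A0) ×ˢ range E := by
    intro μ hμ
    rw [St, mem_filter, Vt, mem_filter, bxs, Fintype.mem_piFinset] at hμ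
    obtain ⟨⟨h1, h2⟩, h3⟩ := hμ
    refine mem_biUnion.2 ⟨univ.filter fun v => A0 ≤ (μ v).1, mem_filter.2 ⟨mem_univ _, h3⟩, ?_⟩
    rw [Fintype.mem_piFinset]
    intro v
    have h4 := mem_product.1 (h1 v)
    refine mem_product.2 ⟨?_, h4.2⟩
    split_ifs with hv
    · exact h4.1
    · rw [mem_range]
      by_contra hc
      exact hv (mem_filter.2 ⟨mem_univ _, not_lt.1 hc⟩)
  have hWc : ∀ S ∈ (univ : Finset (Finset (Fin k))).filter (fun S => S.card ≤ 3),
      (Fintype.piFinset fun v => (if v ∈ S then range (Dt + 1) else range A0) ×ˢ range E).card ≤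
        (Dt + 1) ^ 3 * A0 ^ k * E ^ k := by
    intro S hS
    have hS3 := (mem_filter.1 hS).2
    rw [Fintype.card_piFinset]
    have h5 : ∀ v ∈ (univ : Finset (Fin k)),
        ((if v ∈ S then range (Dt + 1) else range A0) ×ˢ range E).card =
          (if v ∈ S then Dt + 1 else A0) * E := by
      intro v _
      rw [card_product, card_range]
      split_ifs <;> rw [card_range]
    rw [prod_congr rfl h5, prod_mul_distrib, prod_const, card_univ, Fintype.card_fin]
    refine Nat.mul_le_mul_right _ ?_
    rw [prod_ite, prod_const, prod_const]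
    refine Nat.mul_le_mul ?_ ?_
    · refine Nat.pow_le_pow_right (by omega) ?_
      have h6 : (univ.filter fun v => v ∈ S) = S := by
        ext v
        simp
      rw [h6]
      exact hS3
    · refine Nat.pow_le_pow_right hA ?_
      refine (card_filter_le _ _).trans ?_
      rw [card_univ, Fintype.card_fin]
  calc (St k Dt E A0).card ≤ _ := card_le_card hsub
    _ ≤ _ := card_biUnion_le_card_mul _ _ _ hWc
    _ ≤ 2 ^ k * ((Dt + 1) ^ 3 * A0 ^ k * E ^ k) := by
        refine Nat.mul_le_mul_right _ ?_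
        refine (card_filter_le _ _).trans ?_
        rw [card_univ, Fintype.card_finset, Fintype.card_fin]
    _ = _ := by ring

theorem Vt_card (k Dt E : ℕ) : (Vt k Dt E).card ≤ ((Dt + 1) * E) ^ k := by
  refine (card_le_card (filter_subset _ _)).trans ?_
  rw [bxs, Fintype.card_piFinset, prod_congr rfl fun v _ => card_product _ _, prod_const, card_univ,
    Fintype.card_fin, card_range, card_range]

end Pool.Agent.H97.FC
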