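import Pool.Agent.H97.FC.GR1
import Pool.Agent.H97.FC.GR2
import Pool.Agent.H97.FC.GR3
import Pool.Agent.H98.FF.RP

/-! # [H97 FC GR4] A free set of monomials at points all of whose 4-tuples are special is small

By contradiction: `St_card` gives `(St k Dt E A0).card < B.card`. For `μ ∈ Vt \ St` the set `{v | A0 ≤ (μ v).1}` has at least 4 elements: choose an injective `s : Fin 4 → Fin k` into it (`Finset.exists_subset_card_eq`, `Finset.orderEmbOfFin`), `g` from `hsp s`, `g' = MvPolynomial.rename s g`: `g' ≠ 0` (`rename_injective`), `degreeOf v g' ≤ (μ v).1`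
(`v = s u`: `MvPolynomial.degreeOf_rename_of_injective`, `≤ A0`; `v` not in the range of `s`: `0`, e.g. `v ∉ vars`, `MvPolynomial.vars_rename`, `degreeOf_eq_zero_iff`), `eval x g' = eval (x ∘ s) g = 0` (`MvPolynomial.eval_rename`), `l1 g' = l1 g ≤ h` (`l1_rename`, used in `Pool/Agent/H98/FF/RP.lean`).
`rel_tri` for `g', μ` gives the vector `r μ` (choose for all `μ`, `0` outside); `r μ ν' ≠ 0` implies `ν' ∈ Vt` (`y`-part `< E`, sum `≤ ∑ (μ v).1 ≤ Dt`, hence every `(ν' v).1 ≤ Dt`). `|r μ ν'| ≤ h` as integers. `dep_tri` with `V = Vt k Dt E`, `St`, `key = ky`: `c`. `2 card V h ≤ 2 ((Dt+1) E)^k h` and the exponent is `≤ ((Dt+1) E)^k` (`Vt_card`; base `≥ 1`: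
if `card V = 0` then `B` is empty, impossible), so `|c μ| ≤ exp ρ`; `hF` gives `c μ = 0` on `B`: contradiction. -/

namespace Pool.Agent.H97.FC

open Finset Pool.Agent.H97.NW

theorem free_card (k ν A0 : ℕ) (hA0 : 1 ≤ A0) (P : Fin k → Ptd ν) (h : ℕ) (hh : 1 ≤ h)
    (hsp : ∀ s : Fin 4 → Fin k, Function.Injective s → ∃ g : MvPolynomial (Fin 4) ℤ, g ≠ 0 ∧
      (∀ v, g.degreeOf v ≤ A0) ∧ H4AR.l1 g ≤ (h : ℝ) ∧
      MvPolynomial.eval (fun u => (P (s u)).x) g = 0)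
    (Dt E : ℕ) (ρ : ℝ)
    (hρ : (((2 * ((Dt + 1) * E) ^ k * h) ^ (((Dt + 1) * E) ^ k) : ℕ) : ℝ) ≤ Real.exp ρ)
    (B : Finset (Fin k → ℕ × ℕ)) (hB : B ⊆ Vt k Dt E) (hF : Fre (mv P) ρ B) :
    B.card ≤ 2 ^ k * (Dt + 1) ^ 3 * A0 ^ k * E ^ k := by
  classical
  by_contra hcon
  have hSc := St_card k Dt E A0 hA0
  have hcard : (St k Dt E A0).card < B.card := lt_of_le_of_lt hSc (not_le.1 hcon)
  have hex : ∀ μ : Fin k → ℕ × ℕ, ∃ r : (Fin k → ℕ × ℕ) → ℤ, μ ∈ Vt k Dt E \ St k Dt E A0 →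
      (r μ ≠ 0 ∧ (∀ ν', r ν' ≠ 0 → (∀ v, (ν' v).2 = (μ v).2) ∧ ∑ v, (ν' v).1 ≤ ∑ v, (μ v).1 ∧
        (ν' = μ ∨ ky ν' < ky μ)) ∧
      (∀ ν', |((r ν' : ℤ) : ℝ)| ≤ (h : ℝ)) ∧
      ∀ V : Finset (Fin k → ℕ × ℕ), (∀ ν', r ν' ≠ 0 → ν' ∈ V) →
        ∑ ν' ∈ V, r ν' * mv P ν' = 0) := by
    intro μ
    by_cases hμ : μ ∈ Vt k Dt E \ St k Dt E A0
    · obtain ⟨hμV, hμS⟩ := mem_sdiff.1 hμ
      have h4 : 4 ≤ (univ.filter fun v => A0 ≤ (μ v).1).card := by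
        by_contra hc
        exact hμS (mem_filter.2 ⟨hμV, by omega⟩)
      obtain ⟨S, hSs, hS4⟩ := exists_subset_card_eq h4
      have hinj : Function.Injective (S.orderEmbOfFin hS4) := (S.orderEmbOfFin hS4).injective
      have hrange : ∀ u, A0 ≤ (μ (S.orderEmbOfFin hS4 u)).1 := fun u =>
        (mem_filter.1 (hSs (S.orderEmbOfFin_mem hS4 u))).2
      obtain ⟨g, hg, hgd, hgl, hg0⟩ := hsp _ hinj
      have hg' : MvPolynomial.rename (S.orderEmbOfFin hS4) g ≠ 0 := by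
        intro h0
        exact hg (MvPolynomial.rename_injective _ hinj (h0.trans (map_zero _).symm))
      have hd' : ∀ v, (MvPolynomial.rename (S.orderEmbOfFin hS4) g).degreeOf v ≤ (μ v).1 := by
        intro v
        by_cases hv : ∃ u, S.orderEmbOfFin hS4 u = v
        · obtain ⟨u, rfl⟩ := hv
          rw [MvPolynomial.degreeOf_rename_of_injective hinj]
          exact (hgd u).trans (hrange u)
        · push Not at hv
          rw [Pool.Agent.H98.FF.degreeOf_rename_notMem g v hv]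
          exact Nat.zero_le _
      have he' : MvPolynomial.eval (fun v => (P v).x)
          (MvPolynomial.rename (S.orderEmbOfFin hS4) g) = 0 := by
        rw [MvPolynomial.eval_rename]
        exact hg0
      obtain ⟨r, h1, h2, h3, h5⟩ := rel_tri P _ hg' he' μ hd'
      refine ⟨r, fun _ => ⟨h1, h2, fun ν' => (h3 ν').trans ?_, h5⟩⟩
      rw [Pool.Agent.H98.FF.l1_rename hinj]
      exact hgl
    · exact ⟨fun _ => 0, fun h => absurd h hμ⟩
  choose r hr using hex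
  have hrV : ∀ μ ∈ Vt k Dt E \ St k Dt E A0, ∀ ν', r μ ν' ≠ 0 → ν' ∈ Vt k Dt E := by
    intro μ hμ ν' hν
    obtain ⟨h1, h2, -⟩ := (hr μ hμ).2.1 ν' hν
    have hμV := (mem_sdiff.1 hμ).1
    rw [Vt, mem_filter, bxs, Fintype.mem_piFinset] at hμV ⊢
    refine ⟨fun v => mem_product.2 ⟨mem_range.2 ?_, ?_⟩, h2.trans hμV.2⟩
    · have h3 : (ν' v).1 ≤ ∑ v, (ν' v).1 :=
        single_le_sum (f := fun v => (ν' v).1) (fun _ _ => Nat.zero_le _) (mem_univ v)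
      have h4 := h2.trans hμV.2
      omega
    · rw [h1 v]
      exact (mem_product.1 (hμV.1 v)).2
  obtain ⟨c, hc1, hc2, hc3⟩ := dep_tri (Vt k Dt E) (St k Dt E A0) B hB (filter_subset _ _)
    (mv P) r ky h hh (fun μ hμ => (hr μ hμ).1)
    (fun μ hμ ν' hν => ⟨hrV μ hμ ν' hν, ((hr μ hμ).2.1 ν' hν).2.2⟩)
    (fun μ hμ ν' => by
      have h1 := (hr μ hμ).2.2.1 ν'
      exact_mod_cast h1)
    (fun μ hμ => (hr μ hμ).2.2.2 _ (hrV μ hμ)) hcard
  obtain ⟨μ0, hμ0, hne⟩ := hc3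
  refine hne (hF c ?_ hc2 μ0 hμ0)
  intro μ hμ
  have h1 := hc1 μ hμ
  have hVc := Vt_card k Dt E
  have hV1 : 1 ≤ (Vt k Dt E).card := card_pos.2 ⟨μ0, hB hμ0⟩
  have h2 : (2 * (Vt k Dt E).card * h) ^ (Vt k Dt E).card ≤
      (2 * ((Dt + 1) * E) ^ k * h) ^ (((Dt + 1) * E) ^ k) := by
    have h3 : 2 * (Vt k Dt E).card * h ≤ 2 * ((Dt + 1) * E) ^ k * h :=
      Nat.mul_le_mul_right _ (Nat.mul_le_mul_left _ hVc)
    refine (Nat.pow_le_pow_left h3 _).trans (Nat.pow_le_pow_right ?_ hVc)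
    have h4 : 1 ≤ ((Dt + 1) * E) ^ k := hV1.trans hVc
    have h5 : 1 * 1 ≤ 2 * ((Dt + 1) * E) ^ k * h := Nat.mul_le_mul (by omega) hh
    omega
  have h6 : |((c μ : ℤ) : ℝ)| ≤ (((2 * (Vt k Dt E).card * h) ^ (Vt k Dt E).card : ℕ) : ℝ) := by
    exact_mod_cast h1
  refine h6.trans (le_trans ?_ hρ)
  exact_mod_cast h2

end Pool.Agent.H97.FC
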