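import Pool.Agent.H97.FC.KEY
import Pool.Agent.H97.FC.GR4

/-! # [H97 FC NOC] A cluster is impossible

CONSTANTS. `K0` from `key ν Q0 n k .. R1` (`1 ≤ K0`), `Kn := ⌈K0⌉₊ * ν` (natural, `≥ 1`), `C1 = 4 k`. `K : ℕ` (number of scales) with `2 ^ k * (k * Kn + 1) ^ 3 * (A0+1) ^ k * ((K + 1) * ν) ^ k < 2 ^ K` (exponential beats polynomial: prove `∃ K, c * (K + 1) ^ k < 2 ^ K` once, e.g. from `tendsto_pow_const_div_const_pow_of_one_lt` or `Nat` induction).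
`K2 := Kn * C1 ^ K`, `E0 := (K + 1) * ν`. RECURSION: `ρ 0 = 1`, `ρ (j+1)` = the `ρ'` of `key` for `K2, E0, ρ j`; `cc j` its `c` (define a function `ρ ↦ (ρ', c)` with `choose` on `∀ ρ > 0`, then iterate, `0 < ρ j` for all `j`). `N := ((Dt + 1) * EK) ^ k` with `Dt := k * (Kn * C1 ^ K)`, `EK := E0`.
`c0 := ⌈2 N R1 / ρ K⌉₊ + 1`, `c := max (∑ j ∈ range K, cc j) (cA ν) + ⌈4 N (N + 1) / ρ K⌉₊ + 4` (large enough for `N log (2 N) ≤ ρ K L / 2`, where `L ≥ c log 2 ≥ c / 2`, `log (2 N) ≤ 2 N`); `cA ν ≤ c`. `Scl c` implies `Scl c'` for `c' ≤ c` (see `prx_scl` in `FB/PRX.lean`).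
PROOF. `0 < k`, `L := min_v ell` (`Finset.exists_min_image` over `univ`): `L ≤ ell_v ≤ R1 L`, `0 < L` (`Ptd.ell_ge`, as `hell0` in `FB/BK2.lean`). `Y j := Kn * C1 ^ j * L`, `E j := (j + 1) * ν`. `K0 * E j * L ≤ Y j` as `j + 1 ≤ C1 ^ j`; `Y j ≤ K2 L` for `j ≤ K`; `Y (j+1) = 4 * k * Y j`; `E (j+1) = E j + ν`.
FREE SETS: for `j ≤ K` let `B j` be a subset of `bxs (Df P (Y j)) (E j)` with `Fre (mv P) (ρ j * L)` of maximal cardinality (`Finset.exists_max_image` over the powerset filtered; the empty set is free). LEMMA (general `w, ρ ≥ 0, S`): if `B ⊆ S` is free and maximal in `S` then every `μ ∈ S` satisfies `Dep w ρ B μ`: if `μ ∈ B` take `a = 1`, `c = Pi.single μ 1` (`1 ≤ exp ρ`); otherwise `insert μ B` is not free, so there is `c` with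
`c` bounded on `insert μ B`, `∑ = 0`, not all zero on `insert μ B`; `c μ ≠ 0` (otherwise a relation of `B`), so `a = c μ` and `- c`. `B 0` is not empty: otherwise `{0}` (the monomial `1`, `mv P 0 = 1`, it lies in the box since `1 ≤ E 0`) is free and bigger. So `1 ≤ (B 0).card`.
`key` (for `j < K`, with `B j`, `B' = B (j+1)`): `n^k (B j).card ≤ 100 n (k+3) (B (j+1)).card`. With `hnk`: `200 n (k+3) C1^3 (B j).card ≤ n^k (B j).card ≤ 100 n (k+3) (B (j+1)).card`, so `2 C1^3 (B j).card ≤ (B (j+1)).card`; by induction `(2 C1^3)^j ≤ (B j).card`.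
UPPER BOUND: `free_card` for `j = K`, with `A0 + 1` instead of `A0` (so `1 ≤ A0 + 1`), `h := ⌊exp (R1 L / c0)⌋₊` (`1 ≤ h` as `0 ≤ R1 L / c0`), `ρ := ρ K * L`. `hsp`: from `SpcM A0 c0`: `l1 g ^ c0 ≤ |x_v|`, so `l1 g ≤ exp (ell_v / c0) ≤ exp (R1 L / c0)` (`1 ≤ l1 g`: `H4AR.one_le_l1`; logarithms), `l1 g` is a natural number (cast; or use that it is the cast of an integer), so `l1 g ≤ h` (`Nat.le_floor`).
`hρ`: `2 N h ≤ 2 N exp (R1 L / c0)`, power `N`: `≤ exp (N log (2 N) + N R1 L / c0) ≤ exp (ρ K L / 2 + ρ K L / 2)` (`N R1 / c0 ≤ ρ K / 2`). `B K ⊆ Vt k Dt EK`: `a_v ≤ Df = ⌊Y K / ell_v⌋ ≤ Kn C1^K` (`ell_v ≥ L`), so every `a_v ≤ Kn C1^K ≤ Dt` and `∑ a_v ≤ k Kn C1^K = Dt`.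
So `(2 C1^3)^K ≤ 2^k (Dt + 1)^3 (A0+1)^k EK^k` and `Dt + 1 ≤ (k Kn + 1) C1^K`: `2^K C1^(3K) ≤ 2^k (k Kn + 1)^3 C1^(3K) (A0+1)^k ((K+1) ν)^k`: contradiction with the choice of `K`. -/

namespace Pool.Agent.H97.FC

open Finset Polynomial Pool.Agent.H72.ES Pool.Agent.H87.SA Pool.Agent.H87.SA2 Pool.Agent.H87.AX
  Pool.Agent.H8.AW Pool.Agent.H52.AC Pool.Agent.H97.NW Pool.Agent.H8.RZ Pool.Agent.H97.FB

/-- a maximal free set spans -/
theorem dep_of_max {ι : Type} [DecidableEq ι] (w : ι → ℤ) {ρ : ℝ} (hρ : 0 ≤ ρ) (S B : Finset ι)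
    (hF : Fre w ρ B) (hmax : ∀ B' ⊆ S, Fre w ρ B' → B'.card ≤ B.card) (hBS : B ⊆ S) (μ : ι)
    (hμ : μ ∈ S) : Dep w ρ B μ := by
  have he : (1 : ℝ) ≤ Real.exp ρ := Real.one_le_exp hρ
  by_cases hB : μ ∈ B
  · refine ⟨1, fun ν => if ν = μ then 1 else 0, one_ne_zero, by simpa using he, ?_, ?_⟩
    · intro ν _
      show |(((if ν = μ then 1 else 0 : ℤ)) : ℝ)| ≤ Real.exp ρ
      by_cases h : ν = μ
      · rw [if_pos h]
        simpa using he
      · rw [if_neg h]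
        simpa using (Real.exp_pos ρ).le
    · show 1 * w μ = ∑ ν ∈ B, (if ν = μ then 1 else 0 : ℤ) * w ν
      rw [sum_eq_single μ]
      · rw [if_pos rfl]
      · intro ν _ hne
        rw [if_neg hne, zero_mul]
      · intro h
        exact absurd hB h
  · have hnf : ¬ Fre w ρ (insert μ B) := by
      intro h
      have h1 := hmax (insert μ B) (insert_subset hμ hBS) h
      rw [card_insert_of_notMem hB] at h1
      omega
    unfold Fre at hnf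
    push Not at hnf
    obtain ⟨c, hc, hs, ν, hν, hne⟩ := hnf
    have hcμ : c μ ≠ 0 := by
      intro h0
      rw [sum_insert hB, h0, zero_mul, zero_add] at hs
      have h1 := hF c (fun ν hν => hc ν (mem_insert_of_mem hν)) hs
      rcases mem_insert.1 hν with rfl | h
      · exact hne h0
      · exact hne (h1 ν h)
    refine ⟨c μ, fun ν => -c ν, hcμ, hc μ (mem_insert_self _ _), fun ν hν => ?_, ?_⟩
    · push_cast
      rw [abs_neg]
      exact hc ν (mem_insert_of_mem hν)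
    · rw [sum_insert hB] at hs
      simp only [neg_mul, sum_neg_distrib]
      linarith

theorem noc_scale (c k : ℕ) : ∃ K : ℕ, c * (K + 1) ^ k < 2 ^ K := by
  have h1 := tendsto_pow_const_div_const_pow_of_one_lt k (r := (2 : ℝ)) (by norm_num)
  have hpos : (0 : ℝ) < 1 / (2 * (c + 1)) := by positivity
  obtain ⟨N, hN⟩ := Filter.eventually_atTop.1 (h1.eventually (gt_mem_nhds hpos))
  refine ⟨N, ?_⟩
  have h2 := hN (N + 1) (by omega)
  rw [div_lt_div_iff₀ (by positivity) (by positivity), one_mul, pow_succ (2 : ℝ)] at h2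
  have h3 : (c : ℝ) * ((N : ℝ) + 1) ^ k < 2 ^ N := by
    have h4 : (0 : ℝ) ≤ ((N : ℝ) + 1) ^ k := by positivity
    push_cast at h2
    nlinarith
  exact_mod_cast h3

private theorem noc_scl {ν k c c' : ℕ} {X0 R : ℝ} {P : Fin k → Ptd ν} (h : Scl c X0 R P)
    (hc : c' ≤ c) (hR : 2 ≤ R) : Scl c' X0 R P := by
  have h1 : (1 : ℝ) ≤ 2 * R := by linarith
  have h2 : (1 : ℝ) ≤ X0 := (one_le_pow₀ h1).trans h.RX
  refine ⟨(pow_le_pow_right₀ h1 hc).trans h.RX, fun v => (P v).thr_mono hc (h.thr v), fun v => ?_⟩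
  refine le_trans ?_ (h.low v)
  exact mul_le_mul_of_nonneg_right (by exact_mod_cast hc) (Real.log_nonneg h2)

private theorem noc_max {ι : Type} [DecidableEq ι] (w : ι → ℤ) (ρ : ℝ) (S : Finset ι) :
    ∃ B ⊆ S, Fre w ρ B ∧ ∀ B' ⊆ S, Fre w ρ B' → B'.card ≤ B.card := by
  classical
  obtain ⟨B, hB, hmax⟩ := exists_max_image (S.powerset.filter fun B => Fre w ρ B) card
    ⟨∅, mem_filter.2 ⟨mem_powerset.2 (empty_subset _), fun c _ _ μ hμ => absurd hμ (notMem_empty μ)⟩⟩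
  obtain ⟨h1, h2⟩ := mem_filter.1 hB
  refine ⟨B, mem_powerset.1 h1, h2, fun B' hB' hF' => ?_⟩
  exact hmax B' (mem_filter.2 ⟨mem_powerset.2 hB', hF'⟩)

private theorem noc_exp {N c0 h : ℕ} {ρ R1 L : ℝ} (hc0 : 1 ≤ c0)
    (h1 : 2 * N * R1 ≤ ρ * c0) (h2 : 4 * (N : ℝ) ^ 2 ≤ ρ * L) (hL : 0 ≤ L)
    (hh : (h : ℝ) ≤ Real.exp (R1 * L / c0)) :
    (((2 * N * h) ^ N : ℕ) : ℝ) ≤ Real.exp (ρ * L) := by
  have hc : (0 : ℝ) < c0 := by exact_mod_cast hc0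
  have h3 : ((2 * N : ℕ) : ℝ) ≤ Real.exp (2 * N) := by
    push_cast
    linarith [Real.add_one_le_exp (2 * (N : ℝ))]
  have h4 : (((2 * N * h) ^ N : ℕ) : ℝ) ≤ (Real.exp (2 * N) * Real.exp (R1 * L / c0)) ^ N := by
    push_cast
    push_cast at h3
    gcongr
  refine h4.trans ?_
  rw [← Real.exp_add, ← Real.exp_nat_mul]
  apply Real.exp_le_exp.2
  have h5 : N * (R1 * L / c0) ≤ ρ * L / 2 := by
    rw [mul_div_assoc', div_le_iff₀ hc]
    nlinarith [mul_le_mul_of_nonneg_right h1 hL]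
  nlinarith

private theorem noc_l1 (g : MvPolynomial (Fin 4) ℤ) : ∃ N : ℕ, H4AR.l1 g = N := by
  refine ⟨∑ e ∈ g.support, (MvPolynomial.coeff e g).natAbs, ?_⟩
  unfold H4AR.l1
  push_cast
  refine sum_congr rfl fun e _ => ?_
  rw [Nat.cast_natAbs, Int.cast_abs]

theorem no_cluster (ν Q0 n k A0 : ℕ) (hν : 4 ≤ ν) (hn : 1 ≤ n) (hk : 4 ≤ k)
    (hnk : 200 * n * (k + 3) * (4 * k) ^ 3 < n ^ k) (R1 : ℝ) (hR1 : 1 ≤ R1) : ∃ c0 c : ℕ,
    ∀ {Dn Dl κ e M : ℕ} {X0 R : ℝ} (an : AnchX Dn Dl κ e M X0 R) {θ : Fin k → Fin n → ℂ}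
      (_ : DiagM an θ) (P : Fin k → Ptd ν) (l : Fin n) (_ : LabM θ P l) (H : ℝ),
      Bnd Q0 Dn Dl κ e M X0 R → Scl c X0 R P → 1 ≤ H → (∀ v i, ‖θ v i‖ ≤ H) →
      (∀ v, c * Real.log H ≤ (P v).ell) → (∀ v w, (P v).ell ≤ R1 * (P w).ell) →
      (∀ s : Fin 4 → Fin k, Function.Injective s → SpcM A0 c0 fun u => (P (s u)).x) → False := by
  classical
  obtain ⟨K0, hK0, hkey⟩ := key ν Q0 n k hν hn hk R1 hR1
  obtain ⟨Kn, hKn⟩ : ∃ Kn : ℕ, Kn = ⌈K0⌉₊ * ν := ⟨_, rfl⟩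
  have hKc : 1 ≤ ⌈K0⌉₊ := Nat.one_le_iff_ne_zero.2 (by
    intro h0
    have := Nat.le_ceil K0
    rw [h0, Nat.cast_zero] at this
    linarith)
  have hKn1 : 1 ≤ Kn := by
    rw [hKn]
    exact Nat.mul_pos hKc (by omega)
  obtain ⟨C1, hC1⟩ : ∃ C1 : ℕ, C1 = 4 * k := ⟨_, rfl⟩
  obtain ⟨K, hK⟩ := noc_scale (2 ^ k * (k * Kn + 1) ^ 3 * (A0 + 1) ^ k * ν ^ k) k
  obtain ⟨E0, hE0⟩ : ∃ E0 : ℕ, E0 = (K + 1) * ν := ⟨_, rfl⟩
  have hk2 := hkey ((Kn * C1 ^ K : ℕ) : ℝ) E0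
  choose ρf hρf cf hcf hkk using hk2
  let rs : ℕ → {ρ : ℝ // 0 < ρ} := fun j =>
    Nat.rec ⟨1, one_pos⟩ (fun _ r => ⟨ρf r.1 r.2, hρf r.1 r.2⟩) j
  have hrs : ∀ j, (rs (j + 1)).1 = ρf (rs j).1 (rs j).2 := fun j => rfl
  obtain ⟨Dt, hDt⟩ : ∃ Dt : ℕ, Dt = k * (Kn * C1 ^ K) := ⟨_, rfl⟩
  obtain ⟨N, hN⟩ : ∃ N : ℕ, N = ((Dt + 1) * E0) ^ k := ⟨_, rfl⟩
  obtain ⟨ρK, hρK⟩ : ∃ ρK : ℝ, ρK = (rs K).1 := ⟨_, rfl⟩
  have hρK0 : 0 < ρK := by rw [hρK]; exact (rs K).2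
  refine ⟨⌈2 * N * R1 / ρK⌉₊ + 1,
    ∑ j ∈ range K, cf (rs j).1 (rs j).2 + cA ν + ⌈8 * (N : ℝ) ^ 2 / ρK⌉₊ + 4, ?_⟩
  obtain ⟨c0, hc0⟩ : ∃ c0 : ℕ, c0 = ⌈2 * N * R1 / ρK⌉₊ + 1 := ⟨_, rfl⟩
  obtain ⟨c, hc⟩ : ∃ c : ℕ, c = ∑ j ∈ range K, cf (rs j).1 (rs j).2 + cA ν +
    ⌈8 * (N : ℝ) ^ 2 / ρK⌉₊ + 4 := ⟨_, rfl⟩
  rw [← hc0, ← hc]
  intro Dn Dl κ e M X0 R an θ dg P l lb H hBnd hScl hH hθ hlogH hrat hsp
  have hc04 : 1 ≤ c0 := by omega
  have hcj : ∀ j < K, cf (rs j).1 (rs j).2 ≤ c := by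
    intro j hj
    have h1 : cf (rs j).1 (rs j).2 ≤ ∑ j ∈ range K, cf (rs j).1 (rs j).2 :=
      single_le_sum (f := fun j => cf (rs j).1 (rs j).2) (fun _ _ => Nat.zero_le _) (mem_range.2 hj)
    omega
  -- the smallest point
  have hne : (univ : Finset (Fin k)).Nonempty := ⟨⟨0, by omega⟩, mem_univ _⟩
  obtain ⟨v0, -, hv0⟩ := exists_min_image univ (fun v => (P v).ell) hne
  obtain ⟨L, hL⟩ : ∃ L, L = (P v0).ell := ⟨_, rfl⟩
  have hLc : (c : ℝ) * Real.log 2 ≤ L := by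
    rw [hL]
    exact (Ptd.ell_ge _ (hScl.thr v0)).2
  have hlog2 : (1 : ℝ) / 2 ≤ Real.log 2 := by linarith [Real.log_two_gt_d9]
  have hc4 : (4 : ℝ) ≤ c := by
    have : 4 ≤ c := by omega
    exact_mod_cast this
  have hL2 : (c : ℝ) / 2 ≤ L := by nlinarith
  have hL0 : 0 < L := by linarith
  have hLL : ∀ v, L ≤ (P v).ell ∧ (P v).ell ≤ R1 * L := by
    intro v
    rw [hL]
    exact ⟨hv0 v (mem_univ v), hrat v v0⟩
  have hC1k : 16 ≤ C1 := by omega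
  -- the scales
  obtain ⟨Y, hY⟩ : ∃ Y : ℕ → ℝ, Y = fun j => ((Kn * C1 ^ j : ℕ) : ℝ) * L := ⟨_, rfl⟩
  have hYj : ∀ j, Y j = ((Kn * C1 ^ j : ℕ) : ℝ) * L := fun j => by rw [hY]
  have hYs : ∀ j, 4 * (k : ℝ) * Y j = Y (j + 1) := by
    intro j
    rw [hYj, hYj, pow_succ, hC1]
    push_cast
    ring
  have hex : ∀ j, ∃ B ⊆ bxs (Df P (Y j)) ((j + 1) * ν), Fre (mv P) ((rs j).1 * L) B ∧
      ∀ B' ⊆ bxs (Df P (Y j)) ((j + 1) * ν), Fre (mv P) ((rs j).1 * L) B' → B'.card ≤ B.card :=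
    fun j => noc_max _ _ _
  choose B hBS hBF hBmax using hex
  have hstep : ∀ j < K, n ^ k * (B j).card ≤ 100 * n * (k + 3) * (B (j + 1)).card := by
    intro j hj
    have hj1 : j + 1 ≤ C1 ^ j := Nat.lt_pow_self (by omega)
    refine hkk (rs j).1 (rs j).2 an dg P l lb H L (Y j) ((j + 1) * ν) (B j) (B (j + 1)) hBnd
      (noc_scl hScl (hcj j hj) hBnd.R2) hH hθ ?_ hL0 hLL (Nat.mul_pos (by omega) (by omega)) ?_ ?_ ?_
      (hBS j) (hBF j) ?_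
    · intro v
      refine le_trans ?_ (hlogH v)
      exact mul_le_mul_of_nonneg_right (by exact_mod_cast hcj j hj) (Real.log_nonneg hH)
    · rw [hE0]
      exact Nat.mul_le_mul_right _ (by omega)
    · rw [hYj]
      refine mul_le_mul_of_nonneg_right ?_ hL0.le
      have h1 : K0 ≤ (⌈K0⌉₊ : ℝ) := Nat.le_ceil K0
      have h2 : (((j + 1) * ν : ℕ) : ℝ) ≤ ((C1 ^ j * ν : ℕ) : ℝ) := by
        exact_mod_cast Nat.mul_le_mul_right ν hj1
      calc K0 * (((j + 1) * ν : ℕ) : ℝ) ≤ (⌈K0⌉₊ : ℝ) * ((C1 ^ j * ν : ℕ) : ℝ) :=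
            mul_le_mul h1 h2 (Nat.cast_nonneg _) (Nat.cast_nonneg _)
        _ = ((Kn * C1 ^ j : ℕ) : ℝ) := by
            rw [hKn]
            push_cast
            ring
    · rw [hYj]
      refine mul_le_mul_of_nonneg_right ?_ hL0.le
      exact_mod_cast Nat.mul_le_mul_left Kn (Nat.pow_le_pow_right (by omega) hj.le)
    · intro μ hμ
      rw [hYs j, show (j + 1) * ν + ν = (j + 1 + 1) * ν by ring] at hμ
      have h1 := dep_of_max (mv P) (ρ := (rs (j + 1)).1 * L)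
        (mul_nonneg (rs (j + 1)).2.le hL0.le) _ (B (j + 1)) (hBF (j + 1)) (hBmax (j + 1))
        (hBS (j + 1)) μ hμ
      rw [hrs j] at h1
      exact h1
  -- growth
  have hgrow : ∀ j ≤ K, (2 * C1 ^ 3) ^ j ≤ (B j).card := by
    intro j
    induction j with
    | zero =>
      intro _
      rw [pow_zero]
      have h1 : ({fun _ => (0, 0)} : Finset (Fin k → ℕ × ℕ)) ⊆ bxs (Df P (Y 0)) ((0 + 1) * ν) := by
        rw [singleton_subset_iff, bxs, Fintype.mem_piFinset]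
        intro v
        exact mem_product.2 ⟨mem_range.2 (Nat.succ_pos _), mem_range.2 (by
          show 0 < (0 + 1) * ν
          omega)⟩
      have h2 : Fre (mv P) ((rs 0).1 * L) ({fun _ => (0, 0)} : Finset (Fin k → ℕ × ℕ)) := by
        intro c _ hs μ hμ
        rw [sum_singleton] at hs
        have h3 : mv P (fun _ => (0, 0)) = 1 := by
          unfold mv
          refine prod_eq_one fun v _ => ?_
          rw [pow_zero, pow_zero, one_mul]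
        rw [h3, mul_one] at hs
        rw [mem_singleton.1 hμ]
        exact hs
      have h3 := hBmax 0 _ h1 h2
      rw [card_singleton] at h3
      exact h3
    | succ j ih =>
      intro hj
      have h1 := ih (by omega)
      have h2 := hstep j (by omega)
      have h3 : 0 < 100 * n * (k + 3) := by positivity
      have h4 : 100 * n * (k + 3) * (2 * C1 ^ 3 * (B j).card) ≤
          100 * n * (k + 3) * (B (j + 1)).card := by
        refine le_trans ?_ h2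
        calc 100 * n * (k + 3) * (2 * C1 ^ 3 * (B j).card) =
              (200 * n * (k + 3) * C1 ^ 3) * (B j).card := by ring
          _ ≤ n ^ k * (B j).card := by
              refine Nat.mul_le_mul_right _ ?_
              rw [hC1]
              exact hnk.le
      have h5 := Nat.le_of_mul_le_mul_left h4 h3
      calc (2 * C1 ^ 3) ^ (j + 1) = 2 * C1 ^ 3 * (2 * C1 ^ 3) ^ j := by rw [pow_succ, mul_comm]
        _ ≤ 2 * C1 ^ 3 * (B j).card := Nat.mul_le_mul_left _ h1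
        _ ≤ _ := h5
  -- the upper bound
  obtain ⟨h, hh⟩ : ∃ h : ℕ, h = ⌊Real.exp (R1 * L / c0)⌋₊ := ⟨_, rfl⟩
  have hc0pos : (0 : ℝ) < c0 := by exact_mod_cast hc04
  have hexp : (0 : ℝ) ≤ R1 * L / c0 := by positivity
  have hh1 : 1 ≤ h := by
    rw [hh]
    refine Nat.le_floor ?_
    rw [Nat.cast_one]
    exact Real.one_le_exp hexp
  have hhle : (h : ℝ) ≤ Real.exp (R1 * L / c0) := by
    rw [hh]
    exact Nat.floor_le (Real.exp_pos _).le
  have hsp' : ∀ s : Fin 4 → Fin k, Function.Injective s → ∃ g : MvPolynomial (Fin 4) ℤ, g ≠ 0 ∧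
      (∀ v, g.degreeOf v ≤ A0 + 1) ∧ H4AR.l1 g ≤ (h : ℝ) ∧
      MvPolynomial.eval (fun u => (P (s u)).x) g = 0 := by
    intro s hs
    obtain ⟨g, hg, hgd, hgl, hg0⟩ := hsp s hs
    refine ⟨g, hg, fun v => (hgd v).trans (Nat.le_succ _), ?_, hg0⟩
    have h1 : 1 ≤ H4AR.l1 g := H4AR.one_le_l1 hg
    have h2 : (H4AR.l1 g) ^ c0 ≤ |((P (s 0)).x : ℝ)| := hgl 0
    have h3 : (c0 : ℝ) * Real.log (H4AR.l1 g) ≤ R1 * L := by
      rw [← Real.log_pow]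
      refine le_trans (Real.log_le_log (pow_pos (by linarith) c0) h2) ?_
      exact (hLL (s 0)).2
    have h4 : Real.log (H4AR.l1 g) ≤ R1 * L / c0 := by
      rw [le_div_iff₀ hc0pos]
      linarith
    have h5 : H4AR.l1 g ≤ Real.exp (R1 * L / c0) :=
      (Real.log_le_iff_le_exp (by linarith)).1 h4
    obtain ⟨N1, hN1⟩ := noc_l1 g
    rw [hN1] at h5 ⊢
    rw [hh]
    exact_mod_cast Nat.le_floor h5
  have hup : (B K).card ≤ 2 ^ k * (Dt + 1) ^ 3 * (A0 + 1) ^ k * E0 ^ k := by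
    refine free_card k ν (A0 + 1) (by omega) P h hh1 hsp' Dt E0 (ρK * L) ?_ (B K) ?_ ?_
    · rw [← hN]
      refine noc_exp hc04 ?_ ?_ hL0.le hhle
      · have h1 : 2 * N * R1 / ρK ≤ c0 := by
          rw [hc0]
          push_cast
          linarith [Nat.le_ceil (2 * N * R1 / ρK)]
        rw [div_le_iff₀ hρK0] at h1
        linarith
      · have h1 : 8 * (N : ℝ) ^ 2 / ρK ≤ c := by
          refine (Nat.le_ceil _).trans ?_
          have : ⌈8 * (N : ℝ) ^ 2 / ρK⌉₊ ≤ c := by omega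
          exact_mod_cast this
        rw [div_le_iff₀ hρK0] at h1
        have h2 := mul_le_mul_of_nonneg_left hL2 hρK0.le
        linarith
    · intro μ hμ
      have h1 := hBS K hμ
      rw [bxs, Fintype.mem_piFinset] at h1
      have h2 : ∀ v, (μ v).1 ≤ Kn * C1 ^ K := by
        intro v
        have h3 := mem_range.1 (mem_product.1 (h1 v)).1
        have h4 : Df P (Y K) v ≤ Kn * C1 ^ K := by
          unfold Df
          refine Nat.floor_le_of_le ?_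
          have h5 := (hLL v).1
          rw [hYj, div_le_iff₀ (lt_of_lt_of_le hL0 h5)]
          exact mul_le_mul_of_nonneg_left h5 (Nat.cast_nonneg _)
        omega
      have h3 : ∑ v, (μ v).1 ≤ Dt := by
        calc ∑ v, (μ v).1 ≤ ∑ _v : Fin k, Kn * C1 ^ K := sum_le_sum fun v _ => h2 v
          _ = Dt := by rw [sum_const, card_univ, Fintype.card_fin, smul_eq_mul, hDt]
      rw [Vt, mem_filter, bxs, Fintype.mem_piFinset]
      refine ⟨fun v => mem_product.2 ⟨mem_range.2 ?_, ?_⟩, h3⟩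
      · have h4 : (μ v).1 ≤ ∑ v, (μ v).1 :=
          single_le_sum (f := fun v => (μ v).1) (fun _ _ => Nat.zero_le _) (mem_univ v)
        omega
      · rw [hE0]
        exact (mem_product.1 (h1 v)).2
    · rw [hρK]
      exact hBF K
  have hlow := hgrow K le_rfl
  have hDt1 : Dt + 1 ≤ (k * Kn + 1) * C1 ^ K := by
    have h1 : 1 ≤ C1 ^ K := Nat.one_le_pow _ _ (by omega)
    rw [hDt]
    calc k * (Kn * C1 ^ K) + 1 ≤ k * Kn * C1 ^ K + C1 ^ K := by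
          rw [mul_assoc]
          omega
      _ = (k * Kn + 1) * C1 ^ K := by ring
  have hfin : 2 ^ k * (Dt + 1) ^ 3 * (A0 + 1) ^ k * E0 ^ k < (2 * C1 ^ 3) ^ K := by
    have h1 : 2 ^ k * (Dt + 1) ^ 3 * (A0 + 1) ^ k * E0 ^ k ≤
        2 ^ k * ((k * Kn + 1) * C1 ^ K) ^ 3 * (A0 + 1) ^ k * E0 ^ k := by gcongr
    have h2 : 2 ^ k * ((k * Kn + 1) * C1 ^ K) ^ 3 * (A0 + 1) ^ k * E0 ^ k =
        (2 ^ k * (k * Kn + 1) ^ 3 * (A0 + 1) ^ k * ν ^ k * (K + 1) ^ k) * (C1 ^ K) ^ 3 := by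
      rw [hE0, mul_pow, mul_pow]
      ring
    have h3 : 0 < (C1 ^ K) ^ 3 := by
      have : 0 < C1 := by omega
      positivity
    calc _ ≤ _ := h1
      _ = _ := h2
      _ < 2 ^ K * (C1 ^ K) ^ 3 := Nat.mul_lt_mul_of_pos_right hK h3
      _ = (2 * C1 ^ 3) ^ K := by
          rw [mul_pow, ← pow_mul, ← pow_mul, mul_comm K 3]
  omega

end Pool.Agent.H97.FC
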