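import Pool.Agent.H97.FC.Defs
import Pool.Agent.H52.AC.PRM

/-! # [H97 FC TUM] The stable sets of tuples and their size (helper87)

As `Pool/Agent/H97/FB/TUX.lean`, for `k` points. -/

namespace Pool.Agent.H97.FC

open Finset Polynomial Pool.Agent.H72.ES Pool.Agent.H87.SA Pool.Agent.H87.SA2 Pool.Agent.H87.AX
  Pool.Agent.H8.AW Pool.Agent.H52.AC Pool.Agent.H97.NW Pool.Agent.H8.RZ Pool.Agent.H97.FB

private theorem tum_mem {z : ℂ} (hz : IsIntegral ℤ z) : z ∈ AA := by
  rw [mem_algebraicClosure_iff]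
  exact (hz.tower_top (A := ℚ)).isAlgebraic

/-- all fibres of the labelling have the same number of elements -/
private theorem tum_fib {ν r : ℕ} {ι : Type} [Fintype ι] [DecidableEq ι] {P : Ptd ν} {Θ : ι → Fin r → ℂ} {l0 : ι}
    (L : LbG P Θ l0) (T : TrG Θ) (G : GdG Θ) (w : ι) :
    Fintype.card ι * (L.S.filter fun i => L.th i = w).card ≤ P.d := by
  have hd : L.S.card ≤ P.d := by
    have := card_le_univ L.S
    rwa [Fintype.card_fin] at this
  have h1 : L.S.card = ∑ w' : ι, (L.S.filter fun i => L.th i = w').card :=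
    card_eq_sum_card_fiberwise fun i _ => mem_univ _
  have h2 : ∀ w' ∈ (univ : Finset ι), (L.S.filter fun i => L.th i = w).card ≤
      (L.S.filter fun i => L.th i = w').card := by
    intro w' _
    obtain ⟨σ, hσ⟩ := T w w'
    obtain ⟨π, hπ⟩ := perm_gal P.C.pd σ
    refine card_le_card_of_injOn π ?_ (fun _ _ _ _ hij => π.injective hij)
    intro i hi
    have hi' := mem_filter.1 hi
    obtain ⟨h3, h4⟩ := L.gal σ i hi'.1 (π i) (fun k a ha => hπ i k a ha)
    refine mem_filter.2 ⟨h3, ?_⟩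
    apply G.inj
    funext u
    obtain ⟨a, ha⟩ : ∃ a : AA, (a : ℂ) = Θ w u := ⟨⟨Θ w u, tum_mem (G.int w u)⟩, rfl⟩
    rw [← h4 u a (by rw [ha, hi'.2]), hσ u a ha]
  calc Fintype.card ι * (L.S.filter fun i => L.th i = w).card
      = ∑ _w' : ι, (L.S.filter fun i => L.th i = w).card := by
        rw [sum_const, card_univ, smul_eq_mul]
    _ ≤ ∑ w' : ι, (L.S.filter fun i => L.th i = w').card := sum_le_sum h2
    _ = L.S.card := h1.symm
    _ ≤ P.d := hd

/-- the size of a set of pairs with prescribed labels -/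
private theorem tum_size {I ι α Z : Type} [Fintype I] [DecidableEq I] [DecidableEq ι] (PP : Finset Z) (f : Z → I) (g : Z → α)
    (T : Finset α) (th : α → ι) (Rt : I → Finset ι)
    (hmem : ∀ z ∈ PP, g z ∈ T ∧ th (g z) ∈ Rt (f z))
    (hinj : ∀ z ∈ PP, ∀ z' ∈ PP, f z = f z' → g z = g z' → z = z')
    {k D c Q : ℕ} (hI : Fintype.card I ≤ D) (hR : ∀ i, (Rt i).card ≤ c)
    (hfib : ∀ w, k * (T.filter fun a => th a = w).card ≤ Q) : k * PP.card ≤ D * c * Q := by
  have h1 : PP.card = ∑ i : I, (PP.filter fun z => f z = i).card :=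
    card_eq_sum_card_fiberwise fun _ _ => mem_univ _
  have h2 : ∀ i : I, k * (PP.filter fun z => f z = i).card ≤ c * Q := by
    intro i
    have h3 : (PP.filter fun z => f z = i).card ≤ (T.filter fun a => th a ∈ Rt i).card := by
      refine card_le_card_of_injOn g ?_ ?_
      · intro z hz
        obtain ⟨hz1, hz2⟩ := mem_filter.1 hz
        obtain ⟨h4, h5⟩ := hmem z hz1
        refine mem_filter.2 ⟨h4, ?_⟩
        rw [← hz2]
        exact h5
      · intro z hz z' hz' hzz
        obtain ⟨hz1, hz2⟩ := mem_filter.1 hz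
        obtain ⟨hz1', hz2'⟩ := mem_filter.1 hz'
        exact hinj z hz1 z' hz1' (hz2.trans hz2'.symm) hzz
    have h4 : (T.filter fun a => th a ∈ Rt i).card =
        ∑ w ∈ Rt i, ((T.filter fun a => th a ∈ Rt i).filter fun a => th a = w).card :=
      card_eq_sum_card_fiberwise fun a ha => (mem_filter.1 ha).2
    calc k * (PP.filter fun z => f z = i).card
        ≤ k * (T.filter fun a => th a ∈ Rt i).card := Nat.mul_le_mul_left _ h3
      _ = ∑ w ∈ Rt i, k * ((T.filter fun a => th a ∈ Rt i).filter fun a => th a = w).card := by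
          rw [h4, mul_sum]
      _ ≤ ∑ _w ∈ Rt i, Q := by
          refine sum_le_sum fun w _ => (Nat.mul_le_mul_left _ (card_le_card ?_)).trans (hfib w)
          exact filter_subset_filter _ (filter_subset _ _)
      _ = (Rt i).card * Q := by rw [sum_const, smul_eq_mul]
      _ ≤ c * Q := Nat.mul_le_mul_right _ (hR i)
  calc k * PP.card = ∑ i : I, k * (PP.filter fun z => f z = i).card := by rw [h1, mul_sum]
    _ ≤ ∑ _i : I, c * Q := sum_le_sum fun i _ => h2 i
    _ = Fintype.card I * (c * Q) := by rw [sum_const, card_univ, smul_eq_mul]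
    _ ≤ D * (c * Q) := Nat.mul_le_mul_right _ hI
    _ = D * c * Q := (mul_assoc _ _ _).symm

theorem exists_tupM {ν n k Dn Dl κ e M : ℕ} {X0 R : ℝ} (an : AnchX Dn Dl κ e M X0 R)
    {θ : Fin k → Fin n → ℂ} (da : DiagM an θ) (P : Fin k → Ptd ν) {l : Fin n}
    (L : ∀ v, LbG (P v) (v1 (θ v)) l) (T : ∀ v, TrG (v1 (θ v))) (G : ∀ v, GdG (v1 (θ v))) :
    ∃ tu : TupX an P, n ^ k * tu.PP.card ≤ Dn * n * ∏ v, (P v).d := by
  classical
  let PP : Finset (an.I × (∀ v, Fin (P v).d)) :=
    univ.filter fun z => (∀ v, z.2 v ∈ (L v).S) ∧ (fun v => (L v).th (z.2 v)) ∈ da.Rt z.1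
  have hPP : ∀ z, z ∈ PP ↔ (∀ v, z.2 v ∈ (L v).S) ∧
      (fun v => (L v).th (z.2 v)) ∈ da.Rt z.1 := fun z => by
    simp only [PP, mem_filter, mem_univ, true_and]
  have hsize : n ^ k * PP.card ≤ Dn * n * ∏ v, (P v).d := by
    refine tum_size PP (fun z => z.1) (fun z => z.2) (Fintype.piFinset fun v => (L v).S)
      (fun a v => (L v).th (a v)) da.Rt (fun z hz => ?_) ?_ da.cardI da.card ?_
    · obtain ⟨h1, h2⟩ := (hPP z).1 hz
      exact ⟨Fintype.mem_piFinset.2 h1, h2⟩
    · intro z _ z' _ h1 h2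
      exact Prod.ext h1 h2
    · intro w
      have h2 : ((Fintype.piFinset fun v => (L v).S).filter fun a =>
          (fun v => (L v).th (a v)) = w) =
          Fintype.piFinset fun v => ((L v).S.filter fun i => (L v).th i = w v) := by
        ext a
        simp only [mem_filter, Fintype.mem_piFinset, funext_iff]
        constructor
        · rintro ⟨h3, h4⟩ v
          exact ⟨h3 v, h4 v⟩
        · intro h3
          exact ⟨fun v => (h3 v).1, fun v => (h3 v).2⟩
      rw [h2, Fintype.card_piFinset]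
      calc n ^ k * ∏ v, ((L v).S.filter fun i => (L v).th i = w v).card
          = ∏ v, (n * ((L v).S.filter fun i => (L v).th i = w v).card) := by
            rw [prod_mul_distrib, prod_const, card_univ, Fintype.card_fin]
        _ ≤ ∏ v, (P v).d := by
            refine prod_le_prod' fun v _ => ?_
            have := tum_fib (L v) (T v) (G v) (w v)
            rwa [Fintype.card_fin] at this
  refine ⟨{ PP := PP, mem := ?_, gal := ?_, rot := ?_ }, hsize⟩
  · rw [hPP]
    refine ⟨fun v => (L v).mem, ?_⟩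
    have : (fun v => (L v).th ((an.i0, fun v => (P v).i).2 v)) = fun _ : Fin k => l := by
      funext v
      exact (L v).near
    rw [this]
    exact da.diag l
  · intro σ
    obtain ⟨π1, h1, h2⟩ := da.gal σ
    refine ⟨π1, h1, fun p hp p' hpp => ?_⟩
    rw [hPP] at hp ⊢
    have h3 := fun v => (L v).gal σ (p.2 v) (hp.1 v) (p' v) (fun k a ha => hpp v k a ha)
    exact ⟨fun v => (h3 v).1, h2 p.1 _ _ hp.2 fun v => (h3 v).2 0⟩
  · intro ζ hζ p hp p' hpp
    rw [hPP] at hp ⊢
    have h3 := fun v => (L v).rot (ζ v) (hζ v) (p.2 v) (hp.1 v) (p' v) (hpp v)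
    refine ⟨fun v => (h3 v).1, ?_⟩
    have : (fun v => (L v).th ((p.1, p').2 v)) = fun v => (L v).th (p.2 v) := by
      funext v
      exact (h3 v).2
    rw [this]
    exact hp.2

end Pool.Agent.H97.FC
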