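import Pool.Agent.H97.FC.ANM
import Pool.Agent.H97.FC.TUM
import Pool.Agent.H97.FC.BKM
import Pool.Agent.H97.FC.FRM
import Pool.Agent.H97.FC.JNT
import Pool.Agent.H97.FC.NOC
import Pool.Agent.H97.FC.CMB
import Pool.Agent.H97.FC.THB
import Pool.Agent.H97.FB.TRA

/-! # [H97 FC MNY] The number of exceptional fibres of a given type is bounded

ORDER OF THE CONSTANTS. `ν = d (d+1) ≥ 12`, `γ = 1/28`. `Q4` from `exists_anchM 4 n m`, `R1, cf` from `farM 4 ν Q4 .. γ`, `A0` from `blkM 4 ν Q4 .. γ .. R1`; `Q24` from `exists_anchM 24 n m`; `c0, cn` from `no_cluster ν Q24 n 24 A0 .. R1` (`200 * n * 27 * 96 ^ 3 < n ^ 24` for `n ≥ 3`: `200 * 27 * 96^3 < 3^23 ≤ n^23`);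
`cb` from `blkM` for `c0`; `c = max (cA ν) (max cf (max cn cb))`. `C4` from `exists_anchM 4` for `c`, `C24` from `exists_anchM 24` for `c`; `J0, CJ` from `exists_joint n m 96`; `CT` from `thA_rts n m`, `CN` from `thA_norm n m`. `K = J0`, `C` large: `C ≥ 8 (C4 + C24) + CJ + CT + CN + 2`, `C ≥ 2 c (Q4 + Q24 + CN)`.
PROOF. Suppose `K < S.card`. `exists_joint`: `T ⊆ S`, `card T = 96`, jointly transitive. `0 < ell (P a)` for `a ∈ T` (`Ptd.ell_ge` from `Thr c`, `cA ν ≤ c`). `far_or_cluster` with `ℓ a = (P a).ell`, `M = 24`, `r = 4`.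
BASE: `b := X0 - 1` (`2 ≤ X0` since `2^C ≤ B^C ≤ X0`), for `a` in the window `δ = a - b ≥ 1`, `b + δ = a`. `(δ * B)^C4 ≤ b`: `δ ≤ 2 max (a - X0) 1`, `2 ≤ B`, so `δ B ≤ max (a - X0) 1 * B^2`, and `(max (a-X0) 1)^(8 C4) ≤ X0`, `B^(8 C4) ≤ X0`, so `((δ B)^C4)^8 ≤ X0 * X0^2 = X0^3 ≤ (X0 - 1)^8` (`X0 ≥ 4`). The same for `C24`.
ANCHOR of a tuple `s : Fin k → ℕ`, `s v ∈ T` (`k = 4, 24`): `exists_anchM` with `δ v = s v - b`; rewrite `b + δ v = s v` in `DiagM` (`have : (fun v => thA Fm.pd m (b + δ v)) = fun v => thA Fm.pd m (s v)`, `rw` in the type). `Scl c X0' R (fun v => P (s v))`: `RX` from the anchor, `thr`, `low`: `c log X0' ≤ c Q4 log b ≤ C log (s v) ≤ ell` (`b ≤ s v`).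
`Rts` from `thA_rts` (`B^CT ≤ X0 ≤ a`), `GdG (v1 ..)` from `gdG_one` (`Fm.monic.map`), `TrG (v1 ..)` from `trG_one` and irreducibility.
STABLE SET of a 4-tuple: `exists_tupM`: `n^4 card ≤ Dn n ∏ d`, so `n^3 card ≤ Dn ∏ d`, `27 card ≤ Dn ∏ d`, `(1 + 1/28) * (4+1)^(4+1) * card = (29/28) 3125 card ≤ 3240 card ≤ 120 Dn ∏ d` (`(4+1).factorial = 120`).
FAR CASE: `s : Fin 4 → ℕ` injective, `R1 ell (s i) ≤ ell (s j)` for `i < j`: `farM` gives `False`.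
CLUSTER: `T' ⊆ T`, `card T' = 24`, ratios `≤ R1`; enumerate `s : Fin 24 → ℕ` injective with values in `T'` (`Finset.orderEmbOfFin` or `T'.equivFin`). The anchor of the 24-tuple, `LabM`: `g v = fa f (s v)`, `tr` from `exists_joint` (`k = 24`). `H := (X0 * 2 : ℝ) ^ CN` or `H := (max over v of s v : ℝ)^CN`; simplest `H = (2 * X0 : ℝ)^CN` as `s v ≤ 2 X0` (`(s v - X0) ≤ (s v - X0)^C ≤ X0`); `c log H = c CN log (2 X0) ≤ 2 c CN log (s v) ≤ C log (s v) ≤ ell`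
(`2 X0 ≤ X0^2 ≤ (s v)^2`). For every injective `u : Fin 4 → Fin 24`: the 4-tuple `s ∘ u`: anchor, stable set, `blkM` for `c0`: `SpcM A0 c0 fun i => (P (s (u i))).x`. `no_cluster`: `False`. -/

namespace Pool.Agent.H97.FC

open Finset Polynomial Pool.Agent.H72.ES Pool.Agent.H87.SA Pool.Agent.H87.SA2 Pool.Agent.H87.AX
  Pool.Agent.H8.AW Pool.Agent.H52.AC Pool.Agent.H97.NW Pool.Agent.H8.RZ Pool.Agent.H97.FB

private theorem mny_scl {ν k c c' : ℕ} {X0 R : ℝ} {P : Fin k → Ptd ν} (h : Scl c X0 R P)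
    (hc : c' ≤ c) (hR : 2 ≤ R) : Scl c' X0 R P := by
  have h1 : (1 : ℝ) ≤ 2 * R := by linarith
  have h2 : (1 : ℝ) ≤ X0 := (one_le_pow₀ h1).trans h.RX
  refine ⟨(pow_le_pow_right₀ h1 hc).trans h.RX, fun v => (P v).thr_mono hc (h.thr v), fun v => ?_⟩
  refine le_trans ?_ (h.low v)
  exact mul_le_mul_of_nonneg_right (by exact_mod_cast hc) (Real.log_nonneg h2)

private theorem mny_pow {w C C' X0 : ℕ} (hC : C' ≤ C) (hX : 1 ≤ X0) (hw : w ^ C ≤ X0) :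
    w ^ C' ≤ X0 := by
  rcases Nat.lt_or_ge w 1 with h | h
  · have h1 : w ^ C' ≤ 1 ^ C' := Nat.pow_le_pow_left (by omega) C'
    rw [one_pow] at h1
    exact h1.trans hX
  · exact (Nat.pow_le_pow_right h hC).trans hw

private theorem mny_base {B C C4 X0 w : ℕ} (hB : 2 ≤ B) (hC : 8 * C4 + 1 ≤ C) (hX : B ^ C ≤ X0)
    (hw : w ^ C ≤ X0) : ((w + 1) * B) ^ C4 ≤ X0 - 1 := by
  have hX2 : 2 ≤ X0 := (hB.trans (Nat.le_self_pow (by omega) B)).trans hX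
  by_contra hc
  have h1 : X0 ≤ ((w + 1) * B) ^ C4 := by omega
  have h2 : ∃ m1, 1 ≤ m1 ∧ w + 1 ≤ B * m1 ∧ m1 ^ C ≤ X0 := by
    rcases Nat.eq_zero_or_pos w with h | h
    · exact ⟨1, le_refl _, by rw [h]; omega, by rw [one_pow]; omega⟩
    · refine ⟨w, h, ?_, hw⟩
      have h3 : 2 * w ≤ B * w := Nat.mul_le_mul_right w hB
      omega
  obtain ⟨m1, hm1, hm2, hm3⟩ := h2
  have h3 : (w + 1) * B ≤ m1 * B ^ 2 := by
    calc (w + 1) * B ≤ B * m1 * B := Nat.mul_le_mul_right B hm2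
      _ = m1 * B ^ 2 := by ring
  have h4 : m1 ^ (8 * C4) ≤ X0 := (Nat.pow_le_pow_right hm1 (by omega)).trans hm3
  have h5 : B ^ (8 * C4) ≤ X0 := (Nat.pow_le_pow_right (by omega) (by omega)).trans hX
  have h6 : (((w + 1) * B) ^ C4) ^ 8 ≤ X0 ^ 3 := by
    calc (((w + 1) * B) ^ C4) ^ 8 ≤ ((m1 * B ^ 2) ^ C4) ^ 8 :=
          Nat.pow_le_pow_left (Nat.pow_le_pow_left h3 C4) 8
      _ = m1 ^ (8 * C4) * (B ^ (8 * C4)) ^ 2 := by
          rw [← pow_mul, mul_pow, ← pow_mul, ← pow_mul, mul_comm C4 8, mul_comm 2 (8 * C4)]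
      _ ≤ X0 * X0 ^ 2 := Nat.mul_le_mul h4 (Nat.pow_le_pow_left h5 2)
      _ = X0 ^ 3 := by ring
  have h7 : X0 ^ 8 ≤ X0 ^ 3 := (Nat.pow_le_pow_left h1 8).trans h6
  exact absurd h7 (not_le.2 (Nat.pow_lt_pow_right (by omega) (by norm_num)))

/-- the anchor of a tuple of fibres in the window -/
private theorem mny_anch {k n m ν Q0 c Ck C B : ℕ} {f : ℤ[X][X]} (Fm : FamB n m B f)
    (hanch : ∀ (a : ℕ) (δ : Fin k → ℕ), (∀ v, 1 ≤ δ v) → (∀ v, (δ v * B) ^ Ck ≤ a) →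
      ∃ (Dn Dl κ e M : ℕ) (X0 R : ℝ) (an : AnchX Dn Dl κ e M X0 R),
        Bnd Q0 Dn Dl κ e M X0 R ∧ (2 * R) ^ c ≤ X0 ∧ X0 ≤ (a : ℝ) ^ Q0 ∧ Nonempty (AlgA an Q0) ∧
        Nonempty (DiagM an fun v => thA Fm.pd m (a + δ v)))
    (hC : 8 * Ck + 1 ≤ C) (hCQ : c * Q0 ≤ C) {X1 : ℕ} (hX : B ^ C ≤ X1) (s : Fin k → ℕ)
    (hs : ∀ v, X1 ≤ s v ∧ (s v - X1) ^ C ≤ X1) (P : Fin k → Ptd ν) (hT : ∀ v, (P v).Thr c)
    (hl : ∀ v, C * Real.log (s v) ≤ (P v).ell) :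
    ∃ (Dn Dl κ e M : ℕ) (X0 R : ℝ) (an : AnchX Dn Dl κ e M X0 R),
      Bnd Q0 Dn Dl κ e M X0 R ∧ Nonempty (AlgA an Q0) ∧
      Nonempty (DiagM an fun v => thA Fm.pd m (s v)) ∧ Scl c X0 R P := by
  have hB2 := Fm.B2
  have hX2 : 2 ≤ X1 := (hB2.trans (Nat.le_self_pow (by omega) B)).trans hX
  have h1 : ∀ v, s v - (X1 - 1) = (s v - X1) + 1 := by
    intro v
    have := (hs v).1
    omega
  obtain ⟨Dn, Dl, κ, e, M, X0, R, an, hBd, hRX, hXa, hag, hda⟩ :=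
    hanch (X1 - 1) (fun v => s v - (X1 - 1)) (fun v => by
      show 1 ≤ s v - (X1 - 1)
      rw [h1 v]
      omega) (fun v => by
      show ((s v - (X1 - 1)) * B) ^ Ck ≤ X1 - 1
      rw [h1 v]
      exact mny_base hB2 hC hX (hs v).2)
  have h2 : (fun v => thA Fm.pd m (X1 - 1 + (s v - (X1 - 1)))) = fun v => thA Fm.pd m (s v) := by
    funext v
    have h3 : X1 - 1 + (s v - (X1 - 1)) = s v := by
      have := (hs v).1
      omega
    rw [h3]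
  rw [h2] at hda
  have h2R : (1 : ℝ) ≤ 2 * R := by
    have := hBd.R2
    linarith
  have hX1 : (1 : ℝ) ≤ X0 := (one_le_pow₀ h2R).trans hRX
  refine ⟨Dn, Dl, κ, e, M, X0, R, an, hBd, hag, hda, hRX, hT, fun v => ?_⟩
  have hb : 1 ≤ X1 - 1 := by omega
  have hb2 : X1 - 1 ≤ s v := by
    have := (hs v).1
    omega
  have hbr : (1 : ℝ) ≤ ((X1 - 1 : ℕ) : ℝ) := by exact_mod_cast hb
  have hbr2 : ((X1 - 1 : ℕ) : ℝ) ≤ (s v : ℝ) := by exact_mod_cast hb2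
  have hls : 0 ≤ Real.log (s v) := Real.log_nonneg (hbr.trans hbr2)
  have h3 : Real.log X0 ≤ Q0 * Real.log (s v) := by
    rw [← Real.log_pow]
    exact Real.log_le_log (by linarith)
      (hXa.trans (pow_le_pow_left₀ (by linarith) hbr2 Q0))
  calc (c : ℝ) * Real.log X0 ≤ c * (Q0 * Real.log (s v)) :=
        mul_le_mul_of_nonneg_left h3 (Nat.cast_nonneg _)
    _ = ((c * Q0 : ℕ) : ℝ) * Real.log (s v) := by push_cast; ring
    _ ≤ C * Real.log (s v) := by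
        refine mul_le_mul_of_nonneg_right ?_ hls
        exact_mod_cast hCQ
    _ ≤ (P v).ell := hl v

private theorem mny_count {n Dn c D : ℕ} (hn : 3 ≤ n) (h : n ^ 4 * c ≤ Dn * n * D) :
    (1 + 1 / 28 : ℝ) * ((((4 : ℕ) : ℝ) + 1) ^ (4 + 1) * (c : ℝ)) ≤
      ((4 + 1).factorial : ℝ) * ((Dn : ℝ) * (D : ℝ)) := by
  have h1 : n ^ 3 * c ≤ Dn * D := by
    have h2 : n * (n ^ 3 * c) ≤ n * (Dn * D) := by
      calc n * (n ^ 3 * c) = n ^ 4 * c := by ring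
        _ ≤ Dn * n * D := h
        _ = n * (Dn * D) := by ring
    exact Nat.le_of_mul_le_mul_left h2 (by omega)
  have h0 : 3 ^ 3 ≤ n ^ 3 := Nat.pow_le_pow_left hn 3
  have h3 : 3 ^ 3 * c ≤ Dn * D := (Nat.mul_le_mul_right c h0).trans h1
  have h4 : (27 : ℝ) * c ≤ Dn * D := by
    have h5 : ((3 ^ 3 * c : ℕ) : ℝ) ≤ ((Dn * D : ℕ) : ℝ) := by exact_mod_cast h3
    push_cast at h5
    linarith
  have h5 : ((4 + 1).factorial : ℝ) = 120 := by norm_num [Nat.factorial]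
  rw [h5]
  have hc0 : (0 : ℝ) ≤ c := Nat.cast_nonneg _
  norm_num
  linarith

theorem no_many (n m d : ℕ) (hn : 3 ≤ n) (hd : 3 ≤ d) : ∃ c C K : ℕ, cA (d * (d + 1)) ≤ c ∧
    ∀ (B : ℕ) (f : ℤ[X][X]) (Fm : FamB n m B f) (X0 : ℕ), B ^ C ≤ X0 →
      ∀ S : Finset ℕ, (∀ a ∈ S, X0 ≤ a ∧ (a - X0) ^ C ≤ X0) →
      (∀ a ∈ S, Irreducible ((fa f a).map (Int.castRingHom ℚ))) →
      ∀ (l : Fin n) (P : ℕ → Ptd (d * (d + 1))),
      (∀ a ∈ S, Nonempty (LbG (P a) (v1 (thA Fm.pd m a)) l)) → (∀ a ∈ S, (P a).Thr c) →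
      (∀ a ∈ S, C * Real.log a ≤ (P a).ell) → S.card ≤ K := by
  obtain ⟨ν, hνd⟩ : ∃ ν, ν = d * (d + 1) := ⟨_, rfl⟩
  rw [← hνd]
  have hν : 4 ≤ ν := by
    rw [hνd]
    nlinarith
  have hγ : (0 : ℝ) < 1 / 28 := by norm_num
  obtain ⟨Q4, hanch4⟩ := exists_anchM 4 n m (by norm_num)
  obtain ⟨Q24, hanch24⟩ := exists_anchM 24 n m (by norm_num)
  obtain ⟨R1, cf, hR1, hfar⟩ := farM 4 ν Q4 (by norm_num) hν (1 / 28) hγ
  obtain ⟨A0, hblk⟩ := blkM 4 ν Q4 (by norm_num) hν (1 / 28) hγ R1 hR1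
  have hnk : 200 * n * (24 + 3) * (4 * 24) ^ 3 < n ^ 24 := by
    have h1 : 3 ^ 23 ≤ n ^ 23 := Nat.pow_le_pow_left hn 23
    calc 200 * n * (24 + 3) * (4 * 24) ^ 3 = (200 * 27 * 96 ^ 3) * n := by ring
      _ < 3 ^ 23 * n := Nat.mul_lt_mul_of_pos_right (by norm_num) (by omega)
      _ ≤ n ^ 23 * n := Nat.mul_le_mul_right n h1
      _ = n ^ 24 := by ring
  obtain ⟨c0, cn, hnc⟩ := no_cluster ν Q24 n 24 A0 hν (by omega) (by norm_num) hnk R1 hR1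
  obtain ⟨cb, hblk⟩ := hblk c0
  obtain ⟨c, hc⟩ : ∃ c, c = max (cA ν) (max cf (max cn cb)) := ⟨_, rfl⟩
  have hcA : cA ν ≤ c := by rw [hc]; exact le_max_left _ _
  have hcf : cf ≤ c := by rw [hc]; exact (le_max_left _ _).trans (le_max_right _ _)
  have hcn : cn ≤ c := by
    rw [hc]; exact ((le_max_left _ _).trans (le_max_right _ _)).trans (le_max_right _ _)
  have hcb : cb ≤ c := by
    rw [hc]; exact ((le_max_right _ _).trans (le_max_right _ _)).trans (le_max_right _ _)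
  obtain ⟨C4, hanch4⟩ := hanch4 c
  obtain ⟨C24, hanch24⟩ := hanch24 c
  obtain ⟨J0, CJ, hJ⟩ := exists_joint n m 96
  obtain ⟨CT, hrts⟩ := thA_rts n m
  obtain ⟨CN, hnorm⟩ := thA_norm n m
  obtain ⟨C, hC⟩ : ∃ C, C = 8 * (C4 + C24) + CJ + CT + CN + 2 + 2 * c * (Q4 + Q24 + CN) :=
    ⟨_, rfl⟩
  have hCC4 : 8 * C4 + 1 ≤ C := by rw [hC]; omega
  have hCC24 : 8 * C24 + 1 ≤ C := by rw [hC]; omega
  have hCCJ : CJ ≤ C := by rw [hC]; omega
  have hCCT : CT ≤ C := by rw [hC]; omega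
  have hCCN : CN ≤ C := by rw [hC]; omega
  have hCQ : 2 * c * (Q4 + Q24 + CN) ≤ C := by rw [hC]; omega
  have hCQ4 : c * Q4 ≤ C := by
    refine le_trans ?_ hCQ
    calc c * Q4 ≤ (2 * c) * (Q4 + Q24 + CN) := Nat.mul_le_mul (by omega) (by omega)
      _ = _ := rfl
  have hCQ24 : c * Q24 ≤ C := by
    refine le_trans ?_ hCQ
    calc c * Q24 ≤ (2 * c) * (Q4 + Q24 + CN) := Nat.mul_le_mul (by omega) (by omega)
      _ = _ := rfl
  have hCQN : 2 * c * CN ≤ C := by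
    refine le_trans ?_ hCQ
    exact Nat.mul_le_mul_left _ (by omega)
  have hC2 : 2 ≤ C := by rw [hC]; omega
  refine ⟨c, C, J0, hcA, ?_⟩
  intro B f Fm X0 hBX S hSw hSirr l P hSL hSt hSl
  by_contra hcard
  have hB2 := Fm.B2
  have hX4 : 4 ≤ X0 := by
    have h1 : 2 ^ 2 ≤ B ^ C := (Nat.pow_le_pow_left hB2 2).trans (Nat.pow_le_pow_right (by omega) hC2)
    exact h1.trans hBX
  have hX1 : 1 ≤ X0 := by omega
  have hpowle : ∀ C' : ℕ, C' ≤ C → B ^ C' ≤ X0 := fun C' h =>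
    (Nat.pow_le_pow_right (by omega) h).trans hBX
  obtain ⟨T, hTS, hT96, hTtr⟩ := hJ B f Fm X0 (hpowle CJ hCCJ) S
    (fun a ha => ⟨(hSw a ha).1, mny_pow hCCJ hX1 (hSw a ha).2⟩) hSirr (by omega)
  -- the data of a fibre
  have hlog : ∀ a ∈ S, 0 < Real.log a := by
    intro a ha
    have h1 : 4 ≤ a := hX4.trans (hSw a ha).1
    refine Real.log_pos ?_
    have h2 : (4 : ℝ) ≤ a := by exact_mod_cast h1
    linarith
  have hell : ∀ a ∈ S, 0 < (P a).ell := by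
    intro a ha
    have h1 : (0 : ℝ) < C := by
      have : 0 < C := by omega
      exact_mod_cast this
    exact lt_of_lt_of_le (mul_pos h1 (hlog a ha)) (hSl a ha)
  have hR : ∀ a ∈ S, Rts (fa f a) (thA Fm.pd m a) := fun a ha =>
    hrts B f Fm a ((hpowle CT hCCT).trans (hSw a ha).1)
  have hmon : ∀ a, (fa f a).Monic := fun a => Fm.monic.map _
  have hG : ∀ a ∈ S, GdG (v1 (thA Fm.pd m a)) := fun a ha => gdG_one (hmon a) (hR a ha)
  have hTr : ∀ a ∈ S, TrG (v1 (thA Fm.pd m a)) := fun a ha =>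
    trG_one (hmon a) (hSirr a ha) (hR a ha)
  -- four points
  have hfour : ∀ s : Fin 4 → ℕ, (∀ i, s i ∈ S) →
      ∃ (Dn Dl κ e M : ℕ) (X0' R : ℝ) (an : AnchX Dn Dl κ e M X0' R) (_ : AlgA an Q4)
        (tu : TupX an fun i => P (s i)), Bnd Q4 Dn Dl κ e M X0' R ∧
        Scl c X0' R (fun i => P (s i)) ∧
        (1 + 1 / 28 : ℝ) * ((((4 : ℕ) : ℝ) + 1) ^ (4 + 1) * (tu.PP.card : ℝ)) ≤
          ((4 + 1).factorial : ℝ) * ((Dn : ℝ) * ∏ v, ((P (s v)).d : ℝ)) := by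
    intro s hs
    obtain ⟨Dn, Dl, κ, e, M, X0', R, an, hBd, ⟨ag⟩, ⟨da⟩, hScl⟩ :=
      mny_anch Fm (fun a δ h1 h2 => hanch4 B f Fm a δ h1 h2) hCC4 hCQ4 hBX s
        (fun v => hSw _ (hs v)) (fun v => P (s v)) (fun v => hSt _ (hs v))
        (fun v => hSl _ (hs v))
    have L : ∀ v, LbG (P (s v)) (v1 (thA Fm.pd m (s v))) l := fun v => (hSL _ (hs v)).some
    obtain ⟨tu, htu⟩ := exists_tupM an da (fun v => P (s v)) L (fun v => hTr _ (hs v))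
      (fun v => hG _ (hs v))
    refine ⟨Dn, Dl, κ, e, M, X0', R, an, ag, tu, hBd, hScl, ?_⟩
    have h1 := mny_count hn htu
    push_cast at h1 ⊢
    exact h1
  rcases far_or_cluster (fun a => (P a).ell) R1 hR1 24 (by norm_num) 4 T
    (fun a ha => hell a (hTS ha)) (by rw [hT96]) with ⟨s, hs1, hs2, hs3⟩ | ⟨T', hT', hT24, hrat⟩
  · obtain ⟨Dn, Dl, κ, e, M, X0', R, an, ag, tu, hBd, hScl, hcount⟩ :=
      hfour s (fun i => hTS (hs2 i))
    exact hfar an ag (fun i => P (s i)) tu hBd (mny_scl hScl hcf hBd.R2) hcount hs3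
  · obtain ⟨s, hs⟩ : ∃ s : Fin 24 → ℕ, s = T'.orderEmbOfFin hT24 := ⟨_, rfl⟩
    have hsi : Function.Injective s := by
      rw [hs]
      exact (T'.orderEmbOfFin hT24).injective
    have hsT' : ∀ v, s v ∈ T' := by
      intro v
      rw [hs]
      exact T'.orderEmbOfFin_mem hT24 v
    have hsT : ∀ v, s v ∈ T := fun v => hT' (hsT' v)
    have hsS : ∀ v, s v ∈ S := fun v => hTS (hsT v)
    obtain ⟨Dn, Dl, κ, e, M, X0', R, an, hBd, -, ⟨da⟩, hScl⟩ :=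
      mny_anch Fm (fun a δ h1 h2 => hanch24 B f Fm a δ h1 h2) hCC24 hCQ24 hBX s
        (fun v => hSw _ (hsS v)) (fun v => P (s v)) (fun v => hSt _ (hsS v))
        (fun v => hSl _ (hsS v))
    have L : ∀ v, LbG (P (s v)) (v1 (thA Fm.pd m (s v))) l := fun v => (hSL _ (hsS v)).some
    have hX0r : (4 : ℝ) ≤ X0 := by exact_mod_cast hX4
    have hH1 : (1 : ℝ) ≤ (2 * (X0 : ℝ)) ^ CN := one_le_pow₀ (by linarith)
    refine hnc an da (fun v => P (s v)) l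
      ⟨L, fun v => fa f (s v), fun v => hmon _, fun v => hR _ (hsS v), hTtr 24 s hsi hsT⟩
      ((2 * (X0 : ℝ)) ^ CN) hBd (mny_scl hScl hcn hBd.R2) hH1 ?_ ?_ ?_ ?_
    · intro v i
      have h1 := hnorm B f Fm (s v) ((hpowle CN hCCN).trans (hSw _ (hsS v)).1) i
      refine h1.trans (pow_le_pow_left₀ (Nat.cast_nonneg _) ?_ CN)
      obtain ⟨h2, h3⟩ := hSw _ (hsS v)
      have h4 : s v - X0 ≤ X0 := (Nat.le_self_pow (by omega) _).trans h3
      have h5 : s v ≤ 2 * X0 := by omega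
      exact_mod_cast h5
    · intro v
      rw [Real.log_pow]
      have h2 := (hSw _ (hsS v)).1
      have h2r : (X0 : ℝ) ≤ s v := by exact_mod_cast h2
      have h3 : Real.log (2 * (X0 : ℝ)) ≤ 2 * Real.log (s v) := by
        have h4 : (2 : ℝ) * Real.log (s v) = Real.log ((s v : ℝ) ^ 2) := by
          rw [Real.log_pow]
          push_cast
          ring
        rw [h4]
        refine Real.log_le_log (by linarith) ?_
        nlinarith
      calc (cn : ℝ) * (CN * Real.log (2 * (X0 : ℝ))) ≤ c * (CN * (2 * Real.log (s v))) := by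
            have h5 : (cn : ℝ) ≤ c := by exact_mod_cast hcn
            have h6 : (0 : ℝ) ≤ Real.log (2 * (X0 : ℝ)) := Real.log_nonneg (by linarith)
            exact mul_le_mul h5 (mul_le_mul_of_nonneg_left h3 (Nat.cast_nonneg _))
              (mul_nonneg (Nat.cast_nonneg _) h6) (Nat.cast_nonneg _)
        _ = ((2 * c * CN : ℕ) : ℝ) * Real.log (s v) := by push_cast; ring
        _ ≤ C * Real.log (s v) := by
            refine mul_le_mul_of_nonneg_right ?_ (hlog _ (hsS v)).le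
            exact_mod_cast hCQN
        _ ≤ (P (s v)).ell := hSl _ (hsS v)
    · intro v w
      exact hrat _ (hsT' v) _ (hsT' w)
    · intro u hu
      obtain ⟨Dn, Dl, κ, e, M, X0', R, an, ag, tu, hBd, hScl, hcount⟩ :=
        hfour (fun i => s (u i)) (fun i => hsS _)
      exact hblk an (fun i => P (s (u i))) tu hBd (mny_scl hScl hcb hBd.R2) hcount
        (fun v w => hrat _ (hsT' _) _ (hsT' _))

end Pool.Agent.H97.FC
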