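import Pool.Agent.H97.FC.GDF
import Pool.Agent.H97.FC.GDL
import Pool.Agent.H97.FC.MNY
import Pool.Agent.H97.FC.CLM

/-! # [H97 FC GDW] All but a bounded number of the fibres in a window are good (normal form)

Model: `windowM` in `Pool/Agent/H97/FC/WNM.lean` (complete, copy it): `c0, C1, K` from `no_many n m d`, `J0, C2` from `cliquesM n m 1`, `CT` from `thA_rts n m`; `c0` as there, `C0 = 2 C1`. Given `c ≥ c0`, `C' ≥ C0`: `C = C1 + C2 + CT + (J0 + K n) + 4` (so `B^4 ≤ X0`). For `a ∈ S`: `fa f a` is monic (`Fm.monic.map`), of degree `n ≥ 3`; if it is irreducible, `¬ Gd` gives `G ≥ 2`,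
a bound for the coefficients, `n', θ`, `Rts`, `P, l`, a labelling, `P.Thr c` and `C' log G ≤ P.ell`. `fa_low`: `a ≤ G^2`, so `log a ≤ 2 log G`, `C1 log a ≤ 2 C1 log G ≤ C' log G ≤ ell`. `lbG_perm` with `thA_rts`: a label for `thA Fm.pd m a`. `P.Thr c0`: `Ptd.thr_mono`. Then `no_many` for each type `l : Fin n` as in `windowM`. -/

namespace Pool.Agent.H97.FC

open Finset Polynomial Pool.Agent.H72.ES Pool.Agent.H87.SA Pool.Agent.H87.SA2 Pool.Agent.H87.AX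
  Pool.Agent.H8.AW Pool.Agent.H52.AC Pool.Agent.H97.NW Pool.Agent.H34.AC Pool.Agent.H97.FB

private theorem gdw_pow {x X0 C C' : ℕ} (h : x ^ C ≤ X0) (hC : C' ≤ C) (hX : 1 ≤ X0) :
    x ^ C' ≤ X0 := by
  rcases Nat.eq_zero_or_pos x with h0 | h0
  · subst h0
    rcases Nat.eq_zero_or_pos C' with h1 | h1
    · rw [h1, pow_zero]
      exact hX
    · rw [zero_pow (by omega)]
      omega
  · exact (Nat.pow_le_pow_right h0 hC).trans h

theorem window_good (n m d : ℕ) (hn : 3 ≤ n) (hd : 3 ≤ d) : ∃ c0 C0 : ℕ,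
    cA (d * (d + 1)) ≤ c0 ∧ ∀ c C' : ℕ, c0 ≤ c → C0 ≤ C' → ∃ C : ℕ, 1 ≤ C ∧
    ∀ (B : ℕ) (f : ℤ[X][X]) (_ : FamB n m B f) (X0 : ℕ), B ^ C ≤ X0 →
      ∀ S : Finset ℕ, (∀ a ∈ S, ¬ Gd d c C' (fa f a) ∧ X0 ≤ a ∧ (a - X0) ^ C ≤ X0) →
        S.card ≤ C := by
  classical
  obtain ⟨c0, C1, K, hc0, hNM⟩ := no_many n m d hn hd
  obtain ⟨J0, C2, hCL⟩ := cliquesM n m 1
  obtain ⟨CT, hTR⟩ := thA_rts n m
  refine ⟨c0, 2 * C1, hc0, fun c C' hc hC' => ?_⟩
  obtain ⟨C, hCd⟩ : ∃ C, C = C1 + C2 + CT + (J0 + K * n) + 4 := ⟨_, rfl⟩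
  have hCa : C1 ≤ C := by rw [hCd]; omega
  have hCb : C2 ≤ C := by rw [hCd]; omega
  have hCc : CT ≤ C := by rw [hCd]; omega
  have hCg : J0 + K * n ≤ C := by rw [hCd]; omega
  have hC4 : 4 ≤ C := by rw [hCd]; omega
  have hCh : 1 ≤ C := by omega
  clear hCd
  refine ⟨C, hCh, fun B f Fm X0 hX S hS => ?_⟩
  have hB2 := Fm.B2
  have hX1 : 1 ≤ X0 := (Nat.one_le_pow _ _ (by omega)).trans hX
  have hBle : ∀ k ≤ C, B ^ k ≤ X0 := fun k hk => (Nat.pow_le_pow_right (by omega) hk).trans hX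
  obtain ⟨E1, hE1⟩ : ∃ E1 : Finset ℕ, ∀ a, a ∈ E1 ↔ a ∈ S ∧
      ¬ Irreducible ((fa f a).map (Int.castRingHom ℚ)) := ⟨S.filter _, fun a => mem_filter⟩
  obtain ⟨E2, hE2⟩ : ∃ E2 : Finset ℕ, ∀ a, a ∈ E2 ↔ a ∈ S ∧
      Irreducible ((fa f a).map (Int.castRingHom ℚ)) := ⟨S.filter _, fun a => mem_filter⟩
  have hsub : S ⊆ E1 ∪ E2 := by
    intro a ha
    rw [mem_union, hE1, hE2]
    by_cases h : Irreducible ((fa f a).map (Int.castRingHom ℚ))
    · exact Or.inr ⟨ha, h⟩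
    · exact Or.inl ⟨ha, h⟩
  have hc1 : E1.card ≤ J0 := by
    refine hCL B f Fm X0 (hBle C2 hCb) ℚ ?_ E1 (fun a ha => ?_) (fun a ha => ?_)
    · rw [Module.finrank_self]
    · obtain ⟨-, h1, h2⟩ := hS a ((hE1 a).1 ha).1
      exact ⟨h1, gdw_pow h2 hCb hX1⟩
    · exact ((hE1 a).1 ha).2
  have hdat : ∀ a ∈ E2, ∃ (l : Fin n) (P : Ptd (d * (d + 1))), P.Thr c0 ∧
      C1 * Real.log a ≤ P.ell ∧ Nonempty (LbG P (v1 (thA Fm.pd m a)) l) := by
    intro a ha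
    obtain ⟨h1, h2⟩ := (hE2 a).1 ha
    obtain ⟨h3, h4, -⟩ := hS a h1
    have hmon : (fa f a).Monic := Fm.monic.map _
    have hdeg : (fa f a).natDegree = n := by
      unfold fa
      rw [Fm.monic.natDegree_map, Fm.deg]
    have h5 : ∃ G : ℕ, 2 ≤ G ∧ (∀ i, |(fa f a).coeff i| ≤ (G : ℤ)) ∧
        ∃ (n' : ℕ) (θ : Fin n' → ℂ), Rts (fa f a) θ ∧
          ∃ (P : Ptd (d * (d + 1))) (l : Fin n'), Nonempty (LbG P (v1 θ) l) ∧ P.Thr c ∧
            C' * Real.log G ≤ P.ell := by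
      by_contra hcon
      apply h3
      refine ⟨hmon, h2, by rw [hdeg]; exact hn, fun G hG hGc n' θ hθ P l hl hP => ?_⟩
      by_contra h6
      exact hcon ⟨G, hG, hGc, n', θ, hθ, P, l, hl, hP, not_lt.1 h6⟩
    obtain ⟨G, hG2, hGc, n', θ, hθ, P, l, ⟨L⟩, hP, hell⟩ := h5
    have hB4 : B ^ 4 ≤ a := (hBle 4 hC4).trans h4
    have haG := fa_low Fm hB4 hGc
    obtain ⟨l', hl'⟩ := lbG_perm hθ (hTR B f Fm a ((hBle CT hCc).trans h4)) P l L
    refine ⟨l', P, P.thr_mono hc hP, ?_, hl'⟩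
    have ha1 : 1 ≤ a := hX1.trans h4
    have har : (1 : ℝ) ≤ a := by exact_mod_cast ha1
    have haGr : (a : ℝ) ≤ (G : ℝ) ^ 2 := by exact_mod_cast haG
    have hG2r : (2 : ℝ) ≤ G := by exact_mod_cast hG2
    have hlG : 0 ≤ Real.log G := Real.log_nonneg (by linarith)
    have h6 : Real.log a ≤ 2 * Real.log G := by
      have h7 := Real.log_le_log (by linarith) haGr
      rw [Real.log_pow] at h7
      push_cast at h7
      exact h7
    calc (C1 : ℝ) * Real.log a ≤ C1 * (2 * Real.log G) :=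
          mul_le_mul_of_nonneg_left h6 (Nat.cast_nonneg _)
      _ = ((2 * C1 : ℕ) : ℝ) * Real.log G := by push_cast; ring
      _ ≤ C' * Real.log G := by
          refine mul_le_mul_of_nonneg_right ?_ hlG
          exact_mod_cast hC'
      _ ≤ P.ell := hell
  have hc2 : E2.card ≤ K * n := by
    rcases E2.eq_empty_or_nonempty with h0 | ⟨a0, ha0⟩
    · rw [h0, card_empty]
      exact Nat.zero_le _
    obtain ⟨P0, -⟩ := (hdat a0 ha0).choose_spec
    obtain ⟨t, P, ht⟩ : ∃ (t : ℕ → Fin n) (P : Fin n → ℕ → Ptd (d * (d + 1))), ∀ a ∈ E2,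
        (P (t a) a).Thr c0 ∧ C1 * Real.log a ≤ (P (t a) a).ell ∧
        Nonempty (LbG (P (t a) a) (v1 (thA Fm.pd m a)) (t a)) := by
      refine ⟨fun a => if h : a ∈ E2 then (hdat a h).choose else ⟨0, by omega⟩,
        fun _ a => if h : a ∈ E2 then (hdat a h).choose_spec.choose else P0, fun a ha => ?_⟩
      have := (hdat a ha).choose_spec.choose_spec
      simp only [dif_pos ha]
      exact this
    have h1 : E2.card ≤ K * (E2.image t).card := by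
      refine card_le_mul_card_image E2 K fun l _ => ?_
      refine hNM B f Fm X0 (hBle C1 hCa) _ (fun a ha => ?_) (fun a ha => ?_) l (P l)
        (fun a ha => ?_) (fun a ha => ?_) (fun a ha => ?_)
      · obtain ⟨-, h1, h2⟩ := hS a ((hE2 a).1 (mem_filter.1 ha).1).1
        exact ⟨h1, gdw_pow h2 hCa hX1⟩
      · exact ((hE2 a).1 (mem_filter.1 ha).1).2
      · obtain ⟨h1, h2⟩ := mem_filter.1 ha
        have h3 := (ht a h1).2.2
        rwa [h2] at h3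
      · obtain ⟨h1, h2⟩ := mem_filter.1 ha
        have h3 := (ht a h1).1
        rwa [h2] at h3
      · obtain ⟨h1, h2⟩ := mem_filter.1 ha
        have h3 := (ht a h1).2.1
        rwa [h2] at h3
    refine h1.trans (Nat.mul_le_mul_left _ ?_)
    exact (card_le_univ _).trans (by rw [Fintype.card_fin])
  exact (card_le_card hsub).trans ((card_union_le _ _).trans ((Nat.add_le_add hc1 hc2).trans hCg))

end Pool.Agent.H97.FC
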