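import Pool.Agent.H97.FC.GDI
import Pool.Agent.H97.FB.DNX

/-! # [H97 FC GDX] The final theorem: good polynomials -/

namespace Pool.Agent.H97.FC

open Finset Polynomial Pool.Agent.H72.ES Pool.Agent.H34.AC Pool.Agent.H97.FB Pool.Agent.H97.NW
  Pool.Agent.H8.AW Pool.Agent.H52.AC

private theorem gdx_choose (N m d : ℕ) (hm : 1 ≤ m) (hd : 3 ≤ d) : ∃ c0 C0 : ℕ,
    (3 ≤ N → cA (d * (d + 1)) ≤ c0) ∧ ∀ n : ℕ, 3 ≤ n → n ≤ N → ∀ c C' : ℕ, c0 ≤ c → C0 ≤ C' →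
    ∃ C : ℕ, 1 ≤ C ∧
    ∀ (f : ℤ[X][X]) (B X0 : ℕ), f.natDegree = n → (∀ i, (f.coeff i).natDegree ≤ m) →
      (∀ i j, |(f.coeff i).coeff j| ≤ (B : ℤ)) →
      Irreducible (f.map (mapRingHom (Int.castRingHom ℂ))) → 2 ≤ B → B ^ C ≤ X0 →
      ∀ S : Finset ℕ, (∀ a ∈ S, ¬ Gg N d c C' (fa f a) ∧ X0 ≤ a ∧ (a - X0) ^ C ≤ X0) →
        S.card ≤ C := by
  have h : ∀ n : ℕ, ∃ c0 C0 : ℕ, 3 ≤ n → n ≤ N → cA (d * (d + 1)) ≤ c0 ∧
      ∀ c C' : ℕ, c0 ≤ c → C0 ≤ C' → ∃ C : ℕ, 1 ≤ C ∧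
      ∀ (f : ℤ[X][X]) (B X0 : ℕ), f.natDegree = n → (∀ i, (f.coeff i).natDegree ≤ m) →
        (∀ i j, |(f.coeff i).coeff j| ≤ (B : ℤ)) →
        Irreducible (f.map (mapRingHom (Int.castRingHom ℂ))) → 2 ≤ B → B ^ C ≤ X0 →
        ∀ S : Finset ℕ, (∀ a ∈ S, ¬ Gg N d c C' (fa f a) ∧ X0 ≤ a ∧ (a - X0) ^ C ≤ X0) →
          S.card ≤ C := by
    intro n
    by_cases hn : 3 ≤ n ∧ n ≤ N
    · obtain ⟨c0, C0, h1, h2⟩ := window_gg n N m d hn.1 hn.2 hm hd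
      exact ⟨c0, C0, fun _ _ => ⟨h1, h2⟩⟩
    · exact ⟨0, 0, fun h1 h2 => absurd ⟨h1, h2⟩ hn⟩
  choose c0 C0 h0 using h
  refine ⟨∑ n ∈ range (N + 1), c0 n, ∑ n ∈ range (N + 1), C0 n, fun hN => ?_, ?_⟩
  · exact ((h0 N hN le_rfl).1).trans
      (single_le_sum (f := c0) (fun _ _ => Nat.zero_le _) (mem_range.2 (Nat.lt_succ_self N)))
  · intro n hn hnN c C' hc hC'
    have h1 : c0 n ≤ ∑ n ∈ range (N + 1), c0 n :=
      single_le_sum (f := c0) (fun _ _ => Nat.zero_le _) (mem_range.2 (by omega))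
    have h2 : C0 n ≤ ∑ n ∈ range (N + 1), C0 n :=
      single_le_sum (f := C0) (fun _ _ => Nat.zero_le _) (mem_range.2 (by omega))
    exact (h0 n hn hnN).2 c C' (h1.trans hc) (h2.trans hC')

/-- a set with at most `C` elements in every finite subset -/
private theorem gdx_encard {S : Set ℕ} {C : ℕ} (h : ∀ T : Finset ℕ, (∀ a ∈ T, a ∈ S) → T.card ≤ C) :
    S.encard ≤ C := by
  by_contra hcon
  push Not at hcon
  obtain ⟨T, hT, hTc⟩ : ∃ T : Set ℕ, T ⊆ S ∧ T.encard = ((C + 1 : ℕ) : ℕ∞) := by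
    apply Set.exists_subset_encard_eq
    have := Order.add_one_le_of_lt hcon
    exact_mod_cast this
  have hfin : T.Finite := by
    rw [← Set.encard_lt_top_iff, hTc]
    exact ENat.natCast_lt_top _
  have h1 := h hfin.toFinset (fun a ha => hT (hfin.mem_toFinset.1 ha))
  have h2 : (hfin.toFinset.card : ℕ∞) = ((C + 1 : ℕ) : ℕ∞) := by
    rw [← hTc, hfin.encard_eq_coe_toFinset_card]
  have h3 : hfin.toFinset.card = C + 1 := by exact_mod_cast h2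
  omega

/-- the final theorem -/
theorem families_good (N m d : ℕ) (hN : 3 ≤ N) (hm : 1 ≤ m) (hd : 3 ≤ d) :
    ∃ (C : ℕ) (GG : Set ℤ[X]), 2 ≤ C ∧
    (∀ g ∈ GG, Irreducible (g.map (Int.castRingHom ℚ))) ∧
    (∀ F : MvPolynomial (Fin 2) ℤ, Irreducible (MvPolynomial.map (Int.castRingHom ℚ) F) →
      F.totalDegree ≤ d → ∀ G : ℕ, 2 ≤ G → INs {g | g ∈ GG ∧ ∀ i, |g.coeff i| ≤ (G : ℤ)} F →
      ∀ H : ℕ, 2 ≤ H → (∀ e, |F.coeff e| ≤ (H : ℤ)) →
      ∀ x y : ℤ, vl F x y = 0 → max x.natAbs y.natAbs ≤ (G * H) ^ C) ∧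
    ∀ f : ℤ[X][X], 3 ≤ f.natDegree → f.natDegree ≤ N → (∀ i, (f.coeff i).natDegree ≤ m) →
      Irreducible (f.map (mapRingHom (Int.castRingHom ℂ))) →
      (∀ B X0 : ℕ, 2 ≤ B → (∀ i j, |(f.coeff i).coeff j| ≤ (B : ℤ)) → B ^ C ≤ X0 →
        {a : ℕ | X0 ≤ a ∧ (a - X0) ^ C ≤ X0 ∧ fa f a ∉ GG}.encard ≤ C) ∧
      ∃ K : ℝ, ∀ T : ℕ, 1 ≤ T →
        ((Set.Icc 1 T ∩ {a | fa f a ∉ GG}).ncard : ℝ) ≤ K * (T : ℝ) ^ (1 - 1 / (C : ℝ)) := by
  obtain ⟨c, C', hc, hw⟩ := gdx_choose N m d hm hd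
  obtain ⟨C1, hC1, heff⟩ := gg_eff N d c C' hd (hc hN)
  have h : ∀ n : ℕ, ∃ C : ℕ, 1 ≤ C ∧ (3 ≤ n → n ≤ N →
      ∀ (f : ℤ[X][X]) (B X0 : ℕ), f.natDegree = n → (∀ i, (f.coeff i).natDegree ≤ m) →
        (∀ i j, |(f.coeff i).coeff j| ≤ (B : ℤ)) →
        Irreducible (f.map (mapRingHom (Int.castRingHom ℂ))) → 2 ≤ B → B ^ C ≤ X0 →
        ∀ S : Finset ℕ, (∀ a ∈ S, ¬ Gg N d c C' (fa f a) ∧ X0 ≤ a ∧ (a - X0) ^ C ≤ X0) →
          S.card ≤ C) := by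
    intro n
    by_cases hn : 3 ≤ n ∧ n ≤ N
    · obtain ⟨C, h1, h2⟩ := hw n hn.1 hn.2 c C' le_rfl le_rfl
      exact ⟨C, h1, fun _ _ => h2⟩
    · exact ⟨1, le_rfl, fun h1 h2 => absurd ⟨h1, h2⟩ hn⟩
  choose Cn hCn1 hCn using h
  obtain ⟨C, hCd⟩ : ∃ C, C = C1 + ∑ n ∈ range (N + 1), Cn n + 2 := ⟨_, rfl⟩
  have hC1C : C1 ≤ C := by rw [hCd]; omega
  have hC2 : 2 ≤ C := by rw [hCd]; omega
  have hCnC : ∀ n ≤ N, Cn n ≤ C := by
    intro n hn
    have h2 : Cn n ≤ ∑ n ∈ range (N + 1), Cn n :=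
      single_le_sum (f := Cn) (fun _ _ => Nat.zero_le _) (mem_range.2 (by omega))
    rw [hCd]
    omega
  refine ⟨C, {g | Gg N d c C' g}, hC2, fun g hg => gg_irr hg, ?_, ?_⟩
  · intro F hF hFd G hG hinf H hH hHF x y hxy
    refine (heff F hF hFd G hG hinf H hH hHF x y hxy).trans ?_
    exact Nat.pow_le_pow_right (Nat.mul_pos (by omega) (by omega)) hC1C
  · intro f hf3 hfN hfm hirr
    have key : ∀ B X0 : ℕ, 2 ≤ B → (∀ i j, |(f.coeff i).coeff j| ≤ (B : ℤ)) → B ^ C ≤ X0 →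
        ∀ S : Finset ℕ, (∀ a ∈ S, ¬ Gg N d c C' (fa f a) ∧ X0 ≤ a ∧ (a - X0) ^ C ≤ X0) →
          S.card ≤ C := by
      intro B X0 hB hfB hX S hS
      have hX1 : 1 ≤ X0 := (Nat.one_le_pow _ _ (by omega)).trans hX
      have h1 := hCnC _ hfN
      refine (hCn _ hf3 hfN f B X0 rfl hfm hfB hirr hB
        ((Nat.pow_le_pow_right (by omega) h1).trans hX) S (fun a ha => ?_)).trans h1
      obtain ⟨h2, h3, h4⟩ := hS a ha
      refine ⟨h2, h3, ?_⟩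
      rcases Nat.eq_zero_or_pos (a - X0) with h | h
      · rw [h, zero_pow (by have := hCn1 f.natDegree; omega)]
        exact Nat.zero_le _
      · exact (Nat.pow_le_pow_right h h1).trans h4
    refine ⟨?_, ?_⟩
    · intro B X0 hB hfB hX
      refine gdx_encard fun S hS => key B X0 hB hfB hX S fun a ha => ?_
      obtain ⟨h1, h2, h3⟩ := hS a ha
      exact ⟨h3, h1, h2⟩
    · -- a bound for the coefficients
      obtain ⟨B, hB2, hB⟩ : ∃ B : ℕ, 2 ≤ B ∧ ∀ i j, |(f.coeff i).coeff j| ≤ (B : ℤ) := by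
        refine ⟨2 + ∑ i ∈ range (N + 1), ∑ j ∈ range (m + 1), ((f.coeff i).coeff j).natAbs,
          by omega, fun i j => ?_⟩
        rw [Int.abs_eq_natAbs]
        by_cases hi : i < N + 1
        · by_cases hj : j < m + 1
          · have h1 : ((f.coeff i).coeff j).natAbs ≤
                ∑ j ∈ range (m + 1), ((f.coeff i).coeff j).natAbs :=
              single_le_sum (f := fun j => ((f.coeff i).coeff j).natAbs)
                (fun _ _ => Nat.zero_le _) (mem_range.2 hj)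
            have h2 : ∑ j ∈ range (m + 1), ((f.coeff i).coeff j).natAbs ≤
                ∑ i ∈ range (N + 1), ∑ j ∈ range (m + 1), ((f.coeff i).coeff j).natAbs :=
              single_le_sum (f := fun i => ∑ j ∈ range (m + 1), ((f.coeff i).coeff j).natAbs)
                (fun _ _ => Nat.zero_le _) (mem_range.2 hi)
            exact_mod_cast (h1.trans h2).trans (by omega)
          · have h1 : (f.coeff i).coeff j = 0 :=
              coeff_eq_zero_of_natDegree_lt (lt_of_le_of_lt (hfm i) (by omega))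
            rw [h1]
            exact Int.natCast_nonneg _
        · have h1 : f.coeff i = 0 := coeff_eq_zero_of_natDegree_lt (by omega)
          rw [h1, coeff_zero]
          exact Int.natCast_nonneg _
      obtain ⟨K, hK⟩ := density_of_windows C (B ^ C) (by omega)
        {a | fa f a ∉ {g | Gg N d c C' g}} (by
          intro X0 hX
          classical
          obtain ⟨W, hW⟩ : ∃ W : Finset ℕ, ∀ a, a ∈ W ↔ X0 ≤ a ∧ (a - X0) ^ C ≤ X0 := by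
            refine ⟨(range (2 * X0 + 1)).filter (fun a => X0 ≤ a ∧ (a - X0) ^ C ≤ X0),
              fun a => ?_⟩
            rw [mem_filter, mem_range]
            refine ⟨fun h => h.2, fun h => ⟨?_, h⟩⟩
            have := (Nat.le_self_pow (by omega : C ≠ 0) (a - X0)).trans h.2
            omega
          refine ⟨W.filter fun a => ¬ Gg N d c C' (fa f a), ?_, fun a h1 h2 h3 h4 => ?_⟩
          · refine key B X0 hB2 hB hX _ fun a ha => ?_
            obtain ⟨h1, h2⟩ := mem_filter.1 ha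
            exact ⟨h2, (hW a).1 h1⟩
          · exact h3 (mem_filter.2 ⟨(hW a).2 ⟨h1, h2⟩, h4⟩))
      refine ⟨K, fun T hT => ?_⟩
      have h1 := hK T hT
      rw [Set.inter_comm] at h1
      exact h1

end Pool.Agent.H97.FC
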