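import Mathlib

/-! # [H97 FC GR1] A triangular system of relations and a large set are dependent

SIEGEL (`Int.Matrix.exists_ne_zero_int_vec_norm_le`, `Mathlib/NumberTheory/SiegelsLemma.lean`) for the matrix `A` with rows `α = V` (subtype) and columns `β = B ⊕ (V \ St)` (subtypes): `A ν (inl μ) = if ν = μ then 1 else 0`, `A ν (inr μ) = r μ ν`. `card α = V.card < B.card + V.card - St.card = card β` (`St ⊆ V`), `0 < card α`
(`B` is not empty, `B ⊆ V`). `max 1 ‖A‖ ≤ h` (`‖A‖` is the sup norm of the entries, `Matrix.norm_le_iff`), `card β ≤ 2 V.card`, the exponent `card α / (card β - card α) ≤ card α` (`card β - card α ≥ 1`), the base is `≥ 1`: `‖t‖ ≤ (2 V.card h)^(V.card)`. `c μ := t (inl μ)` for `μ ∈ B`, `0` outside.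
RELATION: `∑_(μ ∈ B) c μ w μ = ∑_(ν ∈ V) w ν * (∑_(μ ∈ B) c μ [ν = μ]) = - ∑_(ν ∈ V) w ν ∑_(μ ∈ V \ St) t (inr μ) r μ ν = - ∑_μ t (inr μ) (∑_(ν ∈ V) r μ ν w ν) = 0`.
NOT ZERO: suppose `c μ = 0` for all `μ ∈ B`, i.e. `t (inl μ) = 0`. Then `∑_(μ ∈ V \ St) t (inr μ) r μ ν = 0` for all `ν ∈ V`, and some `t (inr μ) ≠ 0`; take such a `μ` with `key μ` maximal (`Finset.exists_max_image`). For `ν = μ`: the terms with `μ' ≠ μ`, `t (inr μ') ≠ 0` have `key μ' ≤ key μ`, so `r μ' μ = 0` (else `μ = μ'` or `key μ < key μ'`);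
so `t (inr μ) r μ μ = 0`, contradiction to `hr0`. -/

namespace Pool.Agent.H97.FC

open Finset

attribute [local instance] Matrix.seminormedAddCommGroup

private lemma siegel_bd {m n : ℕ} {x h : ℝ} (hm : 0 < m) (hmn : m < n) (hn : n ≤ 2 * m)
    (hx : 1 ≤ x) (hxh : x ≤ h) :
    ((n : ℝ) * x) ^ ((m : ℝ) / ((n : ℝ) - m)) ≤ (2 * m * h) ^ m := by
  have hm' : (1 : ℝ) ≤ m := by exact_mod_cast hm
  have hmn' : (m : ℝ) + 1 ≤ n := by exact_mod_cast hmn
  have hn' : (n : ℝ) ≤ 2 * m := by exact_mod_cast hn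
  have h1 : (1 : ℝ) ≤ n * x := by nlinarith
  have h2 : (m : ℝ) / ((n : ℝ) - m) ≤ m := by
    rw [div_le_iff₀ (by linarith)]
    nlinarith
  calc ((n : ℝ) * x) ^ ((m : ℝ) / ((n : ℝ) - m)) ≤ ((n : ℝ) * x) ^ (m : ℝ) :=
        Real.rpow_le_rpow_of_exponent_le h1 h2
    _ = ((n : ℝ) * x) ^ m := Real.rpow_natCast _ _
    _ ≤ (2 * m * h) ^ m := by
        refine pow_le_pow_left₀ (by linarith) ?_ m
        exact mul_le_mul hn' hxh (by linarith) (by linarith)

theorem dep_tri {ι κ : Type} [DecidableEq ι] [LinearOrder κ] (V St B : Finset ι) (hB : B ⊆ V)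
    (hSt : St ⊆ V) (w : ι → ℤ) (r : ι → ι → ℤ) (key : ι → κ) (h : ℕ) (hh : 1 ≤ h)
    (hr0 : ∀ μ ∈ V \ St, r μ μ ≠ 0)
    (hrs : ∀ μ ∈ V \ St, ∀ ν, r μ ν ≠ 0 → ν ∈ V ∧ (ν = μ ∨ key ν < key μ))
    (hrh : ∀ μ ∈ V \ St, ∀ ν, |r μ ν| ≤ (h : ℤ))
    (hrel : ∀ μ ∈ V \ St, ∑ ν ∈ V, r μ ν * w ν = 0)
    (hcard : St.card < B.card) :
    ∃ c : ι → ℤ, (∀ μ ∈ B, |c μ| ≤ (((2 * V.card * h) ^ V.card : ℕ) : ℤ)) ∧
      ∑ μ ∈ B, c μ * w μ = 0 ∧ ∃ μ ∈ B, c μ ≠ 0 := by
  classical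
  have hBpos : 0 < B.card := by omega
  have hBV : B.card ≤ V.card := card_le_card hB
  have hVpos : 0 < V.card := lt_of_lt_of_le hBpos hBV
  have hSV : St.card ≤ V.card := card_le_card hSt
  let A : Matrix V (B ⊕ (V \ St : Finset ι)) ℤ := fun ν μ =>
    Sum.elim (fun μ' : B => if (ν : ι) = μ' then 1 else 0) (fun μ' : (V \ St : Finset ι) => r μ' ν) μ
  have hcβ : Fintype.card (B ⊕ (V \ St : Finset ι)) = B.card + (V.card - St.card) := by
    rw [Fintype.card_sum, Fintype.card_coe, Fintype.card_coe, card_sdiff_of_subset hSt]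
  have hcα : Fintype.card V = V.card := Fintype.card_coe V
  obtain ⟨t, ht0, htA, htn⟩ := Int.Matrix.exists_ne_zero_int_vec_norm_le A
    (by rw [hcβ, hcα]; omega) (by rw [hcα]; exact hVpos)
  have hA : ‖A‖ ≤ (h : ℝ) := by
    rw [Matrix.norm_le_iff (Nat.cast_nonneg h)]
    rintro ⟨ν, hν⟩ (⟨μ, hμ⟩ | ⟨μ, hμ⟩)
    · show ‖(if ν = μ then (1 : ℤ) else 0)‖ ≤ (h : ℝ)
      split_ifs
      · rw [norm_one]; exact_mod_cast hh
      · rw [norm_zero]; exact Nat.cast_nonneg h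
    · show ‖r μ ν‖ ≤ (h : ℝ)
      rw [Int.norm_eq_abs]
      exact_mod_cast hrh μ hμ ν
  have htn' : ‖t‖ ≤ ((2 * V.card * h : ℕ) : ℝ) ^ V.card := by
    refine htn.trans ?_
    rw [hcβ, hcα]
    push_cast
    have := siegel_bd (m := V.card) (n := B.card + (V.card - St.card)) (x := max 1 ‖A‖) (h := h)
      hVpos (by omega) (by omega) (le_max_left _ _) (max_le (by exact_mod_cast hh) hA)
    push_cast at this
    exact this
  -- the coefficients
  let c : ι → ℤ := fun μ => if hμ : μ ∈ B then t (Sum.inl ⟨μ, hμ⟩) else 0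
  have hcin : ∀ μ (hμ : μ ∈ B), c μ = t (Sum.inl ⟨μ, hμ⟩) := fun μ hμ => dif_pos hμ
  -- the equations
  have heq : ∀ ν ∈ V, (∑ μ ∈ B, (if ν = μ then 1 else 0) * c μ) +
      ∑ μ : (V \ St : Finset ι), r μ ν * t (Sum.inr μ) = 0 := by
    intro ν hν
    have h1 := congrFun htA ⟨ν, hν⟩
    simp only [Matrix.mulVec, dotProduct, Fintype.sum_sum_type, Pi.zero_apply] at h1
    refine Eq.trans ?_ h1
    congr 1
    rw [← Finset.sum_coe_sort B]
    refine Finset.sum_congr rfl fun μ _ => ?_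
    rw [hcin μ μ.2]
    rfl
  have heq2 : ∀ ν ∈ V, (∑ μ ∈ B, (if ν = μ then 1 else 0) * c μ) =
      -∑ μ : (V \ St : Finset ι), r μ ν * t (Sum.inr μ) := fun ν hν => by
    linarith [heq ν hν]
  refine ⟨c, ?_, ?_, ?_⟩
  · intro μ hμ
    rw [hcin μ hμ]
    have h1 := (norm_le_pi_norm t (Sum.inl ⟨μ, hμ⟩)).trans htn'
    rw [Int.norm_eq_abs] at h1
    have h2 : ((|t (Sum.inl ⟨μ, hμ⟩)| : ℤ) : ℝ) ≤ (((2 * V.card * h) ^ V.card : ℕ) : ℝ) := by
      push_cast at h1 ⊢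
      exact h1
    exact_mod_cast h2
  · have h1 : ∑ μ ∈ B, c μ * w μ = ∑ ν ∈ V, w ν * ∑ μ ∈ B, (if ν = μ then 1 else 0) * c μ := by
      simp_rw [Finset.mul_sum]
      rw [Finset.sum_comm]
      refine Finset.sum_congr rfl fun μ hμ => ?_
      rw [Finset.sum_eq_single μ]
      · rw [if_pos rfl]; ring
      · intro ν _ hne
        rw [if_neg hne]; ring
      · intro hμV
        exact absurd (hB hμ) hμV
    rw [h1, Finset.sum_congr rfl fun ν hν => by rw [heq2 ν hν]]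
    have h2 : ∀ ν ∈ V, w ν * -∑ μ : (V \ St : Finset ι), r μ ν * t (Sum.inr μ) =
        ∑ μ : (V \ St : Finset ι), -(t (Sum.inr μ) * (r μ ν * w ν)) := by
      intro ν _
      rw [mul_neg, Finset.mul_sum, ← Finset.sum_neg_distrib]
      refine Finset.sum_congr rfl fun μ _ => ?_
      ring
    rw [Finset.sum_congr rfl h2, Finset.sum_comm]
    refine Finset.sum_eq_zero fun μ _ => ?_
    rw [Finset.sum_neg_distrib, ← Finset.mul_sum, hrel μ μ.2, mul_zero, neg_zero]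
  · by_contra hcon
    push Not at hcon
    have hl : ∀ μ : B, t (Sum.inl μ) = 0 := by
      intro μ
      rw [← hcin μ μ.2]
      exact hcon μ μ.2
    have hr : ∀ ν ∈ V, ∑ μ : (V \ St : Finset ι), r μ ν * t (Sum.inr μ) = 0 := by
      intro ν hν
      have h1 := heq ν hν
      rw [Finset.sum_eq_zero fun μ hμ => by rw [hcon μ hμ, mul_zero], zero_add] at h1
      exact h1
    -- a nonzero entry of maximal key
    have hne : (Finset.univ.filter fun μ : (V \ St : Finset ι) => t (Sum.inr μ) ≠ 0).Nonempty := by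
      by_contra hem
      rw [Finset.not_nonempty_iff_eq_empty, Finset.filter_eq_empty_iff] at hem
      apply ht0
      funext x
      rcases x with x | x
      · exact hl x
      · have := hem (Finset.mem_univ x)
        push Not at this
        exact this
    obtain ⟨μ, hμ, hmax⟩ := Finset.exists_max_image _ (fun μ : (V \ St : Finset ι) => key μ) hne
    have hμ0 : t (Sum.inr μ) ≠ 0 := (Finset.mem_filter.1 hμ).2
    have h1 := hr μ (Finset.mem_sdiff.1 μ.2).1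
    rw [Finset.sum_eq_single μ] at h1
    · exact (mul_ne_zero (hr0 μ μ.2) hμ0) h1
    · intro μ' _ hne'
      by_cases h0 : t (Sum.inr μ') = 0
      · rw [h0, mul_zero]
      · have h2 := hmax μ' (Finset.mem_filter.2 ⟨Finset.mem_univ _, h0⟩)
        have h3 : r μ' μ = 0 := by
          by_contra h4
          rcases (hrs μ' μ'.2 μ h4).2 with h5 | h5
          · exact hne' (Subtype.ext h5.symm)
          · exact absurd h5 (not_lt.2 h2)
        rw [h3, zero_mul]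
    · intro h2
      exact absurd (Finset.mem_univ μ) h2

end Pool.Agent.H97.FC
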