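import Pool.Agent.H97.FC.Defs
import Mathlib.Data.Finsupp.MonomialOrder.DegLex
import Mathlib.RingTheory.MvPolynomial.MonomialOrder

/-! # [H97 FC GRD] Definitions for the growth of free sets

`kx μ`: the exponents of the `x_v` of the monomial `μ`. `ky μ`: the same in the graded lexicographic
order. `Vt k Dt E`: the monomials of degree at most `Dt` in the `x_v`, of degree `< E` in every `y_v`.
`St k Dt E A0`: those with at most three exponents `≥ A0` in the `x_v`. -/

namespace Pool.Agent.H97.FC

open Finset

/-- the exponents of the `x_v` -/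
noncomputable def kx {k : ℕ} (μ : Fin k → ℕ × ℕ) : Fin k →₀ ℕ :=
  Finsupp.equivFunOnFinite.symm fun v => (μ v).1

/-- the graded lexicographic order of the exponents of the `x_v` -/
noncomputable def ky {k : ℕ} (μ : Fin k → ℕ × ℕ) : (MonomialOrder.degLex (σ := Fin k)).syn :=
  (MonomialOrder.degLex (σ := Fin k)).toSyn (kx μ)

/-- the monomials of degree at most `Dt` in the `x_v` -/
def Vt (k Dt E : ℕ) : Finset (Fin k → ℕ × ℕ) :=
  (bxs (fun _ => Dt) E).filter fun μ => ∑ v, (μ v).1 ≤ Dt

/-- the standard monomials -/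
def St (k Dt E A0 : ℕ) : Finset (Fin k → ℕ × ℕ) :=
  (Vt k Dt E).filter fun μ => (univ.filter fun v => A0 ≤ (μ v).1).card ≤ 3

end Pool.Agent.H97.FC
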