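import Pool.Agent.H97.FC.Defs
import Pool.Agent.H97.NW.SCL

/-! # [H97 FC IFC] The interfaces of the chapters (statements only; NOT imported by the final files) -/

namespace Pool.Agent.H97.FC.IFC

open Finset Polynomial Pool.Agent.H72.ES Pool.Agent.H87.SA Pool.Agent.H87.SA2 Pool.Agent.H87.AX
  Pool.Agent.H8.AW Pool.Agent.H52.AC Pool.Agent.H97.NW Pool.Agent.H8.RZ Pool.Agent.H97.FB
  Pool.Agent.H97.FC

/-- chapter D (helper21): the anchor of a tuple of fibres. File Pool/Agent/H97/FC/ANM.lean -/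
theorem exists_anchM (k n m : ℕ) (hk : 1 ≤ k) : ∃ Q0 : ℕ, ∀ c : ℕ, ∃ C : ℕ, ∀ (B : ℕ)
    (f : ℤ[X][X]) (Fm : FamB n m B f) (a : ℕ) (δ : Fin k → ℕ), (∀ v, 1 ≤ δ v) →
    (∀ v, (δ v * B) ^ C ≤ a) →
    ∃ (Dn Dl κ e M : ℕ) (X0 R : ℝ) (an : AnchX Dn Dl κ e M X0 R),
      Bnd Q0 Dn Dl κ e M X0 R ∧ (2 * R) ^ c ≤ X0 ∧ X0 ≤ (a : ℝ) ^ Q0 ∧ Nonempty (AlgA an Q0) ∧
      Nonempty (DiagM an fun v => thA Fm.pd m (a + δ v)) := sorry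

/-- chapter B, stable sets (helper87): file Pool/Agent/H97/FC/TUM.lean -/
theorem exists_tupM {ν n k Dn Dl κ e M : ℕ} {X0 R : ℝ} (an : AnchX Dn Dl κ e M X0 R)
    {θ : Fin k → Fin n → ℂ} (da : DiagM an θ) (P : Fin k → Ptd ν) {l : Fin n}
    (L : ∀ v, LbG (P v) (v1 (θ v)) l) (T : ∀ v, TrG (v1 (θ v))) (G : ∀ v, GdG (v1 (θ v))) :
    ∃ tu : TupX an P, n ^ k * tu.PP.card ≤ Dn * n * ∏ v, (P v).d := sorry

/-- chapter B, comparable points (helper87): file Pool/Agent/H97/FC/BKM.lean -/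
theorem blkM (k ν Q0 : ℕ) (hk : 1 ≤ k) (hν : 4 ≤ ν) (γ : ℝ) (hγ : 0 < γ) (R1 : ℝ) (hR1 : 1 ≤ R1) :
    ∃ A0 : ℕ, ∀ c0 : ℕ, ∃ c : ℕ,
    ∀ {Dn Dl κ e M : ℕ} {X0 R : ℝ} (an : AnchX Dn Dl κ e M X0 R) (P : Fin k → Ptd ν)
      (tu : TupX an P), Bnd Q0 Dn Dl κ e M X0 R → Scl c X0 R P →
      (1 + γ) * (((k : ℝ) + 1) ^ (k + 1) * (tu.PP.card : ℝ)) ≤
        ((k + 1).factorial : ℝ) * ((Dn : ℝ) * ∏ v, ((P v).d : ℝ)) →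
      (∀ v w, (P v).ell ≤ R1 * (P w).ell) → SpcM A0 c0 fun v => (P v).x := sorry

/-- chapter C (helper98): the lacunary case. File Pool/Agent/H97/FC/FRM.lean -/
theorem farM (k ν Q0 : ℕ) (hk : 1 ≤ k) (hν : 4 ≤ ν) (γ : ℝ) (hγ : 0 < γ) :
    ∃ (R1 : ℝ) (c : ℕ), 1 ≤ R1 ∧
    ∀ {Dn Dl κ e M : ℕ} {X0 R : ℝ} (an : AnchX Dn Dl κ e M X0 R) (_ : AlgA an Q0)
      (P : Fin k → Ptd ν) (tu : TupX an P), Bnd Q0 Dn Dl κ e M X0 R → Scl c X0 R P →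
      (1 + γ) * (((k : ℝ) + 1) ^ (k + 1) * (tu.PP.card : ℝ)) ≤
        ((k + 1).factorial : ℝ) * ((Dn : ℝ) * ∏ v, ((P v).d : ℝ)) →
      (∀ i j : Fin k, i < j → R1 * (P i).ell ≤ (P j).ell) → False := sorry

/-- chapter G (helper5): cliques over fields of any bounded degree. File Pool/Agent/H97/FC/CLM.lean -/
theorem cliquesM (n m D : ℕ) : ∃ J0 C : ℕ, ∀ (B : ℕ) (f : ℤ[X][X]) (_ : FamB n m B f) (X0 : ℕ),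
    B ^ C ≤ X0 → ∀ (k : Type) [Field k] [NumberField k], Module.finrank ℚ k ≤ D →
    ∀ S : Finset ℕ, (∀ a ∈ S, X0 ≤ a ∧ (a - X0) ^ C ≤ X0) →
      (∀ a ∈ S, ¬ Irreducible ((fa f a).map (algebraMap ℤ k))) → S.card ≤ J0 := sorry

/-- chapter G (helper5): among many fibres there are `K` jointly independent ones.
File Pool/Agent/H97/FC/JNT.lean -/
theorem exists_joint (n m K : ℕ) : ∃ J0 C : ℕ, ∀ (B : ℕ) (f : ℤ[X][X]) (Fm : FamB n m B f) (X0 : ℕ),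
    B ^ C ≤ X0 → ∀ S : Finset ℕ, (∀ a ∈ S, X0 ≤ a ∧ (a - X0) ^ C ≤ X0) →
      (∀ a ∈ S, Irreducible ((fa f a).map (Int.castRingHom ℚ))) → J0 ≤ S.card →
      ∃ T ⊆ S, T.card = K ∧ ∀ (k : ℕ) (s : Fin k → ℕ), Function.Injective s → (∀ v, s v ∈ T) →
        TrG (vM fun v => thA Fm.pd m (s v)) := sorry

/-- chapter K (helper37): the growth of free sets of monomials at the points of a cluster.
File Pool/Agent/H97/FC/KEY.lean -/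
theorem key (ν Q0 n k : ℕ) (hν : 4 ≤ ν) (hn : 1 ≤ n) (hk : 4 ≤ k) (R1 : ℝ) (hR1 : 1 ≤ R1) :
    ∃ K0 : ℝ, 1 ≤ K0 ∧ ∀ (K2 : ℝ) (E0 : ℕ) (ρ : ℝ), 0 < ρ → ∃ ρ' : ℝ, 0 < ρ' ∧ ∃ c : ℕ, cA ν ≤ c ∧
    ∀ {Dn Dl κ e M : ℕ} {X0 R : ℝ} (an : AnchX Dn Dl κ e M X0 R) {θ : Fin k → Fin n → ℂ}
      (_ : DiagM an θ) (P : Fin k → Ptd ν) (l : Fin n) (_ : LabM θ P l) (H L Y : ℝ) (E : ℕ)
      (B B' : Finset (Fin k → ℕ × ℕ)),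
      Bnd Q0 Dn Dl κ e M X0 R → Scl c X0 R P → 1 ≤ H → (∀ v i, ‖θ v i‖ ≤ H) →
      (∀ v, c * Real.log H ≤ (P v).ell) → 0 < L →
      (∀ v, L ≤ (P v).ell ∧ (P v).ell ≤ R1 * L) → 1 ≤ E → E ≤ E0 →
      K0 * E * L ≤ Y → Y ≤ K2 * L → B ⊆ bxs (Df P Y) E → Fre (mv P) (ρ * L) B →
      (∀ μ ∈ bxs (Df P (4 * k * Y)) (E + ν), Dep (mv P) (ρ' * L) B' μ) →
      n ^ k * B.card ≤ 100 * n * (k + 3) * B'.card := sorry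

/-- chapter L (helper97): a cluster is impossible. File Pool/Agent/H97/FC/NOC.lean -/
theorem no_cluster (ν Q0 n k A0 : ℕ) (hν : 4 ≤ ν) (hn : 1 ≤ n) (hk : 4 ≤ k)
    (hnk : 200 * n * (k + 3) * (4 * k) ^ 3 < n ^ k) (R1 : ℝ) (hR1 : 1 ≤ R1) : ∃ c0 c : ℕ,
    ∀ {Dn Dl κ e M : ℕ} {X0 R : ℝ} (an : AnchX Dn Dl κ e M X0 R) {θ : Fin k → Fin n → ℂ}
      (_ : DiagM an θ) (P : Fin k → Ptd ν) (l : Fin n) (_ : LabM θ P l) (H : ℝ),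
      Bnd Q0 Dn Dl κ e M X0 R → Scl c X0 R P → 1 ≤ H → (∀ v i, ‖θ v i‖ ≤ H) →
      (∀ v, c * Real.log H ≤ (P v).ell) → (∀ v w, (P v).ell ≤ R1 * (P w).ell) →
      (∀ s : Fin 4 → Fin k, Function.Injective s → SpcM A0 c0 fun u => (P (s u)).x) → False := sorry

end Pool.Agent.H97.FC.IFC
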