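import Pool.Agent.H37.LB.KY1
import Pool.Agent.H37.LB.KY2

/-! # [H37 LB KEY] The growth of free sets of monomials at the points of a cluster (chapter K)

`K0` from `key1 ν n k hν hk R1 hR1`. Given `K2, E0, ρ`: `r1 = ((⌈K2⌉₊ + 1) * E0)^k`; `ρ1, c2` from `key2 Q0 n k r1 hn K2 ρ`; `ρ', c1` from `key1` for `K2 E0 ρ1`. `c = max c1 (c2 * ⌈R1⌉₊ + ..)`: `Scl c`: `(2R)^c2 ≤ X0`, `c log X0 ≤ ell_v ≤ R1 L`, so `c2 log X0 ≤ L` (`c ≥ R1 c2`), `c2 log H ≤ L`, `c2 ≤ L` (`ell_v ≥ c log 2`, `Ptd.ell_ge`, `c ≥ 2 R1 c2`).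
PROOF. Suppose `n^k card B > 100 n (k+3) card B'`; so `B` is not empty. `ι = {μ // μ ∈ B}`, `w μ = mv P μ`, `card ι = card B ≤ card (bxs (Df P Y) E) ≤ r1` (`Df P Y v ≤ Y / ell_v ≤ K2`; `Fintype.card_piFinset`). `C` from `max_set θ (fun _ => l) w (exp (ρ1 L)) (exp (-(4Y)))`.
`n^k card C ≤ card B'`: otherwise `key1` for `C.map (Embedding.subtype _)` gives `Apx` for it with `mv P`, so `Apx .. w .. C` (restrict `z`; `Finset.sum_map`). If `2 n (k+5) card C ≤ card B`: `key2` gives `f ≠ 0` on `ι`, extended by zero, `|f| ≤ exp (ρ L)`, `∑ f μ mv P μ = 0`, contradiction to `Fre` (`hw`: `mv_le` with `E`: `2 E k ell_v ≤ 2 E k R1 L ≤ K0 E L ≤ Y`).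
Otherwise `card B < 2 n (k+5) card C`, `n^k card B ≤ 2 n (k+5) n^k card C ≤ 2 n (k+5) card B' ≤ 100 n (k+3) card B'`. -/

namespace Pool.Agent.H97.FC

open Finset Polynomial Pool.Agent.H72.ES Pool.Agent.H87.SA Pool.Agent.H87.SA2 Pool.Agent.H87.AX
  Pool.Agent.H8.AW Pool.Agent.H52.AC Pool.Agent.H97.NW Pool.Agent.H8.RZ Pool.Agent.H97.FB
  Pool.Agent.H37.LB

private theorem key_card {ν k : ℕ} (P : Fin k → Ptd ν) {Y K2 : ℝ} {E E0 : ℕ} (hE : E ≤ E0)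
    (h0 : ∀ v, 0 < (P v).ell) (hY : ∀ v, Y ≤ K2 * (P v).ell) :
    (bxs (Df P Y) E).card ≤ ((⌈K2⌉₊ + 1) * E0) ^ k := by
  unfold bxs
  rw [Fintype.card_piFinset]
  refine (prod_le_prod' (g := fun _ => (⌈K2⌉₊ + 1) * E0) fun v _ => ?_).trans (le_of_eq ?_)
  · rw [card_product, card_range, card_range]
    refine Nat.mul_le_mul ?_ hE
    have h1 : Df P Y v ≤ ⌈K2⌉₊ := by
      unfold Df
      refine (Nat.floor_le_floor ?_).trans (Nat.floor_le_ceil K2)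
      rw [div_le_iff₀ (h0 v)]
      exact hY v
    omega
  · rw [prod_const, card_univ, Fintype.card_fin]

private theorem key_map {k n : ℕ} {θ : Fin k → Fin n → ℂ} {p0 : Ix k n} {w : (Fin k → ℕ × ℕ) → ℤ}
    {Z δ : ℝ} {B : Finset (Fin k → ℕ × ℕ)} (C : Finset {μ // μ ∈ B})
    (h : Apx θ p0 w Z δ (C.map (Function.Embedding.subtype _))) :
    Apx θ p0 (fun μ : {μ // μ ∈ B} => w μ.1) Z δ C := by
  obtain ⟨z, ⟨μ, hμ, hz⟩, hb, hs⟩ := h
  refine ⟨fun μ => z μ.1, ?_, ?_, ?_⟩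
  · rw [mem_map] at hμ
    obtain ⟨μ', hμ', rfl⟩ := hμ
    exact ⟨μ', hμ', hz⟩
  · intro μ' hμ' β
    exact hb μ'.1 (mem_map.2 ⟨μ', hμ', rfl⟩) β
  · rw [sum_map] at hs
    exact hs

theorem key (ν Q0 n k : ℕ) (hν : 4 ≤ ν) (hn : 1 ≤ n) (hk : 4 ≤ k) (R1 : ℝ) (hR1 : 1 ≤ R1) :
    ∃ K0 : ℝ, 1 ≤ K0 ∧ ∀ (K2 : ℝ) (E0 : ℕ) (ρ : ℝ), 0 < ρ → ∃ ρ' : ℝ, 0 < ρ' ∧ ∃ c : ℕ, cA ν ≤ c ∧
    ∀ {Dn Dl κ e M : ℕ} {X0 R : ℝ} (an : AnchX Dn Dl κ e M X0 R) {θ : Fin k → Fin n → ℂ}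
      (_ : DiagM an θ) (P : Fin k → Ptd ν) (l : Fin n) (_ : LabM θ P l) (H L Y : ℝ) (E : ℕ)
      (B B' : Finset (Fin k → ℕ × ℕ)),
      Bnd Q0 Dn Dl κ e M X0 R → Scl c X0 R P → 1 ≤ H → (∀ v i, ‖θ v i‖ ≤ H) →
      (∀ v, c * Real.log H ≤ (P v).ell) → 0 < L →
      (∀ v, L ≤ (P v).ell ∧ (P v).ell ≤ R1 * L) → 1 ≤ E → E ≤ E0 →
      K0 * E * L ≤ Y → Y ≤ K2 * L → B ⊆ bxs (Df P Y) E → Fre (mv P) (ρ * L) B →
      (∀ μ ∈ bxs (Df P (4 * k * Y)) (E + ν), Dep (mv P) (ρ' * L) B' μ) →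
      n ^ k * B.card ≤ 100 * n * (k + 3) * B'.card := by
  obtain ⟨K0, hK0, hK0k, hkey1⟩ := key1 ν n k hν hk R1 hR1
  refine ⟨K0, hK0, fun K2 E0 ρ hρ => ?_⟩
  obtain ⟨ρ1, hρ1, c2, hkey2⟩ := key2 Q0 n k (((⌈K2⌉₊ + 1) * E0) ^ k) hn K2 ρ hρ
  obtain ⟨ρ', hρ', c1, hc1, hkey1⟩ := hkey1 K2 E0 ρ1 hρ1
  obtain ⟨c, hcd⟩ : ∃ c : ℕ, c = max c1 (2 * ⌈R1⌉₊ * (c2 + 1)) := ⟨_, rfl⟩
  have hcc1 : c1 ≤ c := by rw [hcd]; exact le_max_left _ _
  have hcc2 : 2 * ⌈R1⌉₊ * (c2 + 1) ≤ c := by rw [hcd]; exact le_max_right _ _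
  refine ⟨ρ', hρ', c, hc1.trans hcc1, ?_⟩
  intro Dn Dl κ e M X0 R an θ dm P l lm H L Y E B B' hB hS hH hθ hlH hL hLe hE hE0 hKY hYK hBs hF hdep
  classical
  have hR10 : 0 < R1 := by linarith
  have hceil : R1 ≤ (⌈R1⌉₊ : ℝ) := Nat.le_ceil R1
  have hc2R : 2 * R1 * ((c2 : ℝ) + 1) ≤ c := by
    have h1 : ((2 * ⌈R1⌉₊ * (c2 + 1) : ℕ) : ℝ) ≤ c := by exact_mod_cast hcc2
    push_cast at h1
    refine le_trans ?_ h1
    have h2 : (0 : ℝ) ≤ (c2 : ℝ) + 1 := by positivity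
    nlinarith
  have hR2 := hB.R2
  have hc2c : c2 ≤ c := by
    have h1 : 1 ≤ ⌈R1⌉₊ := Nat.one_le_ceil_iff.2 hR10
    have h2 : 1 * (c2 + 1) ≤ 2 * ⌈R1⌉₊ * (c2 + 1) := Nat.mul_le_mul_right _ (by omega)
    omega
  have h2R : (1 : ℝ) ≤ 2 * R := by linarith
  have hX1 : (1 : ℝ) ≤ X0 := (one_le_pow₀ h2R).trans hS.RX
  have hlX : 0 ≤ Real.log X0 := Real.log_nonneg hX1
  have v0 : Fin k := ⟨0, by omega⟩
  have hell0 : ∀ v, 0 < (P v).ell := fun v => hL.trans_le (hLe v).1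
  -- the parameters of `key2`
  have hdiv : ∀ t : ℝ, 0 ≤ t → c * t ≤ R1 * L → c2 * t ≤ L := by
    intro t ht h
    have h1 : 2 * R1 * ((c2 : ℝ) + 1) * t ≤ R1 * L := (mul_le_mul_of_nonneg_right hc2R ht).trans h
    have h2 : R1 * (2 * ((c2 : ℝ) + 1) * t) ≤ R1 * L := by linarith
    have h3 := le_of_mul_le_mul_left h2 hR10
    nlinarith [mul_nonneg (Nat.cast_nonneg c2 : (0 : ℝ) ≤ c2) ht]
  have hp1 : (2 * R) ^ c2 ≤ X0 := (pow_le_pow_right₀ h2R hc2c).trans hS.RX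
  have hp2 : c2 * Real.log X0 ≤ L := hdiv _ hlX ((hS.low v0).trans (hLe v0).2)
  have hp3 : (c2 : ℝ) ≤ L := by
    have h1 := ((P v0).ell_ge (hS.thr v0)).2
    have h2 : (c : ℝ) * Real.log 2 ≤ R1 * L := h1.trans (hLe v0).2
    have h3 : (1 : ℝ) / 2 ≤ Real.log 2 := by
      have := Real.log_two_gt_d9
      linarith
    have h4 : (c : ℝ) * (1 / 2) ≤ R1 * L :=
      (mul_le_mul_of_nonneg_left h3 (Nat.cast_nonneg _)).trans h2
    have h5 : R1 * ((c2 : ℝ) + 1) ≤ R1 * L := by linarith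
    have h6 := le_of_mul_le_mul_left h5 hR10
    linarith
  have hp4 : c2 * Real.log H ≤ L := hdiv _ (Real.log_nonneg hH) ((hlH v0).trans (hLe v0).2)
  have hE1 : (1 : ℝ) ≤ E := by exact_mod_cast hE
  have hkr : (4 : ℝ) ≤ k := by exact_mod_cast hk
  have hK0E : K0 * L ≤ K0 * E * L := by
    have h1 : K0 * 1 ≤ K0 * E := mul_le_mul_of_nonneg_left hE1 (by linarith)
    nlinarith
  have hLY : L ≤ Y := by nlinarith
  have hY0 : 0 < Y := hL.trans_le hLY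
  -- the sizes
  have hEk : ∀ v, 2 * E * k * (P v).ell ≤ Y := by
    intro v
    refine le_trans ?_ hKY
    have h1 : 2 * (E : ℝ) * k * (P v).ell ≤ 2 * E * k * (R1 * L) :=
      mul_le_mul_of_nonneg_left (hLe v).2 (by positivity)
    have h2 : (2 * k * R1) * (E * L) ≤ K0 * (E * L) :=
      mul_le_mul_of_nonneg_right hK0k (by positivity)
    linarith
  have hellY : ∀ v, (P v).ell ≤ Y := by
    intro v
    refine le_trans ?_ (hEk v)
    have h1 : (1 : ℝ) ≤ 2 * E * k := by nlinarith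
    have := hell0 v
    nlinarith
  have hmv := mv_le hν P (fun v => (P v).thr_mono (hc1.trans hcc1) (hS.thr v)) hEk hellY hY0.le
  rcases B.eq_empty_or_nonempty with hBe | hBne
  · rw [hBe, card_empty]
    simp
  have hBc : B.card ≤ ((⌈K2⌉₊ + 1) * E0) ^ k := by
    refine (card_le_card hBs).trans (key_card P hE0 hell0 fun v => ?_)
    rcases le_or_gt 0 K2 with hK2 | hK2
    · exact hYK.trans (mul_le_mul_of_nonneg_left (hLe v).1 hK2)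
    · exfalso
      have := mul_neg_of_neg_of_pos hK2 hL
      linarith
  obtain ⟨C, hC1, hC2⟩ := max_set θ (fun _ => l) (fun μ : {μ // μ ∈ B} => mv P μ.1)
    (Real.exp (ρ1 * L)) (Real.exp (-(4 * Y)))
  have hcardι : Fintype.card {μ // μ ∈ B} = B.card := Fintype.card_coe B
  have hCB : n ^ k * C.card ≤ B'.card := by
    by_contra hcon
    push Not at hcon
    apply hC1
    apply key_map C
    refine hkey1 P l lm H L Y E (C.map (Function.Embedding.subtype _)) B'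
      (fun v => (P v).thr_mono hcc1 (hS.thr v)) hH hθ (fun v => ?_) hL hLe hE hE0 hKY hYK ?_ hdep ?_
    · refine le_trans ?_ (hlH v)
      exact mul_le_mul_of_nonneg_right (by exact_mod_cast hcc1) (Real.log_nonneg hH)
    · intro μ hμ
      rw [mem_map] at hμ
      obtain ⟨μ', _, rfl⟩ := hμ
      exact hBs μ'.2
    · rw [card_map]
      exact hcon
  by_cases hcase : 2 * n * (k + 5) * C.card ≤ B.card
  · exfalso
    obtain ⟨f, hf0, hfb, hfs⟩ := hkey2 an dm lm.g lm.monic lm.rts lm.tr l H L Y hB hp1 hp2 hp3 hH hθ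
      hp4 hLY hYK (by rw [hcardι]; exact hBc) (by rw [hcardι]; exact card_pos.2 hBne)
      (fun μ : {μ // μ ∈ B} => mv P μ.1) (fun μ => hmv μ.1 (hBs μ.2)) C hC1 hC2
      (by rw [hcardι]; exact hcase)
    have h1 := hF (fun μ => if h : μ ∈ B then f ⟨μ, h⟩ else 0) (by
      intro μ hμ
      simp only [dif_pos hμ]
      exact hfb _) (by
      rw [← hfs, ← sum_coe_sort]
      refine sum_congr rfl fun μ _ => ?_
      rw [dif_pos μ.2])
    apply hf0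
    funext μ
    have h2 := h1 μ.1 μ.2
    rw [dif_pos μ.2] at h2
    exact h2
  · push Not at hcase
    calc n ^ k * B.card ≤ n ^ k * (2 * n * (k + 5) * C.card) :=
          Nat.mul_le_mul_left _ hcase.le
      _ = 2 * n * (k + 5) * (n ^ k * C.card) := by ring
      _ ≤ 2 * n * (k + 5) * B'.card := Nat.mul_le_mul_left _ hCB
      _ ≤ 100 * n * (k + 3) * B'.card := by
          refine Nat.mul_le_mul_right _ ?_
          have : 2 * n * (k + 5) = n * (2 * (k + 5)) := by ring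
          rw [this]
          have h2 : 100 * n * (k + 3) = n * (100 * (k + 3)) := by ring
          rw [h2]
          exact Nat.mul_le_mul_left _ (by omega)

end Pool.Agent.H97.FC
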