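import Pool.Agent.H97.FC.Defs
import Pool.Agent.H97.NW.RDX
import Pool.Agent.H97.FB.RDG

/-! # [H97 FC RDM] Several fields at infinity: from an arbitrary curve to a labelled pointed curve (helper87)

`INs G F`: every real point at infinity of `F = 0` carries a root of some `g ∈ G`. As
`Pool/Agent/H97/FB/RDG.lean`; only the orbit of the near branch is labelled. The residue field `Kf` of the
near branch is real, so it contains a root of some `g ∈ G` (`kap_repK` and `inf_inf1K` are used with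
the field `ZMod 2`, which does not embed in a field of characteristic `0`). -/

namespace Pool.Agent.H97.FC

open Finset Polynomial Pool.Agent.H72.ES Pool.Agent.H87.SA2 Pool.Agent.H8.AW Pool.Agent.H52.AC
  Pool.Agent.H97.NW Pool.Agent.H34.AC Pool.Agent.H97.FB Pool.Agent.H97.XC

/-- every real point at infinity of `F = 0` carries a root of some `g ∈ G` -/
def INs (G : Set ℤ[X]) (F : MvPolynomial (Fin 2) ℤ) : Prop :=
  ∀ (K : Type) [Field K] [NumberField K], Nonempty (K →+* ℝ) →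
    ∀ (X Y : LaurentSeries K), vl F X Y = 0 →
      (X ∈ (HahnSeries.ofPowerSeries ℤ K).range ∧ Y ∈ (HahnSeries.ofPowerSeries ℤ K).range) ∨
        ∃ g ∈ G, ∃ θ : K, aeval θ g = 0

private theorem rdm_no2 {K : Type} [Field K] [CharZero K] (h : Nonempty (ZMod 2 →+* K)) : False := by
  obtain ⟨κ⟩ := h
  have h1 : κ (2 : ZMod 2) = (2 : K) := map_ofNat κ 2
  have h2 : (2 : ZMod 2) = 0 := by decide
  rw [h2, map_zero] at h1
  exact two_ne_zero h1.symm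

/-- the labels of the orbit of a real branch -/
private theorem rdm_lab {f : ℤ[X][X]} {d : ℕ} (pd : PData f d) (G : Set ℤ[X])
    (hinf : ∀ (K : Type) [Field K] [NumberField K], Nonempty (K →+* ℝ) → ∀ (r : K) (e : ℕ)
      (x : PowerSeries K), r ≠ 0 → 1 ≤ e → (f.map (tQ K r e)).eval x = 0 →
      ∃ g ∈ G, ∃ θ : K, aeval θ g = 0)
    (i0 : Fin d) (ζ0 : ℂ) (hζ0 : ζ0 ^ pd.e = 1)
    (h0 : PowerSeries.rescale ζ0 ((pd.x i0).map (starRingEnd ℂ)) = pd.x i0) :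
    ∃ g ∈ G, ∃ (S : Finset (Fin d)) (τ : Fin d → ℂ), i0 ∈ S ∧ (∀ j ∈ S, aeval (τ j) g = 0) ∧
      (∀ (σ : AA →+* ℂ), ∀ i ∈ S, ∀ j : Fin d,
        (∀ (m : ℕ) (a : AA), (a : ℂ) = PowerSeries.coeff m (pd.x i) →
          σ a = PowerSeries.coeff m (pd.x j)) →
        j ∈ S ∧ ∀ a : AA, (a : ℂ) = τ i → σ a = τ j) ∧
      (∀ (ζ : ℂ), ∀ i ∈ S, ∀ j : Fin d, ζ ^ pd.e = 1 →
        PowerSeries.rescale ζ (pd.x i) = pd.x j → j ∈ S ∧ τ j = τ i) := by
  classical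
  obtain ⟨c, hc⟩ := exists_conjA
  obtain ⟨ξ, hξ, hs, hinj⟩ := exists_xi pd
  obtain ⟨e, hee⟩ : ∃ e, e = pd.e := ⟨_, rfl⟩
  have he : 1 ≤ e := hee ▸ pd.e_pos
  have hne0 : ∀ ζ : AA, ζ ^ e = 1 → ζ ≠ 0 := by
    intro ζ h h0
    rw [h0, zero_pow (by omega)] at h
    exact zero_ne_one h
  rw [← hee] at hs hζ0
  have hcoe2 : ∀ i m, ((PowerSeries.coeff m (ξ i) : AA) : ℂ) = PowerSeries.coeff m (pd.x i) := by
    intro i m
    rw [← hξ, PowerSeries.coeff_map]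
    rfl
  have hlift : ∀ ζ : ℂ, ζ ^ e = 1 → ∃ ζ' : AA, (ζ' : ℂ) = ζ ∧ ζ' ^ e = 1 := by
    intro ζ hζ
    have hζA : ζ ∈ AA := by
      rw [mem_algebraicClosure_iff]
      have h2 : IsIntegral ℚ (ζ ^ e) := by
        rw [hζ]
        exact isIntegral_one
      exact (IsIntegral.of_pow he h2).isAlgebraic
    refine ⟨⟨ζ, hζA⟩, rfl, ?_⟩
    apply Subtype.ext
    rw [SubmonoidClass.coe_pow, hζ]
    rfl
  -- the residue field is real
  obtain ⟨ζ1, hζ1, hζ1e⟩ := hlift ζ0 hζ0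
  have hreal : act c ζ1 (ξ i0) = ξ i0 := by
    refine PowerSeries.ext fun m => ?_
    rw [coeff_act]
    apply Subtype.ext
    have h3 := congrArg (PowerSeries.coeff m) h0
    rw [PowerSeries.coeff_rescale, PowerSeries.coeff_map] at h3
    rw [hcoe2, ← h3, ← hζ1, ← hcoe2, ← hc]
    rfl
  have hr := real_Kf hc hζ1e hreal
  have hfd := Kf_fin hs hinj i0
  have hnf : NumberField (Kf e (ξ i0)) :=
    { to_charZero := inferInstance, to_finiteDimensional := hfd }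
  -- the root
  have hroot : ∃ g ∈ G, ∃ θ : Kf e (ξ i0), aeval θ g = 0 := by
    by_contra hcon
    obtain ⟨κ, -⟩ := kap_repK
      (P := fun K _ _ => Nonempty (K →+* ℝ) ∧ ¬ ∃ g ∈ G, ∃ θ : K, aeval θ g = 0) (ZMod 2)
      (fun K _ _ hK r e' x h1 h2 h3 => absurd (hinf K hK.1 r e' x h1 h2 h3) hK.2) he pd.q_pos hs
      hinj i0 (by
        intro _
        exact ⟨hr, hcon⟩)
    exact rdm_no2 ⟨κ⟩
  obtain ⟨g, hg, θ, hθ⟩ := hroot
  refine ⟨g, hg, ?_⟩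
  have hfix : ∀ (σ : AA ≃ₐ[ℚ] AA) (ζ : AA), ζ ^ e = 1 → act σ ζ (ξ i0) = ξ i0 →
      σ (θ : AA) = (θ : AA) := fun σ ζ h1 h2 => θ.2 σ ζ h1 h2
  have hθA : aeval (θ : AA) g = 0 := by
    have h1 := congrArg (algebraMap (Kf e (ξ i0)) AA) hθ
    rw [map_zero, ← aeval_algebraMap_apply] at h1
    exact h1
  -- the orbit
  have hsel : ∀ j : Fin d, ∃ (σ : AA ≃ₐ[ℚ] AA) (ζ : AA),
      (∃ (σ : AA ≃ₐ[ℚ] AA) (ζ : AA), ζ ^ e = 1 ∧ act σ ζ (ξ i0) = ξ j) →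
        ζ ^ e = 1 ∧ act σ ζ (ξ i0) = ξ j := by
    intro j
    by_cases hj : ∃ (σ : AA ≃ₐ[ℚ] AA) (ζ : AA), ζ ^ e = 1 ∧ act σ ζ (ξ i0) = ξ j
    · obtain ⟨σ, ζ, h⟩ := hj
      exact ⟨σ, ζ, fun _ => h⟩
    · exact ⟨AlgEquiv.refl, 1, fun h => absurd h hj⟩
  choose s z hsz using hsel
  -- equivariance
  have hmain : ∀ (σ : AA ≃ₐ[ℚ] AA) (ζ : AA) (i j : Fin d), ζ ^ e = 1 → act σ ζ (ξ i) = ξ j →
      (∃ (σ : AA ≃ₐ[ℚ] AA) (ζ : AA), ζ ^ e = 1 ∧ act σ ζ (ξ i0) = ξ i) →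
      (∃ (σ : AA ≃ₐ[ℚ] AA) (ζ : AA), ζ ^ e = 1 ∧ act σ ζ (ξ i0) = ξ j) ∧
        σ (s i (θ : AA)) = s j (θ : AA) := by
    intro σ ζ i j h1 h2 hi
    obtain ⟨h3, h4⟩ := hsz i hi
    have hj : ∃ (σ : AA ≃ₐ[ℚ] AA) (ζ : AA), ζ ^ e = 1 ∧ act σ ζ (ξ i0) = ξ j := by
      refine ⟨(s i).trans σ, ζ * σ (z i), ?_, ?_⟩
      · rw [mul_pow, ← map_pow, h1, h3, map_one, mul_one]
      · rw [← act_act, h4, h2]
    refine ⟨hj, ?_⟩
    obtain ⟨h5, h6⟩ := hsz j hj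
    have h7 : act (s j).symm ((s j).symm (z j)⁻¹) (act σ ζ (act (s i) (z i) (ξ i0))) = ξ i0 := by
      rw [h4, h2]
      exact act_symm (hne0 _ h5) h6
    rw [act_act, act_act] at h7
    have h8 := hfix _ _ ?_ h7
    · rw [AlgEquiv.trans_apply, AlgEquiv.trans_apply] at h8
      have h9 := congrArg (s j) h8
      rw [AlgEquiv.apply_symm_apply] at h9
      exact h9
    · rw [mul_pow, mul_pow, ← map_pow, ← map_pow, ← map_pow, inv_pow, h3, h5, h1]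
      simp
  have hself : ∃ (σ : AA ≃ₐ[ℚ] AA) (ζ : AA), ζ ^ e = 1 ∧ act σ ζ (ξ i0) = ξ i0 :=
    ⟨AlgEquiv.refl, 1, one_pow e, by
      refine PowerSeries.ext fun m => ?_
      rw [coeff_act, one_pow, one_mul]
      rfl⟩
  refine ⟨Finset.univ.filter fun j => ∃ (σ : AA ≃ₐ[ℚ] AA) (ζ : AA), ζ ^ e = 1 ∧
    act σ ζ (ξ i0) = ξ j, fun j => ((s j (θ : AA) : AA) : ℂ), ?_, ?_, ?_, ?_⟩
  · rw [Finset.mem_filter]
    exact ⟨Finset.mem_univ _, hself⟩
  · intro j _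
    have h1 : aeval (s j (θ : AA)) g = 0 := by
      have h2 := congrArg (s j) hθA
      rw [map_zero] at h2
      have h3 : s j (aeval (θ : AA) g) = aeval (s j (θ : AA)) g := by
        rw [aeval_def, aeval_def, ← RingHom.coe_coe, hom_eval₂]
        congr 1
        exact Subsingleton.elim _ _
      rw [← h3, h2]
    have h2 := congrArg (algebraMap AA ℂ) h1
    rw [map_zero, ← aeval_algebraMap_apply] at h2
    exact h2
  · intro σ i hi j h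
    rw [Finset.mem_filter] at hi
    obtain ⟨τ, hτ⟩ := aa_equiv σ
    have h1 : act τ 1 (ξ i) = ξ j := by
      refine PowerSeries.ext fun m => ?_
      rw [coeff_act, one_pow, one_mul]
      apply Subtype.ext
      rw [hτ, h m _ (hcoe2 i m), hcoe2]
    obtain ⟨h2a, h2⟩ := hmain τ 1 i j (one_pow e) h1 hi.2
    refine ⟨Finset.mem_filter.2 ⟨Finset.mem_univ j, h2a⟩, fun a ha => ?_⟩
    have h3 : a = s i (θ : AA) := Subtype.ext ha
    rw [← hτ, h3, h2]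
  · intro ζ i hi j hζ h
    rw [Finset.mem_filter] at hi
    rw [← hee] at hζ
    obtain ⟨ζ', hζ', h1⟩ := hlift ζ hζ
    have h2 : act AlgEquiv.refl ζ' (ξ i) = ξ j := by
      refine PowerSeries.ext fun m => ?_
      rw [coeff_act]
      apply Subtype.ext
      have h3 := congrArg (PowerSeries.coeff m) h
      rw [PowerSeries.coeff_rescale] at h3
      rw [hcoe2, ← h3, ← hζ', ← hcoe2]
      rfl
    obtain ⟨h4a, h4⟩ := hmain AlgEquiv.refl ζ' i j h1 h2 hi.2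
    refine ⟨Finset.mem_filter.2 ⟨Finset.mem_univ j, h4a⟩, ?_⟩
    have h5 := congrArg (algebraMap AA ℂ) h4
    exact h5.symm

/-- a curve `p(x) = 0` with an integer point has a point at infinity over `ℚ` -/
private theorem rdm_y {G : Set ℤ[X]} (hG : ∀ g ∈ G, ∀ θ : ℚ, aeval θ g ≠ 0)
    {F : MvPolynomial (Fin 2) ℤ} (hinf : INs G F) {x0 y0 : ℤ} (h0 : vl F x0 y0 = 0) :
    ∃ m ∈ F.support, 1 ≤ m 1 := by
  by_contra hcon
  push Not at hcon
  obtain ⟨ι, hι⟩ : ∃ ι : PowerSeries ℚ →+* LaurentSeries ℚ, ι = HahnSeries.ofPowerSeries ℤ ℚ :=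
    ⟨_, rfl⟩
  have hιinj : Function.Injective ι := by
    rw [hι]
    exact HahnSeries.ofPowerSeries_injective
  have hιt : ι PowerSeries.X ≠ 0 := by
    intro h0
    exact PowerSeries.X_ne_zero (hιinj (h0.trans (map_zero _).symm))
  have h1 : vl F (x0 : LaurentSeries ℚ) (ι PowerSeries.X)⁻¹ = 0 := by
    have h2 : vl F (x0 : LaurentSeries ℚ) (ι PowerSeries.X)⁻¹ =
        vl F (x0 : LaurentSeries ℚ) (y0 : LaurentSeries ℚ) := by
      rw [vl_eq, vl_eq]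
      refine Finset.sum_congr rfl fun m hm => ?_
      have h3 : m 1 = 0 := by
        have := hcon m hm
        omega
      rw [h3, pow_zero, pow_zero]
    rw [h2]
    have h3 := vl_hom (Int.castRingHom (LaurentSeries ℚ)) F x0 y0
    rw [h0, map_zero] at h3
    exact h3.symm
  rcases hinf ℚ ⟨algebraMap ℚ ℝ⟩ _ _ h1 with ⟨_, h3⟩ | ⟨g, hg, θ, hθ⟩
  · rw [← hι] at h3
    obtain ⟨v, hv⟩ := h3
    have h4 : v * PowerSeries.X = 1 := by
      apply hιinj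
      rw [map_mul, hv, inv_mul_cancel₀ hιt, map_one]
    have h5 := congrArg PowerSeries.constantCoeff h4
    rw [map_mul, PowerSeries.constantCoeff_X, mul_zero, map_one] at h5
    exact zero_ne_one h5
  · exact hG g hg θ hθ

/-- conversion to a curve with `ℚ` at infinity -/
private noncomputable def rdm_toQ {n d b : ℕ} {F : ℕ → ℕ → ℤ} (C : CrvB n d b F) (h4 : 4 ≤ d) :
    CrvA ℚ n d b F where
  d4 := h4
  dn := C.dn
  b2 := C.b2
  lead := C.lead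
  le := C.le
  irr := C.irr
  pd := C.pd
  e_le := C.e_le
  q_le := C.q_le
  R_le := C.R_le
  kp := Pool.Agent.H8.AS.kapQ C.pd
  bez := C.bez

private theorem rdm_near {n d b : ℕ} {F : ℕ → ℕ → ℤ} (C : CrvB n d b F)
    (h4 : 4 ≤ d) {x y : ℤ} (hx : (b : ℝ) + 1 ≤ |(x : ℝ)|) {T : ℂ}
    (hT : C.pd.R * ‖T‖ < 1) (hTx : ((C.pd.q : ℂ) * T) ^ C.pd.e * (x : ℂ) = 1) {i : Fin d}
    (hi : evz T (C.pd.x i) = (y : ℂ) / (x : ℂ)) :
    ∃ ζ : ℂ, ζ ^ C.pd.e = 1 ∧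
      PowerSeries.rescale ζ ((C.pd.x i).map (starRingEnd ℂ)) = C.pd.x i := by
  have hi' : evT T (C.pd.x i) = (y : ℂ) / (x : ℂ) := hi
  have hxC : (x : ℂ) ≠ 0 := by
    rintro h
    rw [h, mul_zero] at hTx
    exact zero_ne_one hTx
  have ht : ((C.pd.q : ℂ) * T) ^ C.pd.e = 1 / (x : ℂ) := by
    rw [eq_div_iff hxC]
    exact hTx
  have he : C.pd.e ≠ 0 := by have := C.pd.e_pos; omega
  have hT0 : T ≠ 0 := by
    rintro rfl
    rw [mul_zero, zero_pow he] at ht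
    exact one_div_ne_zero hxC ht.symm
  have hq0 : (C.pd.q : ℂ) ≠ 0 := by
    have := C.pd.q_pos
    exact_mod_cast (by omega : C.pd.q ≠ 0)
  obtain ⟨j, hj⟩ := perm_of C.pd (PowerSeries.map (starRingEnd ℂ)) (tq_conj' _ _) i
  set ζ : ℂ := starRingEnd ℂ T / T with hζ
  have hζT : ζ * T = starRingEnd ℂ T := by rw [hζ]; field_simp
  have hζe : ζ ^ C.pd.e = 1 := by
    have h1 : starRingEnd ℂ (((C.pd.q : ℂ) * T) ^ C.pd.e) = ((C.pd.q : ℂ) * T) ^ C.pd.e := by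
      rw [ht]
      simp
    rw [map_pow, map_mul, Complex.conj_natCast, mul_pow, mul_pow] at h1
    have h2 := mul_left_cancel₀ (pow_ne_zero _ hq0) h1
    rw [hζ, div_pow, h2]
    exact div_self (pow_ne_zero _ hT0)
  obtain ⟨l, hl⟩ := perm_of C.pd (PowerSeries.rescale ζ) (tq_rescale hζe) j
  have hev : evT T (C.pd.x l) = (y : ℂ) / (x : ℂ) := by
    rw [← hl, evT_rescale, hζT, ← hj, evT_conj, hi']
    simp
  have hli : l = i := (rdm_toQ C h4).sep hx hT hTx (hev.trans hi'.symm)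
  refine ⟨ζ, hζe, ?_⟩
  have h1 : PowerSeries.map (starRingEnd ℂ) (C.pd.x i) = C.pd.x j := hj
  rw [h1, hl, hli]

theorem redM (d : ℕ) (hd : 3 ≤ d) (c : ℕ) (hc : cA (d * (d + 1)) ≤ c)
    (G : Set ℤ[X]) (hG : ∀ g ∈ G, g.Monic ∧ Irreducible (g.map (Int.castRingHom ℚ)) ∧
      2 ≤ g.natDegree) (F : MvPolynomial (Fin 2) ℤ)
    (hF : Irreducible (MvPolynomial.map (Int.castRingHom ℚ) F)) (hdeg : F.totalDegree ≤ d)
    (hinf : INs G F) (H : ℕ) (hH2 : 2 ≤ H) (hH : ∀ m, |F.coeff m| ≤ (H : ℤ)) (x y : ℤ)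
    (h0 : vl F x y = 0) (hbig : H ^ (cR d * c * (2 * d + 3)) < max x.natAbs y.natAbs) :
    ∃ P : Ptd (d * (d + 1)), ∃ g ∈ G, P.Thr c ∧
      ((max x.natAbs y.natAbs : ℕ) : ℝ) ≤ |(P.x : ℝ)| ^ (2 * d + 3) ∧
      ∀ (n : ℕ) (θ : Fin n → ℂ), Rts g θ → ∃ l0, Nonempty (LbG P (v1 θ) l0) := by
  have hGQ : ∀ g ∈ G, ∀ θ : ℚ, aeval θ g ≠ 0 := by
    intro g hg θ hθ
    obtain ⟨hg1, hg3, hg2⟩ := hG g hg
    have h1 : (g.map (Int.castRingHom ℚ)).IsRoot θ := by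
      rw [IsRoot, eval_map]
      exact hθ
    have h2 := degree_eq_one_of_irreducible_of_root hg3 h1
    have h3 : (g.map (Int.castRingHom ℚ)).natDegree = g.natDegree := hg1.natDegree_map _
    have h4 : (g.map (Int.castRingHom ℚ)).natDegree = 1 := natDegree_eq_of_degree_eq_some h2
    omega
  obtain ⟨m0, hm0, hm1⟩ := rdm_y hGQ hinf h0
  obtain ⟨D, b, F', a, ⟨Cc⟩, h4, hb, ha0, -, hev⟩ :=
    redB d hd F hF hdeg ⟨m0, hm0, hm1⟩ H hH2 hH
  obtain ⟨m, hm⟩ : ∃ m, m = max x.natAbs y.natAbs := ⟨_, rfl⟩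
  rw [← hm] at hbig ⊢
  have hN1 : 1 ≤ d * (d + 1) := Nat.mul_pos (by omega) (by omega)
  obtain ⟨hcA1, hcA2⟩ := H8.AF.cA_ge hN1
  have hb2 : 2 ≤ b := Cc.b2
  have hevZ : ev D F' (y + x ^ (d + 1)) (a * x) = 0 := by
    have h := hev ℤ x y
    have hc' : cst ℤ F' = F' := by
      funext i j
      simp [cst]
    rw [hc', h0, mul_zero] at h
    simpa using h
  have hHm : b ^ (c * (2 * d + 3)) < m := by
    calc b ^ (c * (2 * d + 3)) ≤ (H ^ cR d) ^ (c * (2 * d + 3)) :=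
          Nat.pow_le_pow_left hb _
      _ = H ^ (cR d * c * (2 * d + 3)) := by rw [← pow_mul, mul_assoc]
      _ < m := hbig
  have hkey : ∀ V : ℤ, (b : ℤ) ^ (2 * (d * (d + 1)) + 1) ≤ V → |y + x ^ (d + 1)| ≤ V →
      (m : ℤ) ≤ V ^ (2 * d + 3) := by
    intro V hV hu
    obtain ⟨h1, h2⟩ := H8.AF.size_up (by omega) Cc.dn hb2 Cc.lead Cc.le ha0 hV hu hevZ
    rw [hm]
    rw [Int.abs_eq_natAbs] at h1 h2
    push_cast
    rw [Int.abs_eq_natAbs, Int.abs_eq_natAbs]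
    exact max_le h1 h2
  have hbc : (b : ℤ) ^ (2 * (d * (d + 1)) + 1) ≤ (b : ℤ) ^ c :=
    pow_le_pow_right₀ (by exact_mod_cast (by omega : 1 ≤ b)) (hcA1.trans hc)
  have hu : (b : ℤ) ^ c ≤ |y + x ^ (d + 1)| := by
    by_contra hcon
    push Not at hcon
    have h1 := hkey _ hbc hcon.le
    rw [← pow_mul] at h1
    have h2 : m ≤ b ^ (c * (2 * d + 3)) := by exact_mod_cast h1
    omega
  have hup : (m : ℤ) ≤ |y + x ^ (d + 1)| ^ (2 * d + 3) := hkey _ (hbc.trans hu) le_rfl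
  have huR : (b : ℝ) ^ c ≤ |((y + x ^ (d + 1) : ℤ) : ℝ)| := by
    have : ((b : ℤ) ^ c : ℤ) ≤ |y + x ^ (d + 1)| := hu
    exact_mod_cast this
  obtain ⟨i, T, hT, hTx, hi⟩ := Cc.pt h4 (hcA2.trans hc) hevZ huR
  have hb1 : (b : ℝ) + 1 ≤ |((y + x ^ (d + 1) : ℤ) : ℝ)| := by
    have hb2R : (2 : ℝ) ≤ b := by exact_mod_cast hb2
    have hN2 : 2 ≤ c := by omega
    calc (b : ℝ) + 1 ≤ (b : ℝ) ^ 2 := by nlinarith
      _ ≤ (b : ℝ) ^ c := pow_le_pow_right₀ (by linarith) hN2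
      _ ≤ _ := huR
  obtain ⟨ζ, hζ1, hζ2⟩ := rdm_near Cc h4 hb1 hT hTx hi
  -- points at infinity of the new model
  have hinf1 : ∀ (K : Type) [Field K] [NumberField K], Nonempty (K →+* ℝ) → ∀ (r : K) (e : ℕ)
      (x : PowerSeries K), r ≠ 0 → 1 ≤ e → ((H8.AW.fI D F').map (tQ K r e)).eval x = 0 →
      ∃ g ∈ G, ∃ θ : K, aeval θ g = 0 := by
    intro K _ _ hK r' e x' hr' he hx'
    by_contra hcon
    have h1 := inf_inf1K (ZMod 2) (F := F) K (fun X Y hXY => by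
      rcases hinf K hK X Y hXY with h2 | h2
      · exact Or.inl h2
      · exact absurd h2 hcon) (d + 1) D F' a ha0 hev r' e x' hr' he hx'
    exact rdm_no2 h1
  obtain ⟨g, hg, S, τ, s1, s2, s3, s4⟩ := rdm_lab Cc.pd G hinf1 i ζ hζ1 hζ2
  refine ⟨⟨D, b, F', Cc, i, T, y + x ^ (d + 1), a * x, hevZ, hTx, hi⟩, g, hg, huR, ?_, ?_⟩
  · have : ((m : ℤ) : ℝ) ≤ ((|y + x ^ (d + 1)| ^ (2 * d + 3) : ℤ) : ℝ) := by exact_mod_cast hup
    push_cast at this ⊢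
    exact this
  · intro n θ hθ
    have hl : ∀ j ∈ S, ∃ l : Fin n, τ j = θ l := by
      intro j hj
      have h1 := s2 j hj
      have h2 : (g.map (Int.castRingHom ℂ)).eval (τ j) = 0 := by
        rw [eval_map]
        exact h1
      rw [hθ.1, eval_prod] at h2
      obtain ⟨l, -, hl⟩ := Finset.prod_eq_zero_iff.mp h2
      refine ⟨l, ?_⟩
      rw [eval_sub, eval_X, eval_C] at hl
      exact sub_eq_zero.mp hl
    obtain ⟨li, hli⟩ := hl i s1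
    have hl' : ∀ j, ∃ l : Fin n, j ∈ S → τ j = θ l := by
      intro j
      by_cases hj : j ∈ S
      · obtain ⟨l, h⟩ := hl j hj
        exact ⟨l, fun _ => h⟩
      · exact ⟨li, fun h => absurd h hj⟩
    choose th hth using hl'
    refine ⟨th i, ⟨⟨S, th, s1, rfl, ?_, ?_⟩⟩⟩
    · intro σ i' hi' j hj
      obtain ⟨h5, h6⟩ := s3 σ i' hi' j hj
      refine ⟨h5, fun u a' ha' => ?_⟩
      change (a' : ℂ) = θ (th i') at ha'
      change σ a' = θ (th j)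
      rw [← hth i' hi'] at ha'
      rw [← hth j h5]
      exact h6 a' ha'
    · intro ζ' hζ' i' hi' j hj
      obtain ⟨h5, h6⟩ := s4 ζ' i' hi' j hζ' hj
      refine ⟨h5, hθ.2 ?_⟩
      rw [← hth j h5, ← hth i' hi', h6]

end Pool.Agent.H97.FC
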