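import Pool.Agent.H97.FC.MNY
import Pool.Agent.H97.FC.CLM
import Pool.Agent.H97.FB.WIN

/-! # [H97 FC WN3] The window theorem for families in normal form, `n ≥ 3` -/

namespace Pool.Agent.H97.FC

open Finset Polynomial Pool.Agent.H72.ES Pool.Agent.H87.SA Pool.Agent.H87.SA2 Pool.Agent.H87.AX
  Pool.Agent.H8.AW Pool.Agent.H52.AC Pool.Agent.H97.NW Pool.Agent.H34.AC Pool.Agent.H97.FB

private theorem wn3_pow {x X0 C C' : ℕ} (h : x ^ C ≤ X0) (hC : C' ≤ C) (hX : 1 ≤ X0) :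
    x ^ C' ≤ X0 := by
  rcases Nat.eq_zero_or_pos x with h0 | h0
  · subst h0
    rcases Nat.eq_zero_or_pos C' with h1 | h1
    · rw [h1, pow_zero]
      exact hX
    · rw [zero_pow (by omega)]
      omega
  · exact (Nat.pow_le_pow_right h0 hC).trans h

private theorem wn3_self {x X0 C : ℕ} (h : x ^ C ≤ X0) (hC : 1 ≤ C) : x ≤ X0 :=
  (Nat.le_self_pow (by omega) x).trans h

/-- the data of an exceptional fibre -/
private theorem wn3_data {n m d : ℕ} (hn : 2 ≤ n) (hd : 3 ≤ d) {c : ℕ}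
    (hc : cA (d * (d + 1)) ≤ c) {B : ℕ} {f : ℤ[X][X]} (Fm : FamB n m B f) {a C C1 : ℕ}
    (ha : 1 ≤ a) (hR : Rts (fa f a) (thA Fm.pd m a))
    (hirr : Irreducible ((fa f a).map (Int.castRingHom ℚ)))
    (hC : cR d * c * (2 * d + 3) ≤ C) (hC1 : (2 * d + 3) * C1 ≤ C)
    (hE : ¬ Eff d C (fa f a) a) :
    ∃ (l : Fin n) (P : Ptd (d * (d + 1))), P.Thr c ∧ C1 * Real.log a ≤ P.ell ∧
      Nonempty (LbG P (v1 (thA Fm.pd m a)) l) := by
  unfold Eff at hE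
  push Not at hE
  obtain ⟨F, hF, hdeg, hinf, H, hH2, hH, x, y, h0, hbig⟩ := hE
  have haH : 1 ≤ a * H := Nat.mul_pos ha (by omega)
  have h1 : H ^ (cR d * c * (2 * d + 3)) ≤ (a * H) ^ C :=
    (Nat.pow_le_pow_left (Nat.le_mul_of_pos_left H ha) _).trans (Nat.pow_le_pow_right haH hC)
  obtain ⟨P, l0, hT, hx, hL⟩ := redG n d hn hd c hc (fa f a) (thA Fm.pd m a)
    (Fm.monic.map _) hirr hR F hF hdeg hinf H hH2 hH x y h0 (h1.trans_lt hbig)
  refine ⟨l0, P, hT, ?_, hL⟩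
  have har : (1 : ℝ) ≤ a := by exact_mod_cast ha
  have hHr : (1 : ℝ) ≤ H := by exact_mod_cast (by omega : 1 ≤ H)
  have hla : 0 ≤ Real.log a := Real.log_nonneg har
  have h2 : ((a : ℝ) * H) ^ C < |(P.x : ℝ)| ^ (2 * d + 3) := by
    refine lt_of_lt_of_le ?_ hx
    have : ((a * H) ^ C : ℕ) < max x.natAbs y.natAbs := hbig
    exact_mod_cast this
  have h3 : (0 : ℝ) < (a : ℝ) * H := by positivity
  have h4 := Real.log_le_log (pow_pos h3 C) h2.le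
  rw [Real.log_pow, Real.log_pow, Real.log_mul (by positivity) (by positivity)] at h4
  have h5 : 0 ≤ Real.log H := Real.log_nonneg hHr
  have h6 : (((2 * d + 3) * C1 : ℕ) : ℝ) * Real.log a ≤ (C : ℝ) * Real.log a :=
    mul_le_mul_of_nonneg_right (by exact_mod_cast hC1) hla
  have h7 : (0 : ℝ) ≤ (C : ℝ) * Real.log H := by positivity
  have h8 : (((2 * d + 3 : ℕ) : ℝ)) * (C1 * Real.log a) ≤ ((2 * d + 3 : ℕ) : ℝ) * P.ell := by
    unfold Ptd.ell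
    push_cast at h6 h4 ⊢
    nlinarith
  exact le_of_mul_le_mul_left h8 (by positivity)

theorem window3 (n m d : ℕ) (hn : 3 ≤ n) (hd : 3 ≤ d) : ∃ C : ℕ, ∀ (B : ℕ) (f : ℤ[X][X])
    (_ : FamB n m B f) (X0 : ℕ), B ^ C ≤ X0 → ∃ E : Finset ℕ, E.card ≤ C ∧
      ∀ a : ℕ, X0 ≤ a → (a - X0) ^ C ≤ X0 → a ∉ E →
        Irreducible ((fa f a).map (Int.castRingHom ℚ)) ∧ Eff d C (fa f a) a := by
  classical
  obtain ⟨c, C1, K, hc, hNM⟩ := no_many n m d hn hd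
  obtain ⟨J0, C2, hCL⟩ := cliquesM n m 1
  obtain ⟨CT, hTR⟩ := thA_rts n m
  obtain ⟨C, hCd⟩ : ∃ C, C = C1 + C2 + CT + cR d * c * (2 * d + 3) + (2 * d + 3) * C1 +
    (J0 + K * n) + 1 := ⟨_, rfl⟩
  have hCa : C1 ≤ C := by rw [hCd]; omega
  have hCb : C2 ≤ C := by rw [hCd]; omega
  have hCc : CT ≤ C := by rw [hCd]; omega
  have hCe : cR d * c * (2 * d + 3) ≤ C := by rw [hCd]; omega
  have hCf : (2 * d + 3) * C1 ≤ C := by rw [hCd]; omega
  have hCg : J0 + K * n ≤ C := by rw [hCd]; omega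
  have hCh : 1 ≤ C := by rw [hCd]; omega
  clear hCd
  refine ⟨C, fun B f Fm X0 hX => ?_⟩
  have hB2 := Fm.B2
  have hX1 : 1 ≤ X0 := (Nat.one_le_pow _ _ (by omega)).trans hX
  obtain ⟨W, hW⟩ : ∃ W : Finset ℕ, ∀ a, a ∈ W ↔ X0 ≤ a ∧ (a - X0) ^ C ≤ X0 := by
    refine ⟨(range (2 * X0 + 1)).filter (fun a => X0 ≤ a ∧ (a - X0) ^ C ≤ X0), fun a => ?_⟩
    rw [mem_filter, mem_range]
    refine ⟨fun h => h.2, fun h => ⟨?_, h⟩⟩
    have := wn3_self h.2 hCh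
    omega
  obtain ⟨E1, hE1⟩ : ∃ E1 : Finset ℕ, ∀ a, a ∈ E1 ↔ a ∈ W ∧
      ¬ Irreducible ((fa f a).map (Int.castRingHom ℚ)) := ⟨W.filter _, fun a => mem_filter⟩
  obtain ⟨E2, hE2⟩ : ∃ E2 : Finset ℕ, ∀ a, a ∈ E2 ↔ a ∈ W ∧
      (Irreducible ((fa f a).map (Int.castRingHom ℚ)) ∧ ¬ Eff d C (fa f a) a) :=
    ⟨W.filter _, fun a => mem_filter⟩
  have hc1 : E1.card ≤ J0 := by
    refine hCL B f Fm X0 (wn3_pow hX hCb hX1) ℚ ?_ E1 (fun a ha => ?_) (fun a ha => ?_)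
    · rw [Module.finrank_self]
    · obtain ⟨h1, h2⟩ := (hW a).1 ((hE1 a).1 ha).1
      exact ⟨h1, wn3_pow h2 hCb hX1⟩
    · exact ((hE1 a).1 ha).2
  have hdat : ∀ a ∈ E2, ∃ (l : Fin n) (P : Ptd (d * (d + 1))), P.Thr c ∧
      C1 * Real.log a ≤ P.ell ∧ Nonempty (LbG P (v1 (thA Fm.pd m a)) l) := by
    intro a ha
    obtain ⟨h1, h2, h3⟩ := (hE2 a).1 ha
    obtain ⟨h4, h5⟩ := (hW a).1 h1
    exact wn3_data (by omega) hd hc Fm (hX1.trans h4)
      (hTR B f Fm a ((wn3_pow hX hCc hX1).trans h4)) h2 hCe hCf h3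
  have hc2 : E2.card ≤ K * n := by
    rcases E2.eq_empty_or_nonempty with h0 | ⟨a0, ha0⟩
    · rw [h0, card_empty]
      exact Nat.zero_le _
    obtain ⟨P0, -⟩ := (hdat a0 ha0).choose_spec
    obtain ⟨t, P, ht⟩ : ∃ (t : ℕ → Fin n) (P : Fin n → ℕ → Ptd (d * (d + 1))), ∀ a ∈ E2,
        (P (t a) a).Thr c ∧ C1 * Real.log a ≤ (P (t a) a).ell ∧
        Nonempty (LbG (P (t a) a) (v1 (thA Fm.pd m a)) (t a)) := by
      refine ⟨fun a => if h : a ∈ E2 then (hdat a h).choose else ⟨0, by omega⟩,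
        fun _ a => if h : a ∈ E2 then (hdat a h).choose_spec.choose else P0, fun a ha => ?_⟩
      have := (hdat a ha).choose_spec.choose_spec
      simp only [dif_pos ha]
      exact this
    have h1 : E2.card ≤ K * (E2.image t).card := by
      refine card_le_mul_card_image E2 K fun l _ => ?_
      refine hNM B f Fm X0 (wn3_pow hX hCa hX1) _ (fun a ha => ?_) (fun a ha => ?_) l (P l)
        (fun a ha => ?_) (fun a ha => ?_) (fun a ha => ?_)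
      · obtain ⟨h1, h2⟩ := (hW a).1 ((hE2 a).1 (mem_filter.1 ha).1).1
        exact ⟨h1, wn3_pow h2 hCa hX1⟩
      · exact ((hE2 a).1 (mem_filter.1 ha).1).2.1
      · obtain ⟨h1, h2⟩ := mem_filter.1 ha
        have h3 := (ht a h1).2.2
        rwa [h2] at h3
      · obtain ⟨h1, h2⟩ := mem_filter.1 ha
        have h3 := (ht a h1).1
        rwa [h2] at h3
      · obtain ⟨h1, h2⟩ := mem_filter.1 ha
        have h3 := (ht a h1).2.1
        rwa [h2] at h3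
    refine h1.trans (Nat.mul_le_mul_left _ ?_)
    exact (card_le_univ _).trans (by rw [Fintype.card_fin])
  refine ⟨E1 ∪ E2, ?_, fun a h1 h2 h3 => ?_⟩
  · exact (card_union_le _ _).trans ((Nat.add_le_add hc1 hc2).trans hCg)
  · rw [mem_union, not_or, hE1, hE2] at h3
    obtain ⟨h4, h5⟩ := h3
    have h6 : a ∈ W := (hW a).2 ⟨h1, h2⟩
    have h7 : Irreducible ((fa f a).map (Int.castRingHom ℚ)) := by
      by_contra h
      exact h4 ⟨h6, h⟩
    refine ⟨h7, ?_⟩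
    by_contra h
    exact h5 ⟨h6, h7, h⟩

end Pool.Agent.H97.FC
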