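import Pool.Agent.H97.FC.RDM
import Pool.Agent.H97.FC.MNY
import Pool.Agent.H97.FC.CLM

/-! # [H97 FC WNM] The window theorem for families in normal form, `n ≥ 3`, several fields -/

namespace Pool.Agent.H97.FC

open Finset Polynomial Pool.Agent.H72.ES Pool.Agent.H87.SA Pool.Agent.H87.SA2 Pool.Agent.H87.AX
  Pool.Agent.H8.AW Pool.Agent.H52.AC Pool.Agent.H97.NW Pool.Agent.H34.AC Pool.Agent.H97.FB

/-- the effective Siegel theorem for the curves all of whose real points at infinity carry roots of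
fibres `f(a, Z)`, `1 ≤ a ≤ A`, `a ∉ E` -/
def EffM (d C : ℕ) (f : ℤ[X][X]) (E : Set ℕ) : Prop :=
  ∀ F : MvPolynomial (Fin 2) ℤ, Irreducible (MvPolynomial.map (Int.castRingHom ℚ) F) →
    F.totalDegree ≤ d → ∀ A : ℕ, 1 ≤ A → INs {g | ∃ a, 1 ≤ a ∧ a ≤ A ∧ a ∉ E ∧ g = fa f a} F →
    ∀ H : ℕ, 2 ≤ H → (∀ e, |F.coeff e| ≤ (H : ℤ)) →
    ∀ x y : ℤ, vl F x y = 0 → max x.natAbs y.natAbs ≤ (A * H) ^ C

private theorem wnm_pow {x X0 C C' : ℕ} (h : x ^ C ≤ X0) (hC : C' ≤ C) (hX : 1 ≤ X0) :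
    x ^ C' ≤ X0 := by
  rcases Nat.eq_zero_or_pos x with h0 | h0
  · subst h0
    rcases Nat.eq_zero_or_pos C' with h1 | h1
    · rw [h1, pow_zero]
      exact hX
    · rw [zero_pow (by omega)]
      omega
  · exact (Nat.pow_le_pow_right h0 hC).trans h

theorem windowM (n m d : ℕ) (hn : 3 ≤ n) (hd : 3 ≤ d) : ∃ C : ℕ, 1 ≤ C ∧ ∀ (B : ℕ) (f : ℤ[X][X])
    (_ : FamB n m B f), ∃ E : Set ℕ, (∀ a < B ^ C, a ∈ E) ∧
      (∀ X0 : ℕ, B ^ C ≤ X0 → ∀ S : Finset ℕ, (∀ a ∈ S, a ∈ E ∧ X0 ≤ a ∧ (a - X0) ^ C ≤ X0) →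
        S.card ≤ C) ∧
      (∀ a ∉ E, Irreducible ((fa f a).map (Int.castRingHom ℚ))) ∧ EffM d C f E := by
  classical
  obtain ⟨c, C1, K, hc, hNM⟩ := no_many n m d hn hd
  obtain ⟨J0, C2, hCL⟩ := cliquesM n m 1
  obtain ⟨CT, hTR⟩ := thA_rts n m
  obtain ⟨C, hCd⟩ : ∃ C, C = C1 + C2 + CT + cR d * c * (2 * d + 3) + (2 * d + 3) * C1 +
    (J0 + K * n) + 1 := ⟨_, rfl⟩
  have hCa : C1 ≤ C := by rw [hCd]; omega
  have hCb : C2 ≤ C := by rw [hCd]; omega
  have hCc : CT ≤ C := by rw [hCd]; omega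
  have hCe : cR d * c * (2 * d + 3) ≤ C := by rw [hCd]; omega
  have hCf : (2 * d + 3) * C1 ≤ C := by rw [hCd]; omega
  have hCg : J0 + K * n ≤ C := by rw [hCd]; omega
  have hCh : 1 ≤ C := by rw [hCd]; omega
  clear hCd
  refine ⟨C, hCh, fun B f Fm => ?_⟩
  have hB2 := Fm.B2
  refine ⟨{a | a < B ^ C ∨ ¬ Irreducible ((fa f a).map (Int.castRingHom ℚ)) ∨
    ∃ (l : Fin n) (P : Ptd (d * (d + 1))), P.Thr c ∧ C1 * Real.log a ≤ P.ell ∧
      Nonempty (LbG P (v1 (thA Fm.pd m a)) l)}, fun a ha => Or.inl ha, ?_, ?_, ?_⟩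
  · intro X0 hX S hS
    have hX1 : 1 ≤ X0 := (Nat.one_le_pow _ _ (by omega)).trans hX
    obtain ⟨E1, hE1⟩ : ∃ E1 : Finset ℕ, ∀ a, a ∈ E1 ↔ a ∈ S ∧
        ¬ Irreducible ((fa f a).map (Int.castRingHom ℚ)) := ⟨S.filter _, fun a => mem_filter⟩
    obtain ⟨E2, hE2⟩ : ∃ E2 : Finset ℕ, ∀ a, a ∈ E2 ↔ a ∈ S ∧
        Irreducible ((fa f a).map (Int.castRingHom ℚ)) := ⟨S.filter _, fun a => mem_filter⟩
    have hsub : S ⊆ E1 ∪ E2 := by
      intro a ha
      rw [mem_union, hE1, hE2]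
      by_cases h : Irreducible ((fa f a).map (Int.castRingHom ℚ))
      · exact Or.inr ⟨ha, h⟩
      · exact Or.inl ⟨ha, h⟩
    have hc1 : E1.card ≤ J0 := by
      refine hCL B f Fm X0 (wnm_pow hX hCb hX1) ℚ ?_ E1 (fun a ha => ?_) (fun a ha => ?_)
      · rw [Module.finrank_self]
      · obtain ⟨-, h1, h2⟩ := hS a ((hE1 a).1 ha).1
        exact ⟨h1, wnm_pow h2 hCb hX1⟩
      · exact ((hE1 a).1 ha).2
    have hdat : ∀ a ∈ E2, ∃ (l : Fin n) (P : Ptd (d * (d + 1))), P.Thr c ∧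
        C1 * Real.log a ≤ P.ell ∧ Nonempty (LbG P (v1 (thA Fm.pd m a)) l) := by
      intro a ha
      obtain ⟨h1, h2⟩ := (hE2 a).1 ha
      obtain ⟨h3, h4, -⟩ := hS a h1
      rcases h3 with h3 | h3 | h3
      · exact absurd h3 (not_lt.2 (hX.trans h4))
      · exact absurd h2 h3
      · exact h3
    have hc2 : E2.card ≤ K * n := by
      rcases E2.eq_empty_or_nonempty with h0 | ⟨a0, ha0⟩
      · rw [h0, card_empty]
        exact Nat.zero_le _
      obtain ⟨P0, -⟩ := (hdat a0 ha0).choose_spec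
      obtain ⟨t, P, ht⟩ : ∃ (t : ℕ → Fin n) (P : Fin n → ℕ → Ptd (d * (d + 1))), ∀ a ∈ E2,
          (P (t a) a).Thr c ∧ C1 * Real.log a ≤ (P (t a) a).ell ∧
          Nonempty (LbG (P (t a) a) (v1 (thA Fm.pd m a)) (t a)) := by
        refine ⟨fun a => if h : a ∈ E2 then (hdat a h).choose else ⟨0, by omega⟩,
          fun _ a => if h : a ∈ E2 then (hdat a h).choose_spec.choose else P0, fun a ha => ?_⟩
        have := (hdat a ha).choose_spec.choose_spec
        simp only [dif_pos ha]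
        exact this
      have h1 : E2.card ≤ K * (E2.image t).card := by
        refine card_le_mul_card_image E2 K fun l _ => ?_
        refine hNM B f Fm X0 (wnm_pow hX hCa hX1) _ (fun a ha => ?_) (fun a ha => ?_) l (P l)
          (fun a ha => ?_) (fun a ha => ?_) (fun a ha => ?_)
        · obtain ⟨-, h1, h2⟩ := hS a ((hE2 a).1 (mem_filter.1 ha).1).1
          exact ⟨h1, wnm_pow h2 hCa hX1⟩
        · exact ((hE2 a).1 (mem_filter.1 ha).1).2
        · obtain ⟨h1, h2⟩ := mem_filter.1 ha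
          have h3 := (ht a h1).2.2
          rwa [h2] at h3
        · obtain ⟨h1, h2⟩ := mem_filter.1 ha
          have h3 := (ht a h1).1
          rwa [h2] at h3
        · obtain ⟨h1, h2⟩ := mem_filter.1 ha
          have h3 := (ht a h1).2.1
          rwa [h2] at h3
      refine h1.trans (Nat.mul_le_mul_left _ ?_)
      exact (card_le_univ _).trans (by rw [Fintype.card_fin])
    exact (card_le_card hsub).trans ((card_union_le _ _).trans ((Nat.add_le_add hc1 hc2).trans hCg))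
  · intro a ha
    by_contra h
    exact ha (Or.inr (Or.inl h))
  · intro F hF hdeg A hA hinf H hH2 hH x y h0
    by_contra hcon
    push Not at hcon
    have hAH : 1 ≤ A * H := Nat.mul_pos hA (by omega)
    have h1 : H ^ (cR d * c * (2 * d + 3)) ≤ (A * H) ^ C :=
      (Nat.pow_le_pow_left (Nat.le_mul_of_pos_left H hA) _).trans (Nat.pow_le_pow_right hAH hCe)
    obtain ⟨P, g, ⟨a, ha1, haA, haE, hga⟩, hT, hx, hL⟩ := redM n d (by omega) hd c hc
      {g | ∃ a, 1 ≤ a ∧ a ≤ A ∧ a ∉ _ ∧ g = fa f a} (by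
        rintro g ⟨a, ha1, haA, haE, rfl⟩
        refine ⟨Fm.monic.map _, ?_, ?_⟩
        · by_contra h
          exact haE (Or.inr (Or.inl h))
        · unfold fa
          rw [Fm.monic.natDegree_map, Fm.deg]) F hF hdeg hinf H hH2 hH x y h0 (h1.trans_lt hcon)
    have hBa : B ^ C ≤ a := by
      by_contra h
      exact haE (Or.inl (not_le.1 h))
    have ha0 : 1 ≤ B ^ C := Nat.one_le_pow _ _ (by omega)
    obtain ⟨l0, hL0⟩ := hL (thA Fm.pd m a) (by
      rw [hga]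
      exact hTR B f Fm a (wnm_pow hBa hCc (ha0.trans hBa)))
    refine haE (Or.inr (Or.inr ⟨l0, P, hT, ?_, hL0⟩))
    have hAr : (1 : ℝ) ≤ A := by exact_mod_cast hA
    have har : (1 : ℝ) ≤ a := by exact_mod_cast ha1
    have haAr : (a : ℝ) ≤ A := by exact_mod_cast haA
    have hHr : (1 : ℝ) ≤ H := by exact_mod_cast (by omega : 1 ≤ H)
    have hla : 0 ≤ Real.log A := Real.log_nonneg hAr
    have hlaA : Real.log a ≤ Real.log A := Real.log_le_log (by linarith) haAr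
    have h2 : ((A : ℝ) * H) ^ C < |(P.x : ℝ)| ^ (2 * d + 3) := by
      refine lt_of_lt_of_le ?_ hx
      exact_mod_cast hcon
    have h3 : (0 : ℝ) < (A : ℝ) * H := by positivity
    have h4 := Real.log_le_log (pow_pos h3 C) h2.le
    rw [Real.log_pow, Real.log_pow, Real.log_mul (by positivity) (by positivity)] at h4
    have h5 : 0 ≤ Real.log H := Real.log_nonneg hHr
    have h6 : (((2 * d + 3) * C1 : ℕ) : ℝ) * Real.log A ≤ (C : ℝ) * Real.log A :=
      mul_le_mul_of_nonneg_right (by exact_mod_cast hCf) hla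
    have h7 : (0 : ℝ) ≤ (C : ℝ) * Real.log H := by positivity
    have h8 : (((2 * d + 3 : ℕ) : ℝ)) * (C1 * Real.log A) ≤ ((2 * d + 3 : ℕ) : ℝ) * P.ell := by
      unfold Ptd.ell
      push_cast at h6 h4 ⊢
      nlinarith
    have h9 : C1 * Real.log A ≤ P.ell := le_of_mul_le_mul_left h8 (by positivity)
    exact (mul_le_mul_of_nonneg_left hlaA (Nat.cast_nonneg C1)).trans h9

end Pool.Agent.H97.FC
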